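import Pool.Agent.V1183.PM.NSid

/-!
Monotone pressure (helper83): barriers.
-/

set_option autoImplicit false

open MeasureTheory Set Metric Filter Topology
open scoped ContDiff

namespace Pool.Agent.V1183.PM

open H459R3.NS W221.NS Pool.Agent.TH305.DR
open Pool.Agent.W583.MD (sm_pd cs_pd pd_mul' Z Z.add Z.sub Z.smul Z.sum int_cs Z_pd hcs)

lemma q2c_cd (c : V) : ContDiff ℝ ∞ (fun y => q2 (y - c)) := by
  unfold q2
  exact ContDiff.sum fun i _ => (((contDiff_apply ℝ ℝ i).comp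
    ((contDiff_id (E := V)).sub contDiff_const)).pow 2)

lemma pd_q2 (c x : V) (j : Fin 3) : pd j (fun y => q2 (y - c)) x = 2 * (x j - c j) := by
  unfold pd q2
  have h : ∀ i : Fin 3, HasFDerivAt (fun y : V => (y - c) i ^ 2)
      ((2 * (x i - c i)) • (ContinuousLinearMap.proj (R := ℝ) (φ := fun _ : Fin 3 => ℝ) i)) x := by
    intro i
    have h1 : HasFDerivAt (fun y : V => (y - c) i) (ContinuousLinearMap.proj (R := ℝ) i) x := by
      have := (ContinuousLinearMap.proj (R := ℝ) (φ := fun _ : Fin 3 => ℝ) i).hasFDerivAt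
        (x := x)
      exact this.sub_const (c i)
    have h2 := h1.pow 2
    refine h2.congr_fderiv ?_
    ext v
    simp
  have h2 : HasFDerivAt (fun y : V => ∑ i, (y - c) i ^ 2) _ x :=
    HasFDerivAt.fun_sum fun i _ => h i
  rw [h2.fderiv]
  simp only [ContinuousLinearMap.sum_apply, ContinuousLinearMap.smul_apply,
    ContinuousLinearMap.proj_apply, smul_eq_mul]
  rw [Finset.sum_eq_single j]
  · simp
  · intro i _ hi
    simp [Pi.single_eq_of_ne hi]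
  · simp

lemma pd_lin (c x : V) (j : Fin 3) : pd j (fun y : V => 2 * (y j - c j)) x = 2 := by
  unfold pd
  have h1 : HasFDerivAt (fun y : V => 2 * (y j - c j))
      ((2 : ℝ) • (ContinuousLinearMap.proj (R := ℝ) (φ := fun _ : Fin 3 => ℝ) j)) x := by
    have := (ContinuousLinearMap.proj (R := ℝ) (φ := fun _ : Fin 3 => ℝ) j).hasFDerivAt
        (x := x)
    have h2 := (this.sub_const (c j)).const_mul 2
    exact h2
  rw [h1.fderiv]
  simp

lemma lap_q2 (c x : V) : lap (fun y => q2 (y - c)) x = 6 := by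
  unfold lap
  have e : ∀ j, pd j (fun y => q2 (y - c)) = fun y => 2 * (y j - c j) := by
    intro j
    funext y
    exact pd_q2 c y j
  simp only [e, pd_lin, Fin.sum_univ_three]
  norm_num

variable {u : ℝ → V → V} {t : ℝ} {x : V}

/-- The operator applied to functions of `t` and `|x - c|²`. -/
lemma LL_q2 {T : ℝ} (c : V) (ht : t ∈ Ioo 0 T) :
    LL u (fun _ y => q2 (y - c)) t x = 2 * (∑ j, u t x j * (x j - c j)) - 6 := by
  unfold LL adv
  rw [lap_q2]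
  simp only [pd_q2, deriv_const, Finset.mul_sum]
  simp only [Fin.sum_univ_three]
  ring

lemma adv_q2 (c : V) (v : V → V) : adv v (fun y => q2 (y - c)) x = 2 * ∑ j, v x j * (x j - c j) := by
  unfold adv
  simp only [pd_q2, Fin.sum_univ_three]
  ring

lemma cd_bar (c : V) (α ϱ : ℝ) : ContDiff ℝ ∞ (fun y => α * (ϱ - q2 (y - c)) ^ 2) :=
  contDiff_const.mul ((contDiff_const.sub (q2c_cd c)).pow 2)

lemma pd_bar (c : V) (α ϱ : ℝ) (x : V) (j : Fin 3) :
    pd j (fun y => α * (ϱ - q2 (y - c)) ^ 2) x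
      = α * (2 * (ϱ - q2 (x - c)) * (-(2 * (x j - c j)))) := by
  have hg : ContDiff ℝ ∞ (fun y => ϱ - q2 (y - c)) := contDiff_const.sub (q2c_cd c)
  have e1 : (fun y => α * (ϱ - q2 (y - c)) ^ 2)
      = fun y => α * ((ϱ - q2 (y - c)) * (ϱ - q2 (y - c))) := by
    funext y; ring
  have e2 : pd j (fun y => ϱ - q2 (y - c)) x = -(2 * (x j - c j)) := by
    have := pd_sub' (contDiff_const (c := ϱ)) (q2c_cd c) j
    have h3 := congrFun this x
    rw [h3, pd_const2, pd_q2, zero_sub]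
  rw [e1, pd_mul' contDiff_const (hg.mul hg), pd_mul' hg hg, e2, pd_const2]
  ring

lemma lap_bar (c : V) (α ϱ : ℝ) (x : V) :
    lap (fun y => α * (ϱ - q2 (y - c)) ^ 2) x
      = α * (8 * q2 (x - c) - 12 * (ϱ - q2 (x - c))) := by
  unfold lap
  have hg : ContDiff ℝ ∞ (fun y => ϱ - q2 (y - c)) := contDiff_const.sub (q2c_cd c)
  have hl : ∀ j : Fin 3, ContDiff ℝ ∞ (fun y : V => 2 * (y j - c j)) := fun j =>
    contDiff_const.mul ((contDiff_apply ℝ ℝ j).sub contDiff_const)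
  have e2 : ∀ j, pd j (fun y => ϱ - q2 (y - c)) x = -(2 * (x j - c j)) := by
    intro j
    have := pd_sub' (contDiff_const (c := ϱ)) (q2c_cd c) j
    have h3 := congrFun this x
    rw [h3, pd_const2, pd_q2, zero_sub]
  have e3 : ∀ j, pd j (pd j (fun y => α * (ϱ - q2 (y - c)) ^ 2)) x
      = α * (2 * (2 * (x j - c j)) * (2 * (x j - c j)) - 4 * (ϱ - q2 (x - c))) := by
    intro j
    have e4 : pd j (fun y => α * (ϱ - q2 (y - c)) ^ 2)
        = fun y => (-2 * α) * ((ϱ - q2 (y - c)) * (2 * (y j - c j))) := by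
      funext y
      rw [pd_bar]
      ring
    rw [e4, pd_mul' contDiff_const (hg.mul (hl j)), pd_mul' hg (hl j), e2, pd_lin, pd_const2]
    ring
  simp only [e3]
  have e5 : q2 (x - c) = (x 0 - c 0) ^ 2 + (x 1 - c 1) ^ 2 + (x 2 - c 2) ^ 2 := by
    unfold q2
    rw [Fin.sum_univ_three]
    rfl
  rw [Fin.sum_univ_three, e5]
  ring

lemma LL_bar (c : V) {α ϱ : ℝ → ℝ} {α' ϱ' : ℝ} (hα : HasDerivAt α α' t) (hϱ : HasDerivAt ϱ ϱ' t) :
    LL u (fun t y => α t * (ϱ t - q2 (y - c)) ^ 2) t x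
      = α' * (ϱ t - q2 (x - c)) ^ 2
        + α t * (2 * (ϱ t - q2 (x - c)) * (ϱ' - 2 * ∑ j, u t x j * (x j - c j))
          - 8 * q2 (x - c) + 12 * (ϱ t - q2 (x - c))) := by
  unfold LL adv
  rw [lap_bar]
  simp only [pd_bar]
  have h1 : HasDerivAt (fun s => α s * (ϱ s - q2 (x - c)) ^ 2)
      (α' * (ϱ t - q2 (x - c)) ^ 2 + α t * (2 * (ϱ t - q2 (x - c)) * ϱ')) t := by
    have h2 := hα.mul ((hϱ.sub_const (q2 (x - c))).pow 2)
    refine h2.congr_deriv ?_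
    simp
  rw [h1.deriv]
  simp only [Fin.sum_univ_three]
  ring

lemma c12_bar {T : ℝ} (c : V) {α ϱ : ℝ → ℝ} (hα : Differentiable ℝ α) (hϱ : Differentiable ℝ ϱ) :
    C12 T (fun t y => α t * (ϱ t - q2 (y - c)) ^ 2) where
  ct := by
    apply Continuous.continuousOn
    have h1 : Continuous fun z : ℝ × V => q2 (z.2 - c) := q2_cont.comp (by fun_prop)
    exact (hα.continuous.comp continuous_fst).mul
      (((hϱ.continuous.comp continuous_fst).sub h1).pow 2)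
  sp := fun t _ => (cd_bar c (α t) (ϱ t)).of_le (by norm_cast)
  tm := fun t _ y => (hα t).mul (((hϱ t).sub_const _).pow 2)

/-- The stage of the source. -/
lemma stage1 {B η A s g w : ℝ} (hB : 0 ≤ B) (hη : 0 < η) (hη1 : η ≤ 1) (hA : 0 ≤ A) (hs : 0 ≤ s)
    (hs1 : s ≤ η) (hg : 0 ≤ g) (hg1 : g ≤ η ^ 2) (hw : |w| ≤ 3 * η * B) (hq : 0 ≤ η ^ 2 - g) :
    A * g ^ 2 + A * s * (2 * g * (0 - 2 * w) - 8 * (η ^ 2 - g) + 12 * g) ≤ A * (13 + 12 * B) := by
  have h1 : -(2 * w) ≤ 6 * η * B := by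
    have := abs_le.1 hw
    linarith
  have hη2 : η ^ 2 ≤ 1 := by nlinarith
  have hg2 : g ≤ 1 := hg1.trans hη2
  have h2 : g ^ 2 ≤ 1 := by nlinarith
  have h3 : 2 * g * (0 - 2 * w) ≤ 12 * B := by
    have : 2 * g * (0 - 2 * w) ≤ 2 * g * (6 * η * B) := by
      apply mul_le_mul_of_nonneg_left _ (by positivity)
      linarith
    have h4 : 2 * g * (6 * η * B) ≤ 12 * B := by
      have : g * η ≤ 1 := by nlinarith
      nlinarith
    linarith
  have h5 : s * (2 * g * (0 - 2 * w) - 8 * (η ^ 2 - g) + 12 * g) ≤ 12 * B + 12 := by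
    have h6 : 2 * g * (0 - 2 * w) - 8 * (η ^ 2 - g) + 12 * g ≤ 12 * B + 12 := by linarith
    have h7 : 0 ≤ 12 * B + 12 := by linarith
    calc s * (2 * g * (0 - 2 * w) - 8 * (η ^ 2 - g) + 12 * g) ≤ s * (12 * B + 12) := by gcongr
      _ ≤ 1 * (12 * B + 12) := by
          apply mul_le_mul_of_nonneg_right (hs1.trans hη1) h7
      _ = _ := one_mul _
  have h8 : g ^ 2 + s * (2 * g * (0 - 2 * w) - 8 * (η ^ 2 - g) + 12 * g) ≤ 13 + 12 * B := by
    linarith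
  calc A * g ^ 2 + A * s * (2 * g * (0 - 2 * w) - 8 * (η ^ 2 - g) + 12 * g)
      = A * (g ^ 2 + s * (2 * g * (0 - 2 * w) - 8 * (η ^ 2 - g) + 12 * g)) := by ring
    _ ≤ A * (13 + 12 * B) := by gcongr

/-- The spreading stage. -/
lemma stage2 {C Λ η g ϱ w : ℝ} (hη : 0 < η) (hΛ : C ^ 2 ≤ 32 * Λ * η ^ 2)
    (hg : 0 ≤ g) (hϱ : η ^ 2 ≤ ϱ) (hC : w ≤ C) (hgϱ : g ≤ ϱ) (hC0 : 0 ≤ C) (hΛ0 : 0 ≤ Λ) :
    -Λ * g ^ 2 + (g * w - 8 * ϱ) ≤ 0 := by
  have h1 : g * w ≤ g * C := by gcongr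
  have h2 : C ^ 2 ≤ 32 * Λ * ϱ := hΛ.trans (by gcongr)
  have hϱ0 : 0 < ϱ := lt_of_lt_of_le (by positivity) hϱ
  -- `Λ g² - C g + 8 ϱ ≥ 0`
  have h3 : 0 ≤ 32 * ϱ * (Λ * g ^ 2 - C * g + 8 * ϱ) := by
    nlinarith [sq_nonneg (C * g - 16 * ϱ), mul_nonneg (sub_nonneg.2 h2) (sq_nonneg g)]
  have h4 : 0 ≤ Λ * g ^ 2 - C * g + 8 * ϱ := by
    by_contra hcon
    push Not at hcon
    have : 32 * ϱ * (Λ * g ^ 2 - C * g + 8 * ϱ) < 0 := mul_neg_of_pos_of_neg (by positivity) hcon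
    linarith
  linarith

end Pool.Agent.V1183.PM
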