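import Pool.Agent.V1183.PM.Bar

/-!
Monotone pressure (helper83): the decrease over one block of scales.
-/

set_option autoImplicit false

open MeasureTheory Set Metric Filter Topology
open scoped ContDiff

namespace Pool.Agent.V1183.PM

open H459R3.NS W221.NS Pool.Agent.TH305.DR

section
variable {M T L : ℝ} {u : ℝ → V → V} {p : ℝ → V → ℝ} {t : ℝ} {x : V}

lemma LL_lin (c : V) {α γ : ℝ → ℝ} {α' γ' : ℝ} (hα : HasDerivAt α α' t) (hγ : HasDerivAt γ γ' t) :
    LL u (fun t y => γ t + α t * q2 (y - c)) t x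
      = γ' + α' * q2 (x - c) + α t * (2 * (∑ j, u t x j * (x j - c j)) - 6) := by
  unfold LL
  have h1 : HasDerivAt (fun s => γ s + α s * q2 (x - c)) (γ' + α' * q2 (x - c)) t :=
    hγ.add (hα.mul_const _)
  have h2 : ContDiff ℝ 2 (fun y => α t * q2 (y - c)) :=
    (contDiff_const.mul (q2c_cd c)).of_le (by norm_cast)
  have e1 : ∀ j y, pd j (fun y => γ t + α t * q2 (y - c)) y = α t * pd j (fun y => q2 (y - c)) y := by
    intro j y
    rw [pd_add2 contDiff_const h2, pd_const2,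
      Pool.Agent.W583.MD.pd_mul' contDiff_const (q2c_cd c), pd_const2]
    ring
  have e2 : lap (fun y => γ t + α t * q2 (y - c)) x = α t * 6 := by
    rw [← lap_q2 c x]
    unfold lap
    rw [Finset.mul_sum]
    refine Finset.sum_congr rfl fun j _ => ?_
    have e3 : pd j (fun y => γ t + α t * q2 (y - c)) = fun y => α t * pd j (fun y => q2 (y - c)) y :=
      funext (e1 j)
    rw [e3, Pool.Agent.W583.MD.pd_mul' contDiff_const (Pool.Agent.W583.MD.sm_pd (q2c_cd c) j),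
      pd_const2]
    ring
  have e4 : adv (u t) (fun y => γ t + α t * q2 (y - c)) x
      = α t * (2 * ∑ j, u t x j * (x j - c j)) := by
    rw [← adv_q2 c (u t)]
    unfold adv
    simp only [e1, Finset.mul_sum]
    exact Finset.sum_congr rfl fun j _ => by ring
  rw [h1.deriv, e2, e4]
  ring

lemma mem_of_q2 {R : ℝ} (hR : 0 ≤ R) (hx : q2 x ≤ R ^ 2) (hRL : R < L) : x ∈ ball (0 : V) L := by
  rw [mem_ball_zero_iff]
  have h := (norm_sq_le_q2 x).trans hx
  exact (abs_le_of_sq_le_sq' h hR).2.trans_lt hRL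

lemma nsq_le (v : V → V) (x : V) : nsq v x ≤ 3 * ‖v x‖ ^ 2 := q2_le_norm (v x)

lemma TG.th_nsq (h : TG M T L u p) (ht : t ∈ Ioo 0 T) (hx : x ∈ ball (0 : V) L) :
    (T - t) * nsq (u t) x ≤ 3 * M ^ 2 := by
  have hθ : 0 < T - t := by linarith [ht.2]
  have h1 : ‖u t x‖ * √(T - t) ≤ M := by
    refine le_trans ?_ (h.bu t ht x hx)
    apply mul_le_mul_of_nonneg_left _ (norm_nonneg _)
    linarith [norm_nonneg x]
  have h2 : (‖u t x‖ * √(T - t)) ^ 2 ≤ M ^ 2 := by gcongr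
  rw [mul_pow, Real.sq_sqrt hθ.le] at h2
  calc (T - t) * nsq (u t) x ≤ (T - t) * (3 * ‖u t x‖ ^ 2) := by
        gcongr
        exact nsq_le _ _
    _ = 3 * (‖u t x‖ ^ 2 * (T - t)) := by ring
    _ ≤ 3 * M ^ 2 := by gcongr

lemma TG.th_u (h : TG M T L u p) (ht : t ∈ Ioo 0 T) (hx : x ∈ ball (0 : V) L) :
    ‖u t x‖ * √(T - t) ≤ M := by
  refine le_trans ?_ (h.bu t ht x hx)
  apply mul_le_mul_of_nonneg_left _ (norm_nonneg _)
  linarith [norm_nonneg x]

lemma dot_le (v w : V) : |∑ j, v j * w j| ≤ 3 * (‖v‖ * ‖w‖) := by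
  refine (Finset.abs_sum_le_sum_abs _ _).trans ?_
  have h : ∀ j : Fin 3, |v j * w j| ≤ ‖v‖ * ‖w‖ := by
    intro j
    rw [abs_mul]
    have h1 := norm_le_pi_norm v j
    have h2 := norm_le_pi_norm w j
    rw [Real.norm_eq_abs] at h1 h2
    gcongr
  rw [Fin.sum_univ_three]
  linarith [h 0, h 1, h 2]

lemma TG.HH_le (h : TG M T L u p) (ht : t ∈ Ioo 0 T) (hx : x ∈ ball (0 : V) L) :
    HH T u t x ≤ 3 * M ^ 2 + 3 * M := by
  unfold HH
  have h1 := h.th_nsq ht hx
  have h2 : ∑ i, x i * u t x i ≤ 3 * M := by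
    refine (le_abs_self _).trans ((dot_le x (u t x)).trans ?_)
    have : ‖x‖ * ‖u t x‖ ≤ M := by
      refine le_trans ?_ (h.bu t ht x hx)
      have := mul_nonneg (norm_nonneg (u t x)) (Real.sqrt_nonneg (T - t))
      nlinarith
    linarith
  linarith

lemma TG.HH_zero (ht : t < T) : 0 ≤ HH T u t 0 := by
  unfold HH
  have h1 : 0 ≤ nsq (u t) 0 := Finset.sum_nonneg fun _ _ => sq_nonneg _
  have h2 : 0 ≤ (T - t) * nsq (u t) 0 := mul_nonneg (by linarith) h1
  simpa using h2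

end

lemma hd_sqrt {T t : ℝ} (ht : t < T) : HasDerivAt (fun s => √(T - s)) (-(1 / (2 * √(T - t)))) t := by
  have h1 : HasDerivAt (fun s => T - s) (-1) t := by
    simpa using (hasDerivAt_id t).const_sub T
  have h2 := h1.sqrt (ne_of_gt (by linarith : 0 < T - t))
  refine h2.congr_deriv ?_
  ring

end Pool.Agent.V1183.PM
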