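import Pool.Agent.V1183.PM.Blk

/-!
Monotone pressure (helper83): the decrease over one block of scales.
-/

set_option autoImplicit false

open MeasureTheory Set Metric Filter Topology
open scoped ContDiff

namespace Pool.Agent.V1183.PM

open H459R3.NS W221.NS Pool.Agent.TH305.DR

/-- The supersolution. -/
noncomputable def V0 (T m ε C : ℝ) (f : ℝ → ℝ) (t : ℝ) (x : V) : ℝ :=
  (m + ε * C * (1 - √(T - t)) + ∫ s in (T - 1)..t, f s) + (ε / √(T - t)) * q2 (x - 0)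

section
variable {M T L m ε C : ℝ} {f : ℝ → ℝ} {u : ℝ → V → V} {p : ℝ → V → ℝ} {t : ℝ} {x : V}

lemma V0_gamma (hf : Continuous f) (ht : t < T) :
    HasDerivAt (fun t => m + ε * C * (1 - √(T - t)) + ∫ s in (T - 1)..t, f s)
      (ε * C / (2 * √(T - t)) + f t) t := by
  have h1 : HasDerivAt (fun t => ∫ s in (T - 1)..t, f s) (f t) t :=
    intervalIntegral.integral_hasDerivAt_right (hf.intervalIntegrable _ _)
      (hf.stronglyMeasurableAtFilter _ _) hf.continuousAt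
  have h2 := (((hd_sqrt ht).const_sub 1).const_mul (ε * C)).const_add m
  refine (h2.add h1).congr_deriv ?_
  ring

lemma V0_alpha (ht : t < T) :
    HasDerivAt (fun t => ε / √(T - t)) (ε / (2 * (T - t) * √(T - t))) t := by
  have hθ : 0 < T - t := by linarith
  have hs : 0 < √(T - t) := Real.sqrt_pos.2 hθ
  have h1 := (hd_sqrt ht).inv hs.ne'
  have h2 := h1.const_mul ε
  refine (h2.congr_deriv ?_).congr_of_eventuallyEq ?_
  · rw [Real.sq_sqrt hθ.le]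
    field_simp
  · exact Filter.Eventually.of_forall fun s => by
      simp [div_eq_mul_inv]

lemma V0_c12 (hf : Continuous f) : C12 T (V0 T m ε C f) where
  ct := by
    unfold V0
    have hs : ContinuousOn (fun z : ℝ × V => √(T - z.1)) (Ioo 0 T ×ˢ univ) := by
      apply Continuous.continuousOn
      fun_prop
    have hi : Continuous (fun t => ∫ s in (T - 1)..t, f s) :=
      intervalIntegral.continuous_primitive (fun a b => hf.intervalIntegrable a b) _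
    apply ContinuousOn.add
    · apply ContinuousOn.add
      · exact continuousOn_const.add (continuousOn_const.mul (continuousOn_const.sub hs))
      · exact (hi.comp continuous_fst).continuousOn
    · apply ContinuousOn.mul
      · apply continuousOn_const.div hs
        rintro ⟨t, x⟩ ⟨ht, -⟩
        exact (Real.sqrt_pos.2 (by linarith [ht.2])).ne'
      · exact (q2_cont.comp (by fun_prop : Continuous fun z : ℝ × V => z.2 - 0)).continuousOn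
  sp := fun t _ => by
    unfold V0
    exact contDiff_const.add (contDiff_const.mul ((q2c_cd 0).of_le (by norm_cast)))
  tm := fun t ht x => by
    unfold V0
    exact (V0_gamma hf ht.2).differentiableAt.add ((V0_alpha ht.2).differentiableAt.mul_const _)

lemma TG.LLV0 (h : TG M T L u p) (hf : Continuous f) (ht : t ∈ Ioo 0 T)
    (hx : x ∈ ball (0 : V) L) (hε : 0 ≤ ε) : f t ≤ LL u (V0 T m ε (12 * M ^ 2 + 12) f) t x := by
  have hθ : 0 < T - t := by linarith [ht.2]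
  have hs : 0 < √(T - t) := Real.sqrt_pos.2 hθ
  unfold V0
  rw [LL_lin (u := u) (x := x) 0 (V0_alpha (ε := ε) ht.2) (V0_gamma (m := m) hf ht.2)]
  have h1 := h.th_nsq ht hx
  have h2 : -(q2 (x - 0) / (2 * (T - t)) + 2 * ((T - t) * nsq (u t) x))
      ≤ 2 * ∑ j, u t x j * (x j - (0 : V) j) := by
    have h3 : ∀ j : Fin 3, 0 ≤ 2 * (u t x j * x j) + x j ^ 2 / (2 * (T - t))
        + 2 * ((T - t) * u t x j ^ 2) := by
      intro j
      have : 2 * (u t x j * x j) + x j ^ 2 / (2 * (T - t)) + 2 * ((T - t) * u t x j ^ 2)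
          = (x j + 2 * (T - t) * u t x j) ^ 2 / (2 * (T - t)) := by
        field_simp
        ring
      rw [this]
      positivity
    have h4 : q2 (x - 0) / (2 * (T - t)) = ∑ j, x j ^ 2 / (2 * (T - t)) := by
      unfold q2
      rw [Finset.sum_div]
      simp
    have h5 : 2 * ((T - t) * nsq (u t) x) = ∑ j, 2 * ((T - t) * u t x j ^ 2) := by
      unfold nsq
      rw [Finset.mul_sum, Finset.mul_sum]
    have h6 : 2 * ∑ j, u t x j * (x j - (0 : V) j) = ∑ j, 2 * (u t x j * x j) := by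
      rw [Finset.mul_sum]
      simp
    rw [h4, h5, h6]
    have h7 := h3 0
    have h8 := h3 1
    have h9 := h3 2
    simp only [Fin.sum_univ_three]
    linarith
  have h3 : 0 ≤ ε / √(T - t) := by positivity
  have h4 : ε * (12 * M ^ 2 + 12) / (2 * √(T - t)) + f t
      + ε / (2 * (T - t) * √(T - t)) * q2 (x - 0)
      + ε / √(T - t) * (2 * ∑ j, u t x j * (x j - (0 : V) j) - 6)
      = f t + ε / √(T - t) * ((6 * M ^ 2 + 6) + q2 (x - 0) / (2 * (T - t))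
        + 2 * ∑ j, u t x j * (x j - (0 : V) j) - 6) := by
    field_simp
    ring
  rw [h4]
  have h5 : 0 ≤ (6 * M ^ 2 + 6) + q2 (x - 0) / (2 * (T - t))
        + 2 * ∑ j, u t x j * (x j - (0 : V) j) - 6 := by
    linarith
  linarith [mul_nonneg h3 h5]

end

/-- Comparison, in terms of the operator. -/
theorem cmpL {T a b : ℝ} (ha : 0 < a) (hb : b < T) (hab : a ≤ b) (c : V) {ϱ : ℝ → ℝ}
    (hϱ : ContinuousOn ϱ (Icc a b)) {F : ℝ → V → ℝ} {B : ℝ → V → V} (hF : C12 T F)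
    (h0 : ∀ x, q2 (x - c) ≤ ϱ a → F a x ≤ 0)
    (hl : ∀ t ∈ Icc a b, ∀ x, q2 (x - c) = ϱ t → F t x ≤ 0)
    (he : ∀ t ∈ Icc a b, ∀ x, q2 (x - c) < ϱ t → LL B F t x ≤ 0) :
    ∀ t ∈ Icc a b, ∀ x, q2 (x - c) ≤ ϱ t → F t x ≤ 0 := by
  have hs : ∀ t ∈ Icc a b, t ∈ Ioo 0 T := fun t ht => ⟨ha.trans_le ht.1, ht.2.trans_lt hb⟩
  refine cmp (B := B) hab c hϱ (hF.ct.mono (prod_mono hs subset_rfl)) h0 hl
    (fun t ht => hF.sp t (hs t ⟨ht.1.le, ht.2⟩))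
    (fun t ht x _ => hF.tm t (hs t ⟨ht.1.le, ht.2⟩) x) ?_
  intro t ht x hx
  exact he t ⟨ht.1.le, ht.2⟩ x hx

lemma par (a b : V) : q2 a ≤ 2 * q2 b + 2 * q2 (a - b) := by
  unfold q2
  rw [Fin.sum_univ_three, Fin.sum_univ_three, Fin.sum_univ_three]
  simp only [Pi.sub_apply]
  nlinarith [sq_nonneg (a 0 - 2 * b 0), sq_nonneg (a 1 - 2 * b 1), sq_nonneg (a 2 - 2 * b 2)]

lemma q2_neg (x : V) : q2 (-x) = q2 x := by unfold q2; simp

lemma q2_zero : q2 (0 : V) = 0 := by simp [q2]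

section
variable {M M' c q T L m ε R : ℝ} {f : ℝ → ℝ} {u : ℝ → V → V} {p Φ : ℝ → V → ℝ}

/-- The common hypotheses. -/
structure Hy (M M' c q T L R : ℝ) (f : ℝ → ℝ) (u : ℝ → V → V) (p Φ : ℝ → V → ℝ) : Prop where
  tg : TG M T L u p
  T2 : 2 ≤ T
  q0 : 0 < q
  q1 : q ≤ 1 / 2
  c0 : 0 < c
  R0 : 0 < R
  RL : R < L
  cΦ : C12 T Φ
  Φb : ∀ t ∈ Icc (T - 1) (T - q ^ 2), ∀ x, q2 x ≤ R ^ 2 → |Φ t x| ≤ M'
  cf : Continuous f
  LLb : ∀ t ∈ Icc (T - 1) (T - q ^ 2), ∀ x, q2 x ≤ R ^ 2 →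
    LL u (fun t x => HH T u t x + Φ t x) t x ≤ f t - c * ((T - t) * ST 0 (u t) x)
  f0 : ∀ t ∈ Icc (T - 1) (T - q ^ 2), 0 ≤ f t

lemma q_sq (h0 : 0 < q) (h1 : q ≤ 1 / 2) : 0 < q ^ 2 ∧ q ^ 2 < q ∧ q ^ 2 ≤ 1 := by
  refine ⟨by positivity, by nlinarith, by nlinarith⟩

lemma Hy.sub (h : Hy M M' c q T L R f u p Φ) {t : ℝ} (ht : t ∈ Icc (T - 1) (T - q ^ 2)) :
    t ∈ Ioo 0 T := by
  have := q_sq h.q0 h.q1
  exact ⟨by linarith [ht.1, h.T2], by linarith [ht.2]⟩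

lemma Hy.ball (h : Hy M M' c q T L R f u p Φ) {x : V} (hx : q2 x ≤ R ^ 2) : x ∈ ball (0 : V) L :=
  mem_of_q2 h.R0.le hx h.RL

lemma Hy.cH (h : Hy M M' c q T L R f u p Φ) : C12 T (fun t x => HH T u t x + Φ t x) :=
  h.tg.jHH.c12.add h.cΦ

lemma Hy.cF (h : Hy M M' c q T L R f u p Φ) (m ε : ℝ) :
    C12 T (fun t x => (HH T u t x + Φ t x) - V0 T m ε (12 * M ^ 2 + 12) f t x) :=
  h.cH.sub (V0_c12 h.cf)

lemma Hy.LLF (h : Hy M M' c q T L R f u p Φ) (m : ℝ) {ε : ℝ} (hε : 0 ≤ ε) {t : ℝ}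
    (ht : t ∈ Icc (T - 1) (T - q ^ 2)) {x : V} (hx : q2 x ≤ R ^ 2) :
    LL u (fun t x => (HH T u t x + Φ t x) - V0 T m ε (12 * M ^ 2 + 12) f t x) t x
      ≤ - (c * ((T - t) * ST 0 (u t) x)) := by
  rw [LL_sub (u := u) h.cH (V0_c12 h.cf) (h.sub ht) x]
  have h1 := h.LLb t ht x hx
  have h2 := h.tg.LLV0 (m := m) h.cf (h.sub ht) (h.ball hx) hε
  linarith

lemma Hy.diss (h : Hy M M' c q T L R f u p Φ) {t : ℝ}
    (ht : t ∈ Icc (T - 1) (T - q ^ 2)) (x : V) : 0 ≤ c * ((T - t) * ST 0 (u t) x) :=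
  mul_nonneg h.c0.le (mul_nonneg (by linarith [(h.sub ht).2]) (ST_nonneg _ _ _))

/-- First comparison. -/
lemma step0 (h : Hy M M' c q T L R f u p Φ) (hε : 0 < ε)
    (hR : 3 * M ^ 2 + 3 * M + M' ≤ m + ε * R ^ 2)
    (hm : ∀ x, q2 x ≤ R ^ 2 → HH T u (T - 1) x + Φ (T - 1) x ≤ m + ε * q2 x) :
    ∀ t ∈ Icc (T - 1) (T - q ^ 2), ∀ x, q2 x ≤ R ^ 2 →
      (HH T u t x + Φ t x) - V0 T m ε (12 * M ^ 2 + 12) f t x ≤ 0 := by
  obtain ⟨k1, k2, k3⟩ := q_sq h.q0 h.q1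
  have key := cmpL (B := u) (T := T) (by linarith [h.T2]) (by linarith) (by linarith) (0 : V)
    (a := T - 1) (b := T - q ^ 2) (ϱ := fun _ => R ^ 2) continuousOn_const (h.cF m ε) ?_ ?_ ?_
  · intro t ht x hx
    exact key t ht x (by rw [sub_zero]; exact hx)
  · intro x hx
    rw [sub_zero] at hx
    have h1 := hm x hx
    have h2 : V0 T m ε (12 * M ^ 2 + 12) f (T - 1) x = m + ε * q2 x := by
      unfold V0
      simp
    rw [h2]
    linarith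
  · intro t ht x hx
    rw [sub_zero] at hx
    have h1 := h.tg.HH_le (h.sub ht) (h.ball hx.le)
    have h2 := (abs_le.1 (h.Φb t ht x hx.le)).2
    have h3 : m + ε * R ^ 2 ≤ V0 T m ε (12 * M ^ 2 + 12) f t x := by
      unfold V0
      rw [sub_zero, hx]
      have h4 : 0 ≤ ∫ s in (T - 1)..t, f s :=
        intervalIntegral.integral_nonneg ht.1 fun s hs => h.f0 s ⟨hs.1, hs.2.trans ht.2⟩
      have hs1 : √(T - t) ≤ 1 := by
        rw [Real.sqrt_le_one]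
        linarith [ht.1]
      have hs0 : 0 < √(T - t) := Real.sqrt_pos.2 (by linarith [(h.sub ht).2])
      have h5 : 0 ≤ ε * (12 * M ^ 2 + 12) * (1 - √(T - t)) := by
        apply mul_nonneg (by positivity)
        linarith
      have h6 : ε ≤ ε / √(T - t) := by
        rw [le_div_iff₀ hs0]
        calc ε * √(T - t) ≤ ε * 1 := by gcongr
          _ = ε := mul_one _
      have h7 : ε * R ^ 2 ≤ ε / √(T - t) * R ^ 2 := by gcongr
      linarith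
    linarith
  · intro t ht x hx
    rw [sub_zero] at hx
    have h1 := h.LLF m hε.le ht hx.le
    have h2 := h.diss ht x
    linarith

/-- Bound of the drift. -/
lemma Hy.wd (h : Hy M M' c q T L R f u p Φ) {t : ℝ} (ht : t ∈ Icc (T - 1) (T - q ^ 2)) {x x₁ : V}
    (hx : q2 x ≤ R ^ 2) {r : ℝ} (hr : 0 ≤ r) (hr2 : q2 (x - x₁) ≤ r ^ 2) :
    |∑ j, u t x j * (x j - x₁ j)| ≤ 3 * r * (M / q) := by
  have h1 := dot_le (u t x) (x - x₁)
  have h2 : ‖x - x₁‖ ≤ r := by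
    have := (norm_sq_le_q2 (x - x₁)).trans hr2
    exact (abs_le_of_sq_le_sq' this hr).2
  have h3 : ‖u t x‖ ≤ M / q := by
    have h1 := h.tg.th_u (h.sub ht) (h.ball hx)
    have h2 : q ≤ √(T - t) := by
      apply Real.le_sqrt_of_sq_le
      linarith [ht.2]
    rw [le_div_iff₀ h.q0]
    refine le_trans ?_ h1
    gcongr
  refine h1.trans ?_
  have h4 : 0 ≤ M / q := (norm_nonneg _).trans h3
  have : ‖u t x‖ * ‖x - x₁‖ ≤ M / q * r := by gcongr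
  linarith

/-- Second comparison: the source. -/
lemma step1 (h : Hy M M' c q T L R f u p Φ) (hM : 0 < M) (hε : 0 < ε)
    (h0 : ∀ t ∈ Icc (T - 1) (T - q ^ 2), ∀ x, q2 x ≤ R ^ 2 →
      (HH T u t x + Φ t x) - V0 T m ε (12 * M ^ 2 + 12) f t x ≤ 0)
    {A η z t₁ : ℝ} {x₁ : V} (hA : 0 < A) (hη : 0 < η) (hη1 : η ≤ 1) (hz : 0 < z)
    (hA1 : A * (13 + 12 * (M / q)) = c * q ^ 2 * z)
    (ht₁ : T - 1 ≤ t₁) (ht₂ : t₁ + η ≤ T - q ^ 2)
    (hin : ∀ x, q2 (x - x₁) ≤ η ^ 2 → q2 x ≤ R ^ 2)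
    (hsrc : ∀ t ∈ Icc t₁ (t₁ + η), ∀ x ∈ closedBall x₁ η, z ≤ ST 0 (u t) x) :
    ∀ t ∈ Icc t₁ (t₁ + η), ∀ x, q2 (x - x₁) ≤ η ^ 2 →
      ((HH T u t x + Φ t x) - V0 T m ε (12 * M ^ 2 + 12) f t x)
        + A * (t - t₁) * (η ^ 2 - q2 (x - x₁)) ^ 2 ≤ 0 := by
  obtain ⟨k1, k2, k3⟩ := q_sq h.q0 h.q1
  have hsub : ∀ t ∈ Icc t₁ (t₁ + η), t ∈ Icc (T - 1) (T - q ^ 2) := fun t ht =>
    ⟨ht₁.trans ht.1, ht.2.trans ht₂⟩
  have dα1 : ∀ t, HasDerivAt (fun t => A * (t - t₁)) A t := fun t => by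
    simpa using ((hasDerivAt_id t).sub_const t₁).const_mul A
  have cβ1 : C12 T (fun t y => A * (t - t₁) * (η ^ 2 - q2 (y - x₁)) ^ 2) :=
    c12_bar (T := T) x₁ (α := fun t => A * (t - t₁)) (ϱ := fun _ => η ^ 2)
      (fun t => (dα1 t).differentiableAt) (differentiable_const _)
  refine cmpL (B := u) (T := T) (by linarith [h.T2]) (by linarith) (by linarith) x₁
    (ϱ := fun _ => η ^ 2) continuousOn_const ((h.cF m ε).add cβ1) ?_ ?_ ?_
  · intro x hx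
    have h1 := h0 t₁ (hsub t₁ ⟨le_rfl, by linarith⟩) x (hin x hx)
    rw [sub_self, mul_zero, zero_mul, add_zero]
    exact h1
  · intro t ht x hx
    have h1 := h0 t (hsub t ht) x (hin x hx.le)
    have e : η ^ 2 - q2 (x - x₁) = 0 := by rw [hx]; ring
    rw [e]
    linarith
  · intro t ht x hx
    have hxR := hin x hx.le
    rw [LL_add (u := u) (h.cF m ε) cβ1 (h.sub (hsub t ht)) x]
    have h1 := h.LLF m hε.le (hsub t ht) hxR
    have h5 : LL u (fun t y => A * (t - t₁) * (η ^ 2 - q2 (y - x₁)) ^ 2) t x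
        ≤ A * (13 + 12 * (M / q)) := by
      rw [LL_bar (u := u) (x := x) x₁ (dα1 t) (hasDerivAt_const t (η ^ 2))]
      obtain ⟨g, hg⟩ : ∃ g, g = η ^ 2 - q2 (x - x₁) := ⟨_, rfl⟩
      have e : q2 (x - x₁) = η ^ 2 - g := by rw [hg]; ring
      rw [← hg, e]
      have hg0 : 0 ≤ g := by rw [hg]; linarith
      have hg1 : g ≤ η ^ 2 := by rw [hg]; linarith [q2_nonneg (x - x₁)]
      exact stage1 (div_nonneg hM.le h.q0.le) hη hη1 hA.le (s := t - t₁) (by linarith [ht.1])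
        (by linarith [ht.2]) hg0 hg1 (h.wd (hsub t ht) hxR hη.le hx.le) (by linarith)
    have h6 : c * q ^ 2 * z ≤ c * ((T - t) * ST 0 (u t) x) := by
      have h7 := hsrc t ht x (by
        rw [mem_closedBall, dist_eq_norm]
        have := (norm_sq_le_q2 (x - x₁)).trans hx.le
        exact (abs_le_of_sq_le_sq' this hη.le).2)
      have h8 : q ^ 2 ≤ T - t := by linarith [(hsub t ht).2]
      rw [mul_assoc]
      have h9 := h.c0
      have h10 : q ^ 2 * z ≤ (T - t) * ST 0 (u t) x :=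
        mul_le_mul h8 h7 hz.le (k1.le.trans h8)
      exact mul_le_mul_of_nonneg_left h10 h9.le
    linarith

/-- Third comparison: spreading. -/
lemma step2 (h : Hy M M' c q T L R f u p Φ) (hε : 0 < ε)
    (h0 : ∀ t ∈ Icc (T - 1) (T - q ^ 2), ∀ x, q2 x ≤ R ^ 2 →
      (HH T u t x + Φ t x) - V0 T m ε (12 * M ^ 2 + 12) f t x ≤ 0)
    {A η Λ C W σ t₂ b : ℝ} {x₁ : V} (hA : 0 < A) (hη : 0 < η) (hηW : η ^ 2 ≤ W) (hC : 0 ≤ C)
    (hΛ0 : 0 ≤ Λ) (hΛ : C ^ 2 ≤ 32 * Λ * η ^ 2) (hσ0 : 0 ≤ σ)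
    (hCσ : 2 * σ + 12 * (M / q) * √W + 20 ≤ C)
    (ht₂ : T - 1 ≤ t₂) (ht₂b : t₂ ≤ b) (hb : b ≤ T - q ^ 2) (hσ : σ * (b - t₂) = W - η ^ 2)
    (hin : ∀ x, q2 (x - x₁) ≤ W → q2 x ≤ R ^ 2)
    (hini : ∀ x, q2 (x - x₁) ≤ η ^ 2 →
      ((HH T u t₂ x + Φ t₂ x) - V0 T m ε (12 * M ^ 2 + 12) f t₂ x)
        + A * (η ^ 2 - q2 (x - x₁)) ^ 2 ≤ 0) :
    ∀ x, q2 (x - x₁) ≤ W →
      ((HH T u b x + Φ b x) - V0 T m ε (12 * M ^ 2 + 12) f b x)
        + A * Real.exp (-Λ * (b - t₂)) * (W - q2 (x - x₁)) ^ 2 ≤ 0 := by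
  obtain ⟨k1, k2, k3⟩ := q_sq h.q0 h.q1
  have hsub : ∀ t ∈ Icc t₂ b, t ∈ Icc (T - 1) (T - q ^ 2) := fun t ht =>
    ⟨ht₂.trans ht.1, ht.2.trans hb⟩
  have dϱ : ∀ t, HasDerivAt (fun t => η ^ 2 + σ * (t - t₂)) σ t := fun t => by
    simpa using (((hasDerivAt_id t).sub_const t₂).const_mul σ).const_add (η ^ 2)
  have dα2 : ∀ t, HasDerivAt (fun t => A * Real.exp (-Λ * (t - t₂)))
      (-Λ * (A * Real.exp (-Λ * (t - t₂)))) t := fun t => by
    have h1 : HasDerivAt (fun t => -Λ * (t - t₂)) (-Λ) t := by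
      simpa using ((hasDerivAt_id t).sub_const t₂).const_mul (-Λ)
    refine (h1.exp.const_mul A).congr_deriv ?_
    ring
  have cβ2 : C12 T (fun t y => A * Real.exp (-Λ * (t - t₂))
      * (η ^ 2 + σ * (t - t₂) - q2 (y - x₁)) ^ 2) :=
    c12_bar (T := T) x₁ (α := fun t => A * Real.exp (-Λ * (t - t₂)))
      (ϱ := fun t => η ^ 2 + σ * (t - t₂))
      (fun t => (dα2 t).differentiableAt) (fun t => (dϱ t).differentiableAt)
  have hϱW : ∀ t ∈ Icc t₂ b, η ^ 2 + σ * (t - t₂) ≤ W := by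
    intro t ht
    have : σ * (t - t₂) ≤ σ * (b - t₂) := by
      apply mul_le_mul_of_nonneg_left _ hσ0
      linarith [ht.2]
    linarith
  have hϱη : ∀ t ∈ Icc t₂ b, η ^ 2 ≤ η ^ 2 + σ * (t - t₂) := by
    intro t ht
    have : 0 ≤ σ * (t - t₂) := mul_nonneg hσ0 (by linarith [ht.1])
    linarith
  have key := cmpL (B := u) (T := T) (a := t₂) (b := b) (by linarith [h.T2]) (by linarith) ht₂b x₁
    (ϱ := fun t => η ^ 2 + σ * (t - t₂)) (by fun_prop) ((h.cF m ε).add cβ2) ?_ ?_ ?_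
  · intro x hx
    have h1 := key b ⟨ht₂b, le_rfl⟩ x (by rw [hσ]; linarith)
    rw [hσ] at h1
    have e : η ^ 2 + (W - η ^ 2) = W := by ring
    rw [e] at h1
    exact h1
  · intro x hx
    rw [sub_self, mul_zero, add_zero] at hx
    rw [sub_self, mul_zero, mul_zero, Real.exp_zero, mul_one, add_zero]
    exact hini x hx
  · intro t ht x hx
    have h1 := h0 t (hsub t ht) x (hin x (hx.le.trans (hϱW t ht)))
    have e : η ^ 2 + σ * (t - t₂) - q2 (x - x₁) = 0 := by rw [hx]; ring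
    rw [e]
    linarith
  · intro t ht x hx
    have hxR := hin x (hx.le.trans (hϱW t ht))
    rw [LL_add (u := u) (h.cF m ε) cβ2 (h.sub (hsub t ht)) x]
    have h1 := h.LLF m hε.le (hsub t ht) hxR
    have h2 := h.diss (hsub t ht) x
    have h5 : LL u (fun t y => A * Real.exp (-Λ * (t - t₂))
        * (η ^ 2 + σ * (t - t₂) - q2 (y - x₁)) ^ 2) t x ≤ 0 := by
      rw [LL_bar (u := u) (x := x) x₁ (dα2 t) (dϱ t)]
      obtain ⟨g, hg⟩ : ∃ g, g = η ^ 2 + σ * (t - t₂) - q2 (x - x₁) := ⟨_, rfl⟩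
      obtain ⟨S, hS⟩ : ∃ S, S = ∑ j, u t x j * (x j - x₁ j) := ⟨_, rfl⟩
      obtain ⟨E, hE⟩ : ∃ E, E = A * Real.exp (-Λ * (t - t₂)) := ⟨_, rfl⟩
      have hE0 : 0 ≤ E := by rw [hE]; positivity
      have e : q2 (x - x₁) = η ^ 2 + σ * (t - t₂) - g := by rw [hg]; ring
      have hsW : q2 (x - x₁) ≤ √W ^ 2 := by
        rw [Real.sq_sqrt ((sq_nonneg η).trans hηW)]
        exact hx.le.trans (hϱW t ht)
      have hw := abs_le.1 (h.wd (hsub t ht) hxR (Real.sqrt_nonneg _) hsW)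
      rw [← hg, ← hS, ← hE, e]
      rw [← hS] at hw
      have hg0 : 0 ≤ g := by rw [hg]; linarith
      have hg1 : g ≤ η ^ 2 + σ * (t - t₂) := by rw [hg]; linarith [q2_nonneg (x - x₁)]
      have h6 := stage2 (C := C) (Λ := Λ) (η := η) (g := g) (ϱ := η ^ 2 + σ * (t - t₂))
        (w := 2 * σ - 4 * S + 20) hη hΛ hg0 (hϱη t ht) (by
          have := hw.1
          linarith) hg1 hC hΛ0
      have e2 : -Λ * E * g ^ 2 + E * (2 * g * (σ - 2 * S)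
            - 8 * (η ^ 2 + σ * (t - t₂) - g) + 12 * g)
          = E * (-Λ * g ^ 2 + (g * (2 * σ - 4 * S + 20) - 8 * (η ^ 2 + σ * (t - t₂)))) := by
        ring
      rw [e2]
      exact mul_nonpos_of_nonneg_of_nonpos hE0 h6
    linarith

end

/-- The constants. -/
lemma consts {M M' c q K η z : ℝ} (hM : 0 < M) (hM' : 0 ≤ M') (hc : 0 < c) (hq : 0 < q)
    (hq1 : q ≤ 1 / 2) (hK : 1 ≤ K) (hη : 0 < η) (hη1 : η ≤ (q - q ^ 2) / 2) (hz : 0 < z) :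
    ∃ ε R W C Λ A β : ℝ, 0 < ε ∧ 1 ≤ R ∧ 2 * (ε * (12 * M ^ 2 + 12)) = β ∧
      W = 16 * (12 * M ^ 2 + 12) + 12 * K ^ 2 ∧ 1 ≤ W ∧
      C = 2 * (W / ((q - q ^ 2) / 2)) + 12 * (M / q) * √W + 20 ∧ 0 ≤ C ∧ 0 ≤ Λ ∧
      C ^ 2 ≤ 32 * Λ * η ^ 2 ∧ 0 < A ∧ A * (13 + 12 * (M / q)) = c * q ^ 2 * z ∧
      β = A * η * Real.exp (-Λ) * (W / 2) ^ 2 ∧ 0 < β ∧
      3 * M ^ 2 + 3 * M + 2 * M' ≤ ε * R ^ 2 ∧ 2 * W + 6 * K ^ 2 ≤ R ^ 2 := by
  obtain ⟨C3, hC3⟩ : ∃ C3, C3 = 12 * M ^ 2 + 12 := ⟨_, rfl⟩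
  have hC30 : 0 < C3 := by rw [hC3]; positivity
  obtain ⟨W, hW⟩ : ∃ W, W = 16 * C3 + 12 * K ^ 2 := ⟨_, rfl⟩
  have hK2 : 1 ≤ K ^ 2 := by nlinarith
  have hW1 : 1 ≤ W := by rw [hW]; linarith
  have hh0 : 0 < (q - q ^ 2) / 2 := by nlinarith
  obtain ⟨C, hC⟩ : ∃ C, C = 2 * (W / ((q - q ^ 2) / 2)) + 12 * (M / q) * √W + 20 := ⟨_, rfl⟩
  have hC0 : 0 ≤ C := by rw [hC]; positivity
  obtain ⟨Λ, hΛ⟩ : ∃ Λ, Λ = C ^ 2 / (32 * η ^ 2) := ⟨_, rfl⟩
  have hΛ0 : 0 ≤ Λ := by rw [hΛ]; positivity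
  have hΛ1 : C ^ 2 ≤ 32 * Λ * η ^ 2 := by rw [hΛ]; apply le_of_eq; field_simp
  have hB0 : 0 < M / q := by positivity
  obtain ⟨A, hA⟩ : ∃ A, A = c * q ^ 2 * z / (13 + 12 * (M / q)) := ⟨_, rfl⟩
  have hA0 : 0 < A := by rw [hA]; positivity
  have hA1 : A * (13 + 12 * (M / q)) = c * q ^ 2 * z := by
    rw [hA]
    exact div_mul_cancel₀ _ (by positivity)
  obtain ⟨β, hβ⟩ : ∃ β, β = A * η * Real.exp (-Λ) * (W / 2) ^ 2 := ⟨_, rfl⟩
  have hβ0 : 0 < β := by rw [hβ]; positivity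
  obtain ⟨ε, hε⟩ : ∃ ε, ε = β / (2 * C3) := ⟨_, rfl⟩
  have hε0 : 0 < ε := by rw [hε]; positivity
  have hε1 : 2 * (ε * C3) = β := by rw [hε]; field_simp
  obtain ⟨R, hR⟩ : ∃ R, R = 1 + (3 * M ^ 2 + 3 * M + 2 * M') / ε + 2 * W + 6 * K ^ 2 := ⟨_, rfl⟩
  have hq3 : 0 ≤ (3 * M ^ 2 + 3 * M + 2 * M') / ε := by positivity
  have hR1 : 1 ≤ R := by rw [hR]; linarith
  have hR2 : R ≤ R ^ 2 := by
    rw [pow_two]
    exact le_mul_of_one_le_left (by linarith) hR1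
  refine ⟨ε, R, W, C, Λ, A, β, hε0, hR1, by rw [← hC3]; exact hε1, by rw [← hC3]; exact hW, hW1,
    hC, hC0, hΛ0, hΛ1, hA0, hA1, hβ, hβ0, ?_, ?_⟩
  · have : (3 * M ^ 2 + 3 * M + 2 * M') / ε ≤ R ^ 2 := by
      refine le_trans ?_ hR2
      rw [hR]
      linarith
    rw [div_le_iff₀ hε0] at this
    linarith
  · refine le_trans ?_ hR2
    rw [hR]
    linarith

end Pool.Agent.V1183.PM
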