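import Pool.Agent.V1183.PM.Blk2

/-!
Monotone pressure (helper83): the decrease over one block of scales, assembly.
-/

set_option autoImplicit false

open MeasureTheory Set Metric Filter Topology
open scoped ContDiff

namespace Pool.Agent.V1183.PM

open H459R3.NS W221.NS Pool.Agent.TH305.DR

lemma end_near {ε C3 β q X Y H F m δ I : ℝ} (hε : 0 ≤ ε) (hβ : 2 * (ε * C3) = β) (hδ : δ = ε * C3)
    (hXY : X ≤ Y) (hV : F ≤ m + ε * C3 + I + ε * X) (hH : H - F + q ≤ 0) (hq : β ≤ q) :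
    H ≤ m - δ + I + ε * Y := by
  have : ε * X ≤ ε * Y := by gcongr
  linarith

lemma end_far {ε C3 X Y H F m δ I : ℝ} (hε : 0 ≤ ε) (hδ : δ = ε * C3)
    (hXY : 2 * C3 ≤ Y - X) (hV : F ≤ m + ε * C3 + I + ε * X) (hH : H - F ≤ 0) :
    H ≤ m - δ + I + ε * Y := by
  have : ε * (2 * C3) ≤ ε * (Y - X) := by gcongr
  linarith

theorem block {M M' c q K η z : ℝ} (hM : 0 < M) (hM' : 0 ≤ M') (hc : 0 < c) (hq : 0 < q)
    (hq1 : q ≤ 1 / 2) (hK : 1 ≤ K) (hη : 0 < η) (hη1 : η ≤ (q - q ^ 2) / 2) (hz : 0 < z) :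
    ∃ ε₁ δ R : ℝ, 0 < ε₁ ∧ 0 < δ ∧ 1 ≤ R ∧ ∀ (T L : ℝ) (u : ℝ → V → V) (p Φ : ℝ → V → ℝ)
      (f : ℝ → ℝ), Hy M M' c q T L R f u p Φ →
      (∃ t₁ ∈ Icc (T - 1) (T - q), ∃ x₁ : V, ‖x₁‖ ≤ K ∧
        ∀ t ∈ Icc t₁ (t₁ + η), ∀ x ∈ closedBall x₁ η, z ≤ ST 0 (u t) x) →
      ∀ m, (∀ x, q2 x ≤ R ^ 2 → HH T u (T - 1) x + Φ (T - 1) x ≤ m + ε₁ * q2 x) →
        ∀ x, q2 x ≤ R ^ 2 * q ^ 2 → HH T u (T - q ^ 2) x + Φ (T - q ^ 2) x
          ≤ m - δ + (∫ t in (T - 1)..(T - q ^ 2), f t) + ε₁ * (q2 x / q ^ 2) := by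
  obtain ⟨ε, R, W, C, Λ, A, β, hε0, hR1, hε1, hW, hW1, hC, hC0, hΛ0, hΛ1, hA0, hA1, hβ, hβ0,
    hRε, hRW⟩ := consts hM hM' hc hq hq1 hK hη hη1 hz
  obtain ⟨k1, k2, k3⟩ := q_sq hq hq1
  obtain ⟨C3, hC3⟩ : ∃ C3, C3 = 12 * M ^ 2 + 12 := ⟨_, rfl⟩
  have hC30 : 0 < C3 := by rw [hC3]; positivity
  have hη2 : η ≤ 1 := by linarith
  have hηsq : η ^ 2 ≤ 1 := by
    rw [sq_le_one_iff₀ hη.le]
    exact hη2
  have hηW : η ^ 2 ≤ W := hηsq.trans hW1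
  have hh0 : 0 < (q - q ^ 2) / 2 := by linarith
  refine ⟨ε, ε * C3, R, hε0, by positivity, hR1, ?_⟩
  intro T L u p Φ f h hsrc m hm x hx
  have hab : T - 1 ≤ T - q ^ 2 := by linarith
  have hR0 : (0 : ℝ) ≤ R ^ 2 := sq_nonneg R
  -- the value at the centre
  have hm0 : -M' ≤ m := by
    have h1 := hm 0 (by rw [q2_zero]; exact hR0)
    have h2 := h.Φb (T - 1) ⟨le_rfl, hab⟩ 0 (by rw [q2_zero]; exact hR0)
    have h3 : 0 ≤ HH T u (T - 1) 0 := TG.HH_zero (by linarith)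
    rw [q2_zero] at h1
    have := abs_le.1 h2
    linarith
  have s0 := step0 h hε0 (m := m) (by linarith) hm
  obtain ⟨t₁, ht₁, x₁, hx₁, hsrc⟩ := hsrc
  have hq2x₁ : q2 x₁ ≤ 3 * K ^ 2 := (q2_le_norm x₁).trans (by gcongr)
  have hin : ∀ x, q2 (x - x₁) ≤ W → q2 x ≤ R ^ 2 := by
    intro x hx
    have h1 := par x x₁
    linarith
  have ht₂ : t₁ + η + (q - q ^ 2) / 2 ≤ T - q ^ 2 := by linarith [ht₁.2]
  have s1 := step1 h hM hε0 s0 hA0 hη hη2 hz hA1 ht₁.1 (by linarith) 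
    (fun x hx => hin x (hx.trans hηW)) hsrc
  obtain ⟨t₂, ht₂'⟩ : ∃ t₂, t₂ = t₁ + η := ⟨_, rfl⟩
  have hbt : (q - q ^ 2) / 2 ≤ T - q ^ 2 - t₂ := by linarith
  have hbt0 : 0 < T - q ^ 2 - t₂ := by linarith
  obtain ⟨σ, hσ⟩ : ∃ σ, σ = (W - η ^ 2) / (T - q ^ 2 - t₂) := ⟨_, rfl⟩
  have hσ0 : 0 ≤ σ := by rw [hσ]; exact div_nonneg (by linarith) hbt0.le
  have hσ1 : σ ≤ W / ((q - q ^ 2) / 2) := by
    rw [hσ]
    exact div_le_div₀ (by linarith) (by linarith [sq_nonneg η]) hh0 hbt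
  have hσ2 : σ * (T - q ^ 2 - t₂) = W - η ^ 2 := by
    rw [hσ]
    exact div_mul_cancel₀ _ hbt0.ne'
  have s2 := step2 h hε0 s0 (A := A * η) (x₁ := x₁) (b := T - q ^ 2) (by positivity) hη hηW hC0 hΛ0
    hΛ1 hσ0 (by rw [hC]; linarith) (t₂ := t₂) (by linarith [ht₁.1]) (by linarith) le_rfl hσ2 hin
    (by
      intro y hy
      have h1 := s1 (t₁ + η) ⟨by linarith, le_rfl⟩ y hy
      have e : t₁ + η - t₁ = η := by ring
      rw [e] at h1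
      rw [ht₂']
      exact h1)
  have hqR : R ^ 2 * q ^ 2 ≤ R ^ 2 := mul_le_of_le_one_right hR0 k3
  have hx' : q2 x ≤ R ^ 2 := hx.trans hqR
  have hV : V0 T m ε (12 * M ^ 2 + 12) f (T - q ^ 2) x
      ≤ m + ε * C3 + (∫ t in (T - 1)..(T - q ^ 2), f t) + ε * (q2 x / q) := by
    unfold V0
    have e1 : T - (T - q ^ 2) = q ^ 2 := by ring
    rw [e1, Real.sqrt_sq hq.le, sub_zero, ← hC3]
    have h1 : ε * C3 * (1 - q) ≤ ε * C3 := by
      have : 0 ≤ ε * C3 * q := by positivity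
      linarith
    have h2 : ε / q * q2 x = ε * (q2 x / q) := by ring
    rw [h2]
    linarith
  have hqx : q2 x / q ≤ q2 x / q ^ 2 := div_le_div_of_nonneg_left (q2_nonneg x) k1 k2.le
  rw [← hC3] at hε1 hW
  rcases le_or_gt (q2 x) (4 * C3 * q ^ 2) with hcase | hcase
  · -- near the centre
    have h1 : q2 (x - x₁) ≤ W / 2 := by
      have h2 := par (x - x₁) x
      have e2 : x - x₁ - x = -x₁ := by abel
      rw [e2, q2_neg] at h2
      have h3 : 4 * C3 * q ^ 2 ≤ 4 * C3 := by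
        apply mul_le_of_le_one_right (by positivity) k3
      linarith
    have h2 := s2 x (by linarith)
    have h3 : β ≤ A * η * Real.exp (-Λ * (T - q ^ 2 - t₂)) * (W - q2 (x - x₁)) ^ 2 := by
      rw [hβ]
      have h4 : Real.exp (-Λ) ≤ Real.exp (-Λ * (T - q ^ 2 - t₂)) := by
        apply Real.exp_le_exp.2
        have h5 : T - q ^ 2 - t₂ ≤ 1 := by linarith [ht₁.1]
        have h6 := mul_le_mul_of_nonneg_left h5 hΛ0
        linarith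
      have h5 : W / 2 ≤ W - q2 (x - x₁) := by linarith
      gcongr
    exact end_near hε0.le hε1 rfl hqx hV h2 h3
  · -- far from the centre
    have h1 := s0 (T - q ^ 2) ⟨hab, le_rfl⟩ x hx'
    have h2 : 2 * C3 ≤ q2 x / q ^ 2 - q2 x / q := by
      have e1 : q2 x / q ^ 2 - q2 x / q = (q2 x / q ^ 2) * (1 - q) := by
        field_simp
      have h3 : 4 * C3 ≤ q2 x / q ^ 2 := by
        rw [le_div_iff₀ k1]
        exact hcase.le
      rw [e1]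
      have h4 : 4 * C3 * (1 / 2) ≤ q2 x / q ^ 2 * (1 - q) := by
        apply mul_le_mul h3 (by linarith) (by norm_num) (by linarith)
      linarith
    exact end_far hε0.le rfl h2 hV h1

end Pool.Agent.V1183.PM
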