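import Pool.Agent.V1183.PM.Blk

/-!
Monotone pressure (helper83): the local energy identity.
-/

set_option autoImplicit false

open MeasureTheory Set Metric Filter Topology
open scoped ContDiff

namespace Pool.Agent.V1183.PM

open H459R3.NS W221.NS Pool.Agent.TH305.DR
open Pool.Agent.W583.MD (sm_pd cs_pd pd_mul' Z Z.add Z.sub Z.smul Z.sum int_cs Z_pd Z_main)

section
variable {T R : ℝ} {F : ℝ → V → ℝ} {t : ℝ}

lemma J.cont_dt (hF : J T F) : ContinuousOn (fun z : ℝ × V =>
      fderiv ℝ (fun z : ℝ × V => F z.1 z.2) z (1, 0)) (Ioo 0 T ×ˢ univ) :=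
  Pool.Agent.W583.MD.cont_dt hF

lemma csR (f : V → ℝ) (h : ∀ z ∉ closedBall (0 : V) R, f z = 0) : HasCompactSupport f :=
  HasCompactSupport.of_support_subset_isCompact (isCompact_closedBall (0 : V) R) fun z hz => by
    by_contra hcon
    exact hz (h z hcon)

lemma hd_intR (hF : J T F)
    (hs : ∀ t ∈ Ioo 0 T, ∀ z ∉ closedBall (0 : V) R, F t z = 0) (ht : t ∈ Ioo 0 T) :
    HasDerivAt (fun s => ∫ x, F s x) (∫ x, deriv (fun s => F s x) t) t := by
  obtain ⟨a, ha1, ha2⟩ := exists_between ht.1
  obtain ⟨b, hb1, hb2⟩ := exists_between ht.2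
  have hK : IsCompact (Icc a b ×ˢ closedBall (0 : V) R) :=
    isCompact_Icc.prod (isCompact_closedBall 0 R)
  have hsub' : ∀ s ∈ Icc a b, s ∈ Ioo 0 T := fun s hs => ⟨ha1.trans_le hs.1, hs.2.trans_lt hb2⟩
  have hsub : Icc a b ×ˢ closedBall (0 : V) R ⊆ Ioo 0 T ×ˢ (univ : Set V) :=
    prod_mono hsub' (subset_univ _)
  obtain ⟨C, hC⟩ := hK.exists_bound_of_continuousOn (hF.cont_dt.mono hsub)
  have hnh : Icc a b ∈ 𝓝 t := Icc_mem_nhds ha2 hb1
  have hdz : ∀ s ∈ Ioo 0 T, ∀ z ∉ closedBall (0 : V) R, deriv (fun s => F s z) s = 0 := by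
    intro s hs' z hz
    have h1 : (fun s => F s z) =ᶠ[𝓝 s] fun _ => 0 := by
      filter_upwards [Ioo_mem_nhds hs'.1 hs'.2] with s' hs''
      exact hs s' hs'' z hz
    rw [h1.deriv_eq]
    exact deriv_const s 0
  have key := (hasDerivAt_integral_of_dominated_loc_of_deriv_le (s := Icc a b)
    (F := fun s x => F s x) (F' := fun s x => deriv (fun s => F s x) s)
    (bound := (closedBall (0 : V) R).indicator fun _ => C) (μ := volume) hnh ?_ ?_ ?_ ?_ ?_ ?_).2
  · exact key
  · filter_upwards [Ioo_mem_nhds ht.1 ht.2] with s hs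
    exact (hF.slice hs).continuous.aestronglyMeasurable
  · exact int_cs (hF.slice ht).continuous (csR _ (hs t ht))
  · exact (Pool.Agent.W583.MD.cont_dt_slice hF ht).aestronglyMeasurable
  · refine Filter.Eventually.of_forall fun x s hs' => ?_
    by_cases hx : x ∈ closedBall (0 : V) R
    · rw [indicator_of_mem hx, (hF.hd_t (hsub' s hs') x).deriv]
      exact hC (s, x) ⟨hs', hx⟩
    · rw [indicator_of_notMem hx]
      change ‖deriv (fun s => F s x) s‖ ≤ 0
      rw [hdz s (hsub' s hs') x hx, norm_zero]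
  · exact (integrable_indicator_iff measurableSet_closedBall).2
      (integrableOn_const (measure_closedBall_lt_top.ne))
  · refine Filter.Eventually.of_forall fun x s hs' => ?_
    exact (hF.dfT (hsub' s hs') x).hasDerivAt

end

/-- The identity at a point. -/
theorem point2 {w : Fin 3 → V → ℝ} {π φ : V → ℝ} (hw : ∀ i, ContDiff ℝ ∞ (w i))
    (hπ : ContDiff ℝ ∞ π) (hφ : ContDiff ℝ ∞ φ) (x : V)
    (hdiv : φ x * ∑ i, pd i (w i) x = 0) :
    ∑ j, ((∑ i, (2 * pd j (fun y => w i y * pd j (w i) y * φ y) x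
      - pd j (fun y => w i y * w i y * pd j φ y) x
      - pd j (fun y => w j y * (w i y * w i y) * φ y) x))
      - 2 * pd j (fun y => π y * w j y * φ y) x) =
    (∑ i, 2 * w i x * (∑ j, pd j (pd j (w i)) x - pd i π x - ∑ j, w j x * pd j (w i) x)) * φ x
      - (-2 * ((∑ i, ∑ j, pd j (w i) x ^ 2) * φ x) + (∑ i, w i x ^ 2) * (∑ j, pd j (pd j φ) x)
        + ((∑ i, w i x ^ 2) + 2 * π x) * ∑ j, w j x * pd j φ x) := by
  have e1 : ∀ i j, pd j (fun y => w i y * pd j (w i) y * φ y) x =
      w i x * pd j (w i) x * pd j φ x + (w i x * pd j (pd j (w i)) x + pd j (w i) x * pd j (w i) x)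
        * φ x := by
    intro i j
    rw [pd_mul' ((hw i).mul (sm_pd (hw i) j)) hφ, pd_mul' (hw i) (sm_pd (hw i) j)]
  have e2 : ∀ i j, pd j (fun y => w i y * w i y * pd j φ y) x =
      w i x * w i x * pd j (pd j φ) x + (w i x * pd j (w i) x + pd j (w i) x * w i x)
        * pd j φ x := by
    intro i j
    rw [pd_mul' ((hw i).mul (hw i)) (sm_pd hφ j), pd_mul' (hw i) (hw i)]
  have e3 : ∀ i j, pd j (fun y => w j y * (w i y * w i y) * φ y) x =
      w j x * (w i x * w i x) * pd j φ x + (w j x * (w i x * pd j (w i) x + pd j (w i) x * w i x)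
        + pd j (w j) x * (w i x * w i x)) * φ x := by
    intro i j
    rw [pd_mul' ((hw j).mul ((hw i).mul (hw i))) hφ, pd_mul' (hw j) ((hw i).mul (hw i)),
      pd_mul' (hw i) (hw i)]
  have e4 : ∀ j, pd j (fun y => π y * w j y * φ y) x =
      π x * w j x * pd j φ x + (π x * pd j (w j) x + pd j π x * w j x) * φ x := by
    intro j
    rw [pd_mul' (hπ.mul (hw j)) hφ, pd_mul' hπ (hw j)]
  simp only [e1, e2, e3, e4]
  simp only [Fin.sum_univ_three] at hdiv ⊢
  linear_combination (-(w 0 x ^ 2 + w 1 x ^ 2 + w 2 x ^ 2) - 2 * π x) * hdiv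

lemma lap_cont {φ : V → ℝ} (hφ : ContDiff ℝ ∞ φ) : Continuous (lap φ) := by
  unfold lap
  exact continuous_finsetSum _ fun j _ => (sm_pd (sm_pd hφ j) j).continuous

lemma lap_cs {φ : V → ℝ} (hc : HasCompactSupport φ) : HasCompactSupport (lap φ) := by
  have h0 := cs_pd (cs_pd hc 0) 0
  have h1 := cs_pd (cs_pd hc 1) 1
  have h2 := cs_pd (cs_pd hc 2) 2
  have e : lap φ = pd 0 (pd 0 φ) + pd 1 (pd 1 φ) + pd 2 (pd 2 φ) := by
    funext x
    unfold lap
    rw [Fin.sum_univ_three]
    rfl
  rw [e]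
  exact (h0.add h1).add h2

lemma adv_cs {φ : V → ℝ} (hc : HasCompactSupport φ) (v : V → V) : HasCompactSupport (adv v φ) := by
  have h0 := (cs_pd hc 0).mul_left (f := fun x => v x 0)
  have h1 := (cs_pd hc 1).mul_left (f := fun x => v x 1)
  have h2 := (cs_pd hc 2).mul_left (f := fun x => v x 2)
  have e : adv v φ = (fun x => v x 0) * pd 0 φ + (fun x => v x 1) * pd 1 φ +
      (fun x => v x 2) * pd 2 φ := by
    funext x
    unfold adv
    rw [Fin.sum_univ_three]
    rfl
  rw [e]
  exact (h0.add h1).add h2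

section
variable {M T L : ℝ} {u : ℝ → V → V} {p : ℝ → V → ℝ} {t : ℝ} {φ : V → ℝ}

lemma nsq_cont {v : V → V} (hv : ∀ i, ContDiff ℝ ∞ (fun y => v y i)) : Continuous (nsq v) := by
  unfold nsq
  exact continuous_finsetSum _ fun i _ => (hv i).continuous.pow 2

lemma gsq_cont {v : V → V} (hv : ∀ i, ContDiff ℝ ∞ (fun y => v y i)) : Continuous (gsq v) := by
  unfold gsq
  exact continuous_finsetSum _ fun i _ => continuous_finsetSum _ fun j _ =>
    (sm_pd (hv i) j).continuous.pow 2

lemma adv_cont {v : V → V} (hv : ∀ i, ContDiff ℝ ∞ (fun y => v y i)) (hφ : ContDiff ℝ ∞ φ) :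
    Continuous (adv v φ) := by
  unfold adv
  exact continuous_finsetSum _ fun j _ => (hv j).continuous.mul (sm_pd hφ j).continuous

/-- The local energy identity. -/
theorem TG.en (h : TG M T L u p) (hφ : ContDiff ℝ ∞ φ) (hs : ∀ z, φ z ≠ 0 → z ∈ ball (0 : V) L)
    (ht : t ∈ Ioo 0 T) :
    HasDerivAt (fun s => ∫ z, nsq (u s) z * φ z)
      (-2 * (∫ z, gsq (u t) z * φ z) + (∫ z, nsq (u t) z * lap φ z)
        + ∫ z, (nsq (u t) z + 2 * p t z) * adv (u t) φ z) t := by
  have hv := h.sl ht
  have hp : ContDiff ℝ ∞ (p t) := h.jp.slice ht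
  have hs0 : ∀ z ∉ closedBall (0 : V) L, φ z = 0 := by
    intro z hz
    by_contra hcon
    exact hz (ball_subset_closedBall (hs z hcon))
  have hc : HasCompactSupport φ := csR φ hs0
  have hF : J T (fun s z => nsq (u s) z * φ z) := by
    unfold nsq
    exact ContDiffOn.mul (ContDiffOn.sum fun i _ => ContDiffOn.pow (h.ju i) 2) (J.space hφ)
  have h1 := hd_intR (R := L) hF (fun s hs' z hz => by rw [hs0 z hz, mul_zero]) ht
  refine h1.congr_deriv ?_
  have hD : ∀ x, deriv (fun s => nsq (u s) x * φ x) t =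
      (∑ i, 2 * u t x i * (∑ j, pd j (pd j (fun y => u t y i)) x - pd i (p t) x -
        ∑ j, u t x j * pd j (fun y => u t y i) x)) * φ x := by
    intro x
    by_cases hx : φ x = 0
    · simp only [hx, mul_zero]
      exact deriv_const t 0
    · have hxL := hs x hx
      have d1 : ∀ i, HasDerivAt (fun s => u s x i) (∑ j, pd j (pd j (fun y => u t y i)) x -
          pd i (p t) x - ∑ j, u t x j * pd j (fun y => u t y i) x) t := by
        intro i
        have d := ((h.ju i).dfT ht x).hasDerivAt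
        have m := h.mom t ht x hxL i
        have e : ∑ j, pd j (pd j (fun y => u t y i)) x - pd i (p t) x -
            ∑ j, u t x j * pd j (fun y => u t y i) x = deriv (fun s => u s x i) t := by
          unfold adv lap at m
          linarith
        rw [e]
        exact d
      have d3 : HasDerivAt (fun s => nsq (u s) x) (∑ i, 2 * u t x i *
          (∑ j, pd j (pd j (fun y => u t y i)) x - pd i (p t) x -
          ∑ j, u t x j * pd j (fun y => u t y i) x)) t := by
        unfold nsq
        refine HasDerivAt.fun_sum fun i _ => ?_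
        refine ((d1 i).pow 2).congr_deriv ?_
        norm_num
      exact (d3.mul_const _).deriv
  have hZ := Z_main (w := fun i y => u t y i) hv hp hφ hc
  have hZ' : Z (fun x => deriv (fun s => nsq (u s) x * φ x) t -
      (-2 * (gsq (u t) x * φ x) + nsq (u t) x * lap φ x +
        (nsq (u t) x + 2 * p t x) * adv (u t) φ x)) := by
    have e : ∀ x, deriv (fun s => nsq (u s) x * φ x) t -
        (-2 * (gsq (u t) x * φ x) + nsq (u t) x * lap φ x +
          (nsq (u t) x + 2 * p t x) * adv (u t) φ x) = _ := fun x => by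
      refine Eq.trans ?_ (point2 (w := fun i y => u t y i) hv hp hφ x (by
        by_cases hx : φ x = 0
        · rw [hx, zero_mul]
        · have := h.dv t ht x (hs x hx)
          unfold W221.NS.dv at this
          rw [this, mul_zero])).symm
      rw [hD x]
      simp only [nsq, gsq, adv, lap]
    have e' := funext e
    rw [e']
    exact hZ
  have i1 : Integrable fun x => gsq (u t) x * φ x :=
    int_cs ((gsq_cont hv).mul hφ.continuous) hc.mul_left
  have i2 : Integrable fun x => nsq (u t) x * lap φ x :=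
    int_cs ((nsq_cont hv).mul (lap_cont hφ)) (lap_cs hc).mul_left
  have i3 : Integrable fun x => (nsq (u t) x + 2 * p t x) * adv (u t) φ x :=
    int_cs (((nsq_cont hv).add (continuous_const.mul hp.continuous)).mul (adv_cont hv hφ))
      (adv_cs hc _).mul_left
  have i0 : Integrable fun x => deriv (fun s => nsq (u s) x * φ x) t := by
    have := hZ'.1.add ((i1.const_mul (-2)).add i2 |>.add i3)
    refine this.congr (Eventually.of_forall fun x => ?_)
    simp only [Pi.add_apply]
    ring
  have h3 := hZ'.2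
  have i4 : Integrable fun x => -2 * (gsq (u t) x * φ x) + nsq (u t) x * lap φ x +
        (nsq (u t) x + 2 * p t x) * adv (u t) φ x := ((i1.const_mul (-2)).add i2).add i3
  have i12 : Integrable fun x => -2 * (gsq (u t) x * φ x) + nsq (u t) x * lap φ x :=
    (i1.const_mul (-2)).add i2
  rw [integral_sub i0 i4, integral_add i12 i3,
    integral_add (i1.const_mul (-2)) i2, integral_const_mul] at h3
  linarith

lemma ct_int {F : ℝ → V → ℝ} {R : ℝ} (hF : J T F)
    (hs : ∀ t ∈ Ioo 0 T, ∀ z ∉ closedBall (0 : V) R, F t z = 0) :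
    ContinuousOn (fun t => ∫ x, F t x) (Ioo 0 T) :=
  fun _ ht => (hd_intR hF hs ht).continuousAt.continuousWithinAt

/-- The local energy inequality, with bounds. -/
theorem TG.cac (h : TG M T L u p) (hφ : ContDiff ℝ ∞ φ) (hs : ∀ z, φ z ≠ 0 → z ∈ ball (0 : V) L)
    (hφ0 : ∀ z, 0 ≤ φ z) {a b U P N₁ N₂ N₃ : ℝ} (ha : 0 < a) (hab : a ≤ b) (hb : b < T)
    (hU : 0 ≤ U) (hP : 0 ≤ P)
    (hUa : ∀ z, φ z ≠ 0 → nsq (u a) z ≤ U)
    (hUt : ∀ t ∈ Icc a b, ∀ z, (lap φ z ≠ 0 ∨ ∃ j, pd j φ z ≠ 0) → nsq (u t) z ≤ U ∧ |p t z| ≤ P)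
    (hN₁ : ∫ z, φ z ≤ N₁) (hN₂ : ∫ z, |lap φ z| ≤ N₂) (hN₃ : ∫ z, ∑ j, |pd j φ z| ≤ N₃) :
    2 * ∫ t in a..b, ∫ z, gsq (u t) z * φ z
      ≤ U * N₁ + (b - a) * (U * N₂ + (U + 2 * P) * √U * N₃) := by
  have hs0 : ∀ z ∉ closedBall (0 : V) L, φ z = 0 := by
    intro z hz
    by_contra hcon
    exact hz (ball_subset_closedBall (hs z hcon))
  have hc : HasCompactSupport φ := csR φ hs0
  have hsub : ∀ t ∈ Icc a b, t ∈ Ioo 0 T := fun t ht => ⟨ha.trans_le ht.1, ht.2.trans_lt hb⟩
  have hz1 : ∀ z ∉ closedBall (0 : V) L, lap φ z = 0 := by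
    intro z hz
    have h1 : ∀ j, pd j (pd j φ) z = 0 := by
      intro j
      have e1 : φ =ᶠ[𝓝 z] fun _ => 0 := by
        filter_upwards [isClosed_closedBall.isOpen_compl.mem_nhds hz] with y hy
        exact hs0 y hy
      have e2 : pd j φ =ᶠ[𝓝 z] fun _ => 0 := by
        filter_upwards [isClosed_closedBall.isOpen_compl.mem_nhds hz] with y hy
        have e3 : φ =ᶠ[𝓝 y] fun _ => 0 := by
          filter_upwards [isClosed_closedBall.isOpen_compl.mem_nhds hy] with w hw
          exact hs0 w hw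
        rw [(pd_congr_nhds e3 j).eq_of_nhds, pd_const']
      rw [(pd_congr_nhds e2 j).eq_of_nhds, pd_const']
    unfold lap
    exact Finset.sum_eq_zero fun j _ => h1 j
  have hz2 : ∀ z ∉ closedBall (0 : V) L, ∀ j, pd j φ z = 0 := by
    intro z hz j
    have e1 : φ =ᶠ[𝓝 z] fun _ => 0 := by
      filter_upwards [isClosed_closedBall.isOpen_compl.mem_nhds hz] with y hy
      exact hs0 y hy
    rw [(pd_congr_nhds e1 j).eq_of_nhds, pd_const']
  -- continuity of the terms
  have jn : J T (fun s z => nsq (u s) z) := by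
    unfold nsq
    exact ContDiffOn.sum fun i _ => ContDiffOn.pow (h.ju i) 2
  have jg : J T (fun s z => gsq (u s) z) := by
    unfold gsq
    exact ContDiffOn.sum fun i _ => ContDiffOn.sum fun j _ => ContDiffOn.pow ((h.ju i).pd j) 2
  have jl : J T (fun s z => nsq (u s) z * lap φ z) :=
    jn.mul (J.space (by
      unfold lap
      exact ContDiff.sum fun j _ => sm_pd (sm_pd hφ j) j))
  have ja : J T (fun s z => (nsq (u s) z + 2 * p s z) * adv (u s) φ z) := by
    refine (jn.add ((J.space (contDiff_const (c := (2 : ℝ)))).mul h.jp)).mul ?_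
    unfold adv
    exact J.sum fun j => (h.ju j).mul (J.space (sm_pd hφ j))
  have c1 : ContinuousOn (fun t => ∫ z, gsq (u t) z * φ z) (Ioo 0 T) :=
    ct_int (R := L) (jg.mul (J.space hφ)) fun t _ z hz => by rw [hs0 z hz, mul_zero]
  have c2 : ContinuousOn (fun t => ∫ z, nsq (u t) z * lap φ z) (Ioo 0 T) :=
    ct_int (R := L) jl fun t _ z hz => by rw [hz1 z hz, mul_zero]
  have c3 : ContinuousOn (fun t => ∫ z, (nsq (u t) z + 2 * p t z) * adv (u t) φ z) (Ioo 0 T) :=
    ct_int (R := L) ja fun t _ z hz => by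
      unfold adv
      simp only [hz2 z hz, mul_zero, Finset.sum_const_zero]
  have hII : ∀ {f : ℝ → ℝ}, ContinuousOn f (Ioo 0 T) → IntervalIntegrable f volume a b := by
    intro f hf
    apply ContinuousOn.intervalIntegrable
    rw [uIcc_of_le hab]
    exact hf.mono hsub
  have hFTC := intervalIntegral.integral_eq_sub_of_hasDerivAt (a := a) (b := b)
    (f := fun s => ∫ z, nsq (u s) z * φ z)
    (f' := fun t => -2 * (∫ z, gsq (u t) z * φ z) + (∫ z, nsq (u t) z * lap φ z)
        + ∫ z, (nsq (u t) z + 2 * p t z) * adv (u t) φ z)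
    (fun t ht => by
      rw [uIcc_of_le hab] at ht
      exact h.en hφ hs (hsub t ht))
    (((hII c1).const_mul (-2)).add (hII c2) |>.add (hII c3))
  rw [intervalIntegral.integral_add (((hII c1).const_mul (-2)).add (hII c2)) (hII c3),
    intervalIntegral.integral_add ((hII c1).const_mul (-2)) (hII c2),
    intervalIntegral.integral_const_mul] at hFTC
  -- bounds
  have b0 : 0 ≤ ∫ z, nsq (u b) z * φ z := integral_nonneg fun z =>
    mul_nonneg (Finset.sum_nonneg fun _ _ => sq_nonneg _) (hφ0 z)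
  have iφ : Integrable φ := int_cs hφ.continuous hc
  have hlc := lap_cs hc
  have iL : Integrable fun z => |lap φ z| := (int_cs (lap_cont hφ) hlc).abs
  have iP : Integrable fun z => ∑ j, |pd j φ z| :=
    integrable_finsetSum _ fun j _ => (int_cs (sm_pd hφ j).continuous (cs_pd hc j)).abs
  have b1 : ∫ z, nsq (u a) z * φ z ≤ U * N₁ := by
    have h1 : ∫ z, nsq (u a) z * φ z ≤ ∫ z, U * φ z := by
      apply integral_mono (int_cs ((nsq_cont (h.sl (hsub a ⟨le_rfl, hab⟩))).mul hφ.continuous)
        hc.mul_left) (iφ.const_mul U)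
      intro z
      show nsq (u a) z * φ z ≤ U * φ z
      by_cases hz : φ z = 0
      · rw [hz, mul_zero, mul_zero]
      · exact mul_le_mul_of_nonneg_right (hUa z hz) (hφ0 z)
    rw [integral_const_mul] at h1
    exact h1.trans (mul_le_mul_of_nonneg_left hN₁ hU)
  have b2 : ∀ t ∈ Icc a b, ∫ z, nsq (u t) z * lap φ z ≤ U * N₂ := by
    intro t ht
    have h1 : ∫ z, nsq (u t) z * lap φ z ≤ ∫ z, U * |lap φ z| := by
      apply integral_mono (int_cs ((nsq_cont (h.sl (hsub t ht))).mul (lap_cont hφ))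
        hlc.mul_left) (iL.const_mul U)
      intro z
      show nsq (u t) z * lap φ z ≤ U * |lap φ z|
      by_cases hz : lap φ z = 0
      · rw [hz, mul_zero, abs_zero, mul_zero]
      · have h2 := (hUt t ht z (Or.inl hz)).1
        have h3 : 0 ≤ nsq (u t) z := Finset.sum_nonneg fun _ _ => sq_nonneg _
        calc nsq (u t) z * lap φ z ≤ nsq (u t) z * |lap φ z| := by
              gcongr
              exact le_abs_self _
          _ ≤ U * |lap φ z| := by gcongr
    rw [integral_const_mul] at h1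
    exact h1.trans (mul_le_mul_of_nonneg_left hN₂ hU)
  have b3 : ∀ t ∈ Icc a b, ∫ z, (nsq (u t) z + 2 * p t z) * adv (u t) φ z
      ≤ (U + 2 * P) * √U * N₃ := by
    intro t ht
    have hv := h.sl (hsub t ht)
    have h1 : ∫ z, (nsq (u t) z + 2 * p t z) * adv (u t) φ z
        ≤ ∫ z, ((U + 2 * P) * √U) * ∑ j, |pd j φ z| := by
      apply integral_mono (int_cs (((nsq_cont hv).add
        (continuous_const.mul (h.jp.slice (hsub t ht)).continuous)).mul (adv_cont hv hφ))
        (adv_cs hc _).mul_left) (iP.const_mul _)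
      intro z
      show (nsq (u t) z + 2 * p t z) * adv (u t) φ z ≤ ((U + 2 * P) * √U) * ∑ j, |pd j φ z|
      by_cases hz : ∃ j, pd j φ z ≠ 0
      · obtain ⟨h2, h3⟩ := hUt t ht z (Or.inr hz)
        have h4 : |adv (u t) φ z| ≤ √U * ∑ j, |pd j φ z| := by
          unfold adv
          refine (Finset.abs_sum_le_sum_abs _ _).trans ?_
          rw [Finset.mul_sum]
          refine Finset.sum_le_sum fun j _ => ?_
          rw [abs_mul]
          apply mul_le_mul_of_nonneg_right _ (abs_nonneg _)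
          apply Real.abs_le_sqrt
          refine le_trans ?_ h2
          exact Finset.single_le_sum (f := fun i => u t z i ^ 2) (fun _ _ => sq_nonneg _)
            (Finset.mem_univ j)
        have h5 : |nsq (u t) z + 2 * p t z| ≤ U + 2 * P := by
          have h6 : 0 ≤ nsq (u t) z := Finset.sum_nonneg fun _ _ => sq_nonneg _
          have h7 := abs_le.1 h3
          rw [abs_le]
          constructor <;> linarith
        calc (nsq (u t) z + 2 * p t z) * adv (u t) φ z
            ≤ |nsq (u t) z + 2 * p t z| * |adv (u t) φ z| := by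
              rw [← abs_mul]
              exact le_abs_self _
          _ ≤ (U + 2 * P) * (√U * ∑ j, |pd j φ z|) := by
              apply mul_le_mul h5 h4 (abs_nonneg _) (by positivity)
          _ = _ := by ring
      · push Not at hz
        have : adv (u t) φ z = 0 := by
          unfold adv
          exact Finset.sum_eq_zero fun j _ => by rw [hz j, mul_zero]
        rw [this, mul_zero]
        positivity
    rw [integral_const_mul] at h1
    exact h1.trans (mul_le_mul_of_nonneg_left hN₃ (by positivity))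
  have I2 : ∫ t in a..b, ∫ z, nsq (u t) z * lap φ z ≤ (b - a) * (U * N₂) := by
    have h1 := intervalIntegral.integral_mono_on hab (hII c2)
      (intervalIntegrable_const (c := U * N₂)) b2
    rw [intervalIntegral.integral_const, smul_eq_mul] at h1
    exact h1
  have I3 : ∫ t in a..b, ∫ z, (nsq (u t) z + 2 * p t z) * adv (u t) φ z
      ≤ (b - a) * ((U + 2 * P) * √U * N₃) := by
    have h1 := intervalIntegral.integral_mono_on hab (hII c3)
      (intervalIntegrable_const (c := (U + 2 * P) * √U * N₃)) b3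
    rw [intervalIntegral.integral_const, smul_eq_mul] at h1
    exact h1
  linarith

end

end Pool.Agent.V1183.PM
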