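import Pool.Agent.V1183.PM.Cmp
import Pool.Agent.TH305.DR.Nl

/-!
Monotone pressure (helper83): joint smoothness, the operator `∂ₜ + u · ∇ - Δ`.
-/

set_option autoImplicit false

open MeasureTheory Set Metric Filter Topology
open scoped ContDiff

namespace Pool.Agent.V1183.PM

open H459R3.NS W221.NS Pool.Agent.TH305.DR
open Pool.Agent.W583.MD (sm_pd cs_pd pd_mul' Z Z.add Z.sub Z.smul Z.sum int_cs Z_pd hcs)
open Pool.Agent.W22.ME.TD (pd_comm)

/-- Joint smoothness. -/
def J (T : ℝ) (F : ℝ → V → ℝ) : Prop :=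
  ContDiffOn ℝ ∞ (fun z : ℝ × V => F z.1 z.2) (Ioo 0 T ×ˢ univ)

section
variable {T : ℝ} {F G : ℝ → V → ℝ} {t : ℝ}

lemma opnJ (T : ℝ) : IsOpen (Ioo 0 T ×ˢ (univ : Set V)) := isOpen_Ioo.prod isOpen_univ

lemma J.slice (hF : J T F) (ht : t ∈ Ioo 0 T) : ContDiff ℝ ∞ (F t) := by
  rw [← contDiffOn_univ]
  unfold J at hF
  exact hF.comp (contDiff_const.prodMk contDiff_id).contDiffOn (fun x _ => ⟨ht, mem_univ _⟩)

lemma J.diffAt (hF : J T F) (ht : t ∈ Ioo 0 T) (x : V) :
    DifferentiableAt ℝ (fun z : ℝ × V => F z.1 z.2) (t, x) := by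
  have hmem : Ioo 0 T ×ˢ (univ : Set V) ∈ 𝓝 (t, x) :=
    prod_mem_nhds (Ioo_mem_nhds ht.1 ht.2) Filter.univ_mem
  exact (ContDiffOn.contDiffAt hF hmem).differentiableAt (by norm_cast)

lemma J.hd_t (hF : J T F) (ht : t ∈ Ioo 0 T) (x : V) :
    HasDerivAt (fun s => F s x) (fderiv ℝ (fun z : ℝ × V => F z.1 z.2) (t, x) (1, 0)) t := by
  have h2 : HasDerivAt (fun s : ℝ => ((s, x) : ℝ × V)) (1, 0) t :=
    (hasDerivAt_id t).prodMk (hasDerivAt_const t x)
  exact (hF.diffAt ht x).hasFDerivAt.comp_hasDerivAt t h2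

lemma J.dt_eq (hF : J T F) (ht : t ∈ Ioo 0 T) (x : V) :
    deriv (fun s => F s x) t = fderiv ℝ (fun z : ℝ × V => F z.1 z.2) (t, x) (1, 0) :=
  (hF.hd_t ht x).deriv

lemma J.dfT (hF : J T F) (ht : t ∈ Ioo 0 T) (x : V) : DifferentiableAt ℝ (fun s => F s x) t :=
  (hF.hd_t ht x).differentiableAt

lemma J.pd_eq (hF : J T F) (ht : t ∈ Ioo 0 T) (x : V) (j : Fin 3) :
    pd j (F t) x = fderiv ℝ (fun z : ℝ × V => F z.1 z.2) (t, x) (0, Pi.single j 1) := by
  have h2 : HasFDerivAt (fun y : V => ((t, y) : ℝ × V))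
      (ContinuousLinearMap.inr ℝ ℝ V) x := by
    have := (hasFDerivAt_const t x).prodMk (hasFDerivAt_id (𝕜 := ℝ) x)
    exact this
  have h3 : HasFDerivAt (F t) _ x := (hF.diffAt ht x).hasFDerivAt.comp x h2
  unfold pd
  rw [h3.fderiv]
  rfl

lemma J.dir (hF : J T F) (w : ℝ × V) :
    ContDiffOn ℝ ∞ (fun z : ℝ × V => fderiv ℝ (fun z : ℝ × V => F z.1 z.2) z w)
      (Ioo 0 T ×ˢ univ) :=
  (ContDiffOn.fderiv_of_isOpen hF (opnJ T) (by norm_cast)).clm_apply contDiffOn_const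

lemma J.pd (hF : J T F) (j : Fin 3) : J T (fun t => pd j (F t)) := by
  refine (hF.dir (0, Pi.single j 1)).congr ?_
  rintro ⟨t, x⟩ ⟨ht, -⟩
  exact hF.pd_eq ht x j

lemma J.dt (hF : J T F) : J T (fun t x => deriv (fun s => F s x) t) := by
  refine (hF.dir (1, 0)).congr ?_
  rintro ⟨t, x⟩ ⟨ht, -⟩
  exact hF.dt_eq ht x

lemma J.comm (hF : J T F) (ht : t ∈ Ioo 0 T) (x : V) (j : Fin 3) :
    deriv (fun s => H459R3.NS.pd j (F s) x) t =
      H459R3.NS.pd j (fun y => deriv (fun s => F s y) t) x := by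
  set H : ℝ × V → ℝ := fun z => F z.1 z.2 with hH
  have hmem : Ioo 0 T ×ˢ (univ : Set V) ∈ 𝓝 (t, x) :=
    prod_mem_nhds (Ioo_mem_nhds ht.1 ht.2) Filter.univ_mem
  have hc : ContDiffAt ℝ ∞ H (t, x) := ContDiffOn.contDiffAt hF hmem
  have hs : IsSymmSndFDerivAt ℝ H (t, x) := by
    have hc2 : ContDiffAt ℝ 2 H (t, x) := hc.of_le (by norm_cast)
    apply hc2.isSymmSndFDerivAt
    simp [minSmoothness_of_isRCLikeNormedField]
  have hd : DifferentiableAt ℝ (fderiv ℝ H) (t, x) :=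
    (hc.fderiv_right (m := ∞) (by norm_cast)).differentiableAt (by simp)
  have e1 : ∀ a b : ℝ × V, fderiv ℝ (fun y => fderiv ℝ H y b) (t, x) a =
      fderiv ℝ (fderiv ℝ H) (t, x) a b := by
    intro a b
    rw [fderiv_clm_apply hd (differentiableAt_const _)]
    simp
  have h1 : deriv (fun s => H459R3.NS.pd j (F s) x) t =
      fderiv ℝ (fun y => fderiv ℝ H y (0, Pi.single j 1)) (t, x) (1, 0) := by
    have h2 := (hF.pd j).dt_eq ht x
    rw [h2]
    have h3 : (fun z : ℝ × V => H459R3.NS.pd j (F z.1) z.2) =ᶠ[𝓝 (t, x)]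
        fun y => fderiv ℝ H y (0, Pi.single j 1) := by
      filter_upwards [hmem] with z hz
      exact hF.pd_eq hz.1 z.2 j
    rw [h3.fderiv_eq]
  have h2 : H459R3.NS.pd j (fun y => deriv (fun s => F s y) t) x =
      fderiv ℝ (fun y => fderiv ℝ H y (1, 0)) (t, x) (0, Pi.single j 1) := by
    have h3 := hF.dt.pd_eq ht x j
    rw [h3]
    have h4 : (fun z : ℝ × V => deriv (fun s => F s z.2) z.1) =ᶠ[𝓝 (t, x)]
        fun y => fderiv ℝ H y (1, 0) := by
      filter_upwards [hmem] with z hz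
      exact hF.dt_eq hz.1 z.2
    rw [h4.fderiv_eq]
  rw [h1, h2, e1, e1]
  exact hs _ _

lemma J.add (hF : J T F) (hG : J T G) : J T (fun t x => F t x + G t x) := ContDiffOn.add hF hG
lemma J.sub (hF : J T F) (hG : J T G) : J T (fun t x => F t x - G t x) := ContDiffOn.sub hF hG
lemma J.mul (hF : J T F) (hG : J T G) : J T (fun t x => F t x * G t x) := ContDiffOn.mul hF hG
lemma J.sum {F : Fin 3 → ℝ → V → ℝ} (hF : ∀ j, J T (F j)) : J T (fun t x => ∑ j, F j t x) :=
  ContDiffOn.sum fun j _ => hF j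
lemma J.space {f : V → ℝ} (hf : ContDiff ℝ ∞ f) : J T (fun _ x => f x) :=
  (hf.comp contDiff_snd).contDiffOn
lemma J.time {f : ℝ → ℝ} (hf : ContDiff ℝ ∞ f) : J T (fun t _ => f t) :=
  (hf.comp contDiff_fst).contDiffOn

end

/-- The operator `∂ₜ + u · ∇ - Δ`. -/
noncomputable def LL (u : ℝ → V → V) (F : ℝ → V → ℝ) (t : ℝ) (x : V) : ℝ :=
  deriv (fun s => F s x) t + adv (u t) (F t) x - lap (F t) x

/-- Functions which are twice differentiable in space and once in time. -/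
structure C12 (T : ℝ) (F : ℝ → V → ℝ) : Prop where
  ct : ContinuousOn (fun z : ℝ × V => F z.1 z.2) (Ioo 0 T ×ˢ univ)
  sp : ∀ t ∈ Ioo 0 T, ContDiff ℝ 2 (F t)
  tm : ∀ t ∈ Ioo 0 T, ∀ x, DifferentiableAt ℝ (fun s => F s x) t

section
variable {T : ℝ} {F G : ℝ → V → ℝ} {t : ℝ} {u : ℝ → V → V}

lemma J.c12 (hF : J T F) : C12 T F where
  ct := ContDiffOn.continuousOn hF
  sp := fun t ht => (hF.slice ht).of_le (by norm_cast)
  tm := fun t ht x => hF.dfT ht x

lemma C12.add (hF : C12 T F) (hG : C12 T G) : C12 T (fun t x => F t x + G t x) where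
  ct := hF.ct.add hG.ct
  sp := fun t ht => (hF.sp t ht).add (hG.sp t ht)
  tm := fun t ht x => (hF.tm t ht x).add (hG.tm t ht x)

lemma C12.sub (hF : C12 T F) (hG : C12 T G) : C12 T (fun t x => F t x - G t x) where
  ct := hF.ct.sub hG.ct
  sp := fun t ht => (hF.sp t ht).sub (hG.sp t ht)
  tm := fun t ht x => (hF.tm t ht x).sub (hG.tm t ht x)

lemma pd_add2 {f g : V → ℝ} (hf : ContDiff ℝ 2 f) (hg : ContDiff ℝ 2 g) (j : Fin 3) (x : V) :
    pd j (fun y => f y + g y) x = pd j f x + pd j g x := by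
  unfold pd
  have h : HasFDerivAt (fun y => f y + g y) _ x :=
    ((hf.differentiable (by norm_num)) x).hasFDerivAt.add
      ((hg.differentiable (by norm_num)) x).hasFDerivAt
  rw [h.fderiv]
  rfl

lemma pd_sub2 {f g : V → ℝ} (hf : ContDiff ℝ 2 f) (hg : ContDiff ℝ 2 g) (j : Fin 3) (x : V) :
    pd j (fun y => f y - g y) x = pd j f x - pd j g x := by
  unfold pd
  have h : HasFDerivAt (fun y => f y - g y) _ x :=
    ((hf.differentiable (by norm_num)) x).hasFDerivAt.sub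
      ((hg.differentiable (by norm_num)) x).hasFDerivAt
  rw [h.fderiv]
  rfl

lemma lap_add2 {f g : V → ℝ} (hf : ContDiff ℝ 2 f) (hg : ContDiff ℝ 2 g) (x : V) :
    lap (fun y => f y + g y) x = lap f x + lap g x := by
  unfold lap
  rw [← Finset.sum_add_distrib]
  refine Finset.sum_congr rfl fun j _ => ?_
  have e : pd j (fun y => f y + g y) = fun y => pd j f y + pd j g y := by
    funext y
    exact pd_add2 hf hg j y
  rw [e]
  unfold pd
  have h : HasFDerivAt (fun y => fderiv ℝ f y (Pi.single j 1) + fderiv ℝ g y (Pi.single j 1)) _ x :=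
    (((pd_cd hf j).differentiable (by norm_num)) x).hasFDerivAt.add
      (((pd_cd hg j).differentiable (by norm_num)) x).hasFDerivAt
  rw [h.fderiv]
  rfl

lemma lap_sub2 {f g : V → ℝ} (hf : ContDiff ℝ 2 f) (hg : ContDiff ℝ 2 g) (x : V) :
    lap (fun y => f y - g y) x = lap f x - lap g x := by
  unfold lap
  rw [← Finset.sum_sub_distrib]
  refine Finset.sum_congr rfl fun j _ => ?_
  have e : pd j (fun y => f y - g y) = fun y => pd j f y - pd j g y := by
    funext y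
    exact pd_sub2 hf hg j y
  rw [e]
  unfold pd
  have h : HasFDerivAt (fun y => fderiv ℝ f y (Pi.single j 1) - fderiv ℝ g y (Pi.single j 1)) _ x :=
    (((pd_cd hf j).differentiable (by norm_num)) x).hasFDerivAt.sub
      (((pd_cd hg j).differentiable (by norm_num)) x).hasFDerivAt
  rw [h.fderiv]
  rfl

lemma LL_add (hF : C12 T F) (hG : C12 T G) (ht : t ∈ Ioo 0 T) (x : V) :
    LL u (fun t x => F t x + G t x) t x = LL u F t x + LL u G t x := by
  unfold LL adv
  have e1 : deriv (fun s => F s x + G s x) t = deriv (fun s => F s x) t + deriv (fun s => G s x) t :=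
    ((hF.tm t ht x).hasDerivAt.add (hG.tm t ht x).hasDerivAt).deriv
  rw [e1, lap_add2 (hF.sp t ht) (hG.sp t ht)]
  simp only [pd_add2 (hF.sp t ht) (hG.sp t ht), mul_add, Finset.sum_add_distrib]
  ring

lemma LL_sub (hF : C12 T F) (hG : C12 T G) (ht : t ∈ Ioo 0 T) (x : V) :
    LL u (fun t x => F t x - G t x) t x = LL u F t x - LL u G t x := by
  unfold LL adv
  have e1 : deriv (fun s => F s x - G s x) t = deriv (fun s => F s x) t - deriv (fun s => G s x) t :=
    ((hF.tm t ht x).hasDerivAt.sub (hG.tm t ht x).hasDerivAt).deriv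
  rw [e1, lap_sub2 (hF.sp t ht) (hG.sp t ht)]
  simp only [pd_sub2 (hF.sp t ht) (hG.sp t ht), mul_sub, Finset.sum_sub_distrib]
  ring

lemma LL_mul (hF : J T F) (hG : J T G) (ht : t ∈ Ioo 0 T) (x : V) :
    LL u (fun t x => F t x * G t x) t x
      = F t x * LL u G t x + G t x * LL u F t x - 2 * ∑ j, pd j (F t) x * pd j (G t) x := by
  have f1 := hF.slice ht
  have g1 := hG.slice ht
  have e1 : deriv (fun s => F s x * G s x) t
      = deriv (fun s => F s x) t * G t x + F t x * deriv (fun s => G s x) t :=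
    ((hF.dfT ht x).hasDerivAt.mul (hG.dfT ht x).hasDerivAt).deriv
  have e2 : ∀ j y, pd j (fun y => F t y * G t y) y
      = F t y * pd j (G t) y + pd j (F t) y * G t y := fun j y => pd_mul' f1 g1 j y
  have e3 : ∀ j, pd j (pd j (fun y => F t y * G t y)) x
      = (F t x * pd j (pd j (G t)) x + pd j (F t) x * pd j (G t) x)
        + (pd j (F t) x * pd j (G t) x + pd j (pd j (F t)) x * G t x) := by
    intro j
    have e4 : pd j (fun y => F t y * G t y)
        = fun y => F t y * pd j (G t) y + pd j (F t) y * G t y := funext (e2 j)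
    rw [e4, pd_add' (f1.mul (sm_pd g1 j)) ((sm_pd f1 j).mul g1)]
    show pd j (fun y => F t y * pd j (G t) y) x + pd j (fun y => pd j (F t) y * G t y) x = _
    rw [pd_mul' f1 (sm_pd g1 j), pd_mul' (sm_pd f1 j) g1]
  unfold LL adv lap
  rw [e1]
  simp only [e2, e3, Fin.sum_univ_three]
  ring

end

end Pool.Agent.V1183.PM
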