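import Pool.Agent.H459R3.NS.Defs

/-!
Monotone pressure (helper83): comparison principle on moving balls.
-/

set_option autoImplicit false

open Set Metric Filter Topology
open scoped ContDiff

namespace Pool.Agent.V1183.PM

open H459R3.NS

/-- `|x|²` (Euclidean). -/
def q2 (x : V) : ℝ := ∑ i, x i ^ 2

lemma q2_nonneg (x : V) : 0 ≤ q2 x := Finset.sum_nonneg fun _ _ => sq_nonneg _

lemma q2_cont : Continuous q2 := by unfold q2; fun_prop

lemma sq_le_q2 (x : V) (i : Fin 3) : x i ^ 2 ≤ q2 x :=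
  Finset.single_le_sum (f := fun i => x i ^ 2) (fun _ _ => sq_nonneg _) (Finset.mem_univ i)

lemma norm_sq_le_q2 (x : V) : ‖x‖ ^ 2 ≤ q2 x := by
  have h : ‖x‖ ≤ √(q2 x) := by
    rw [pi_norm_le_iff_of_nonneg (Real.sqrt_nonneg _)]
    intro i
    rw [Real.norm_eq_abs]
    exact Real.abs_le_sqrt (sq_le_q2 x i)
  calc ‖x‖ ^ 2 ≤ √(q2 x) ^ 2 := by gcongr
    _ = q2 x := Real.sq_sqrt (q2_nonneg x)

lemma q2_le_norm (x : V) : q2 x ≤ 3 * ‖x‖ ^ 2 := by
  unfold q2
  have h : ∀ i : Fin 3, x i ^ 2 ≤ ‖x‖ ^ 2 := by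
    intro i
    have := norm_le_pi_norm x i
    rw [Real.norm_eq_abs] at this
    rw [← sq_abs (x i)]
    gcongr
  rw [Fin.sum_univ_three]
  linarith [h 0, h 1, h 2]

/-- Second derivative test (necessary condition). -/
lemma deriv2_nonpos {g : ℝ → ℝ} {s : ℝ} (hg : ContDiff ℝ 2 g) (hm : IsLocalMax g s) :
    deriv (deriv g) s ≤ 0 := by
  by_contra hcon
  push Not at hcon
  have h0 : deriv g s = 0 := hm.deriv_eq_zero
  have hmin : IsLocalMin g s := isLocalMin_of_deriv_deriv_pos hcon h0 hg.continuous.continuousAt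
  have hc : g =ᶠ[𝓝 s] fun _ => g s := by
    filter_upwards [hm, hmin] with x h1 h2
    exact le_antisymm h1 h2
  have h1 : deriv g =ᶠ[𝓝 s] deriv (fun _ => g s) := hc.deriv
  have h2 : deriv (deriv g) s = deriv (deriv (fun _ : ℝ => g s)) s := h1.deriv_eq
  rw [h2] at hcon
  simp at hcon

lemma line_cd {f : V → ℝ} {n : WithTop ℕ∞} (hf : ContDiff ℝ n f) (x : V) (j : Fin 3) :
    ContDiff ℝ n (fun s : ℝ => f (x + s • (Pi.single j 1 : V))) :=
  hf.comp (contDiff_const.add (contDiff_id.smul contDiff_const))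

lemma pd_line {f : V → ℝ} (hf : Differentiable ℝ f) (x : V) (j : Fin 3) (s : ℝ) :
    HasDerivAt (fun s : ℝ => f (x + s • (Pi.single j 1 : V))) (pd j f (x + s • Pi.single j 1)) s := by
  have h1 : HasDerivAt (fun s : ℝ => x + s • (Pi.single j 1 : V)) (Pi.single j 1) s := by
    have := ((hasDerivAt_id s).smul_const (Pi.single j 1 : V)).const_add x
    simpa using this
  exact (hf _).hasFDerivAt.comp_hasDerivAt s h1

lemma pd_cd {f : V → ℝ} (hf : ContDiff ℝ 2 f) (j : Fin 3) : ContDiff ℝ 1 (pd j f) := by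
  have h1 : ContDiff ℝ 1 (fderiv ℝ f) := hf.fderiv_right (by norm_num)
  exact h1.clm_apply contDiff_const

/-- At a local maximum in space the gradient vanishes and the Laplacian is nonpositive. -/
lemma max_pt {f : V → ℝ} (hf : ContDiff ℝ 2 f) {x : V} (hm : IsLocalMax f x) :
    (∀ j, pd j f x = 0) ∧ lap f x ≤ 0 := by
  constructor
  · intro j
    have := hm.fderiv_eq_zero
    unfold pd
    rw [this]
    rfl
  · unfold lap
    refine Finset.sum_nonpos fun j _ => ?_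
    have hd : Differentiable ℝ f := hf.differentiable (by norm_num)
    have e : deriv (fun s : ℝ => f (x + s • (Pi.single j 1 : V)))
        = fun s => pd j f (x + s • Pi.single j 1) := by
      funext s
      exact (pd_line hd x j s).deriv
    have h1 : IsLocalMax (fun s : ℝ => f (x + s • (Pi.single j 1 : V))) 0 := by
      have hc : ContinuousAt (fun s : ℝ => x + s • (Pi.single j 1 : V)) 0 := by fun_prop
      have : Tendsto (fun s : ℝ => x + s • (Pi.single j 1 : V)) (𝓝 0) (𝓝 x) := by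
        have := hc.tendsto
        simpa using this
      have h2 := this.eventually hm
      filter_upwards [h2] with s hs
      simpa using hs
    have h2 := deriv2_nonpos (line_cd hf x j) h1
    rw [e] at h2
    have h3 := (pd_line ((pd_cd hf j).differentiable (by norm_num)) x j 0).deriv
    rw [h3] at h2
    simpa using h2

/-- Comparison on a moving ball. -/
theorem cmp {a b : ℝ} (hab : a ≤ b) (c : V) {ϱ : ℝ → ℝ} (hϱ : ContinuousOn ϱ (Icc a b))
    {F : ℝ → V → ℝ} {B : ℝ → V → V}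
    (hF : ContinuousOn (fun z : ℝ × V => F z.1 z.2) (Icc a b ×ˢ univ))
    (h0 : ∀ x, q2 (x - c) ≤ ϱ a → F a x ≤ 0)
    (hl : ∀ t ∈ Icc a b, ∀ x, q2 (x - c) = ϱ t → F t x ≤ 0)
    (hx : ∀ t ∈ Ioc a b, ContDiff ℝ 2 (F t))
    (ht : ∀ t ∈ Ioc a b, ∀ x, q2 (x - c) < ϱ t → DifferentiableAt ℝ (fun s => F s x) t)
    (he : ∀ t ∈ Ioc a b, ∀ x, q2 (x - c) < ϱ t →
      deriv (fun s => F s x) t + ∑ j, B t x j * pd j (F t) x - lap (F t) x ≤ 0) :
    ∀ t ∈ Icc a b, ∀ x, q2 (x - c) ≤ ϱ t → F t x ≤ 0 := by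
  intro t₀ ht₀ x₀ hx₀
  by_contra hcon
  push Not at hcon
  -- the small parameter
  obtain ⟨ε, hε, hε1⟩ : ∃ ε : ℝ, 0 < ε ∧ 0 < F t₀ x₀ - ε * (t₀ - a) := by
    refine ⟨F t₀ x₀ / (2 * (t₀ - a + 1)), by
      apply div_pos hcon
      linarith [ht₀.1], ?_⟩
    have h1 : 0 < t₀ - a + 1 := by linarith [ht₀.1]
    have h2 : F t₀ x₀ / (2 * (t₀ - a + 1)) * (t₀ - a) < F t₀ x₀ := by
      rw [div_mul_eq_mul_div, div_lt_iff₀ (by positivity)]
      nlinarith
    linarith
  let D : Set (ℝ × V) := {z | z.1 ∈ Icc a b ∧ q2 (z.2 - c) ≤ ϱ z.1}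
  have hqc : Continuous fun z : ℝ × V => q2 (z.2 - c) := q2_cont.comp (by fun_prop)
  have hDclosed : IsClosed D := by
    have h1 : IsClosed (Icc a b ×ˢ (univ : Set V)) := isClosed_Icc.prod isClosed_univ
    have h2 : ContinuousOn (fun z : ℝ × V => ϱ z.1 - q2 (z.2 - c)) (Icc a b ×ˢ (univ : Set V)) := by
      apply ContinuousOn.sub _ hqc.continuousOn
      exact hϱ.comp continuous_fst.continuousOn fun z hz => hz.1
    have h3 := h2.preimage_isClosed_of_isClosed h1 isClosed_Ici (t := Ici (0 : ℝ))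
    have e : D = (Icc a b ×ˢ (univ : Set V)) ∩ (fun z : ℝ × V => ϱ z.1 - q2 (z.2 - c)) ⁻¹' Ici 0 := by
      ext z
      simp [D]
    rw [e]
    exact h3
  obtain ⟨R, hR⟩ : ∃ R, ∀ t ∈ Icc a b, ϱ t ≤ R := by
    have := (isCompact_Icc.image_of_continuousOn hϱ).bddAbove
    obtain ⟨R, hR⟩ := this
    exact ⟨R, fun t ht => hR (mem_image_of_mem _ ht)⟩
  have hDb : D ⊆ Icc a b ×ˢ closedBall c (√(max R 0)) := by
    rintro ⟨t, x⟩ ⟨h1, h2⟩
    refine ⟨h1, ?_⟩
    rw [mem_closedBall, dist_eq_norm]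
    apply Real.le_sqrt_of_sq_le
    exact (norm_sq_le_q2 _).trans (h2.trans ((hR t h1).trans (le_max_left _ _)))
  have hDc : IsCompact D :=
    (isCompact_Icc.prod (isCompact_closedBall c _)).of_isClosed_subset hDclosed hDb
  have hG : ContinuousOn (fun z : ℝ × V => F z.1 z.2 - ε * (z.1 - a)) D := by
    apply ContinuousOn.sub
    · exact hF.mono fun z hz => ⟨hz.1, mem_univ _⟩
    · fun_prop
  obtain ⟨⟨t₁, x₁⟩, hz₁, hmax⟩ := hDc.exists_isMaxOn ⟨(t₀, x₀), ht₀, hx₀⟩ hG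
  obtain ⟨h1, h2⟩ := hz₁
  simp only at h1 h2
  have hpos : 0 < F t₁ x₁ - ε * (t₁ - a) :=
    lt_of_lt_of_le hε1 (hmax (show (t₀, x₀) ∈ D from ⟨ht₀, hx₀⟩))
  have hFpos : 0 < F t₁ x₁ := by
    have : 0 ≤ ε * (t₁ - a) := mul_nonneg hε.le (by linarith [h1.1])
    linarith
  have hat : a < t₁ := by
    rcases eq_or_lt_of_le h1.1 with h | h
    · exfalso
      subst h
      linarith [h0 x₁ h2]
    · exact h
  have hlt : q2 (x₁ - c) < ϱ t₁ := by
    rcases eq_or_lt_of_le h2 with h | h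
    · exfalso
      linarith [hl t₁ h1 x₁ h]
    · exact h
  have ht₁ : t₁ ∈ Ioc a b := ⟨hat, h1.2⟩
  -- in space
  have hlm : IsLocalMax (F t₁) x₁ := by
    have h3 : ∀ᶠ x in 𝓝 x₁, q2 (x - c) < ϱ t₁ := by
      have hc : ContinuousAt (fun x : V => q2 (x - c)) x₁ :=
        (q2_cont.comp (by fun_prop : Continuous fun x : V => x - c)).continuousAt
      exact hc.eventually (gt_mem_nhds hlt)
    filter_upwards [h3] with x hx
    have := hmax (show (t₁, x) ∈ D from ⟨h1, hx.le⟩)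
    simp only [mem_setOf_eq] at this
    linarith
  obtain ⟨hgrad, hlap⟩ := max_pt (hx t₁ ht₁) hlm
  -- in time
  have hder : ε ≤ deriv (fun s => F s x₁) t₁ := by
    have hd := (ht t₁ ht₁ x₁ hlt).hasDerivAt
    have hsl := hd.hasDerivWithinAt (s := Iio t₁)
    rw [hasDerivWithinAt_iff_tendsto_slope' (by simp)] at hsl
    apply ge_of_tendsto hsl
    have hϱc : Tendsto ϱ (𝓝[<] t₁) (𝓝 (ϱ t₁)) := by
      have : ContinuousWithinAt ϱ (Icc a b) t₁ := hϱ t₁ h1
      apply this.mono_of_mem_nhdsWithin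
      apply mem_of_superset (Ioo_mem_nhdsLT hat)
      exact fun s hs => ⟨hs.1.le, hs.2.le.trans h1.2⟩
    filter_upwards [hϱc.eventually (lt_mem_nhds hlt), Ioo_mem_nhdsLT hat] with s hs1 hs2
    have h4 := hmax (show (s, x₁) ∈ D from ⟨⟨hs2.1.le, hs2.2.le.trans h1.2⟩, hs1.le⟩)
    simp only [mem_setOf_eq] at h4
    rw [slope_def_field, le_div_iff_of_neg (by linarith [hs2.2])]
    linarith
  have h5 := he t₁ ht₁ x₁ hlt
  have h6 : ∑ j, B t₁ x₁ j * pd j (F t₁) x₁ = 0 :=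
    Finset.sum_eq_zero fun j _ => by rw [hgrad j, mul_zero]
  rw [h6] at h5
  linarith

end Pool.Agent.V1183.PM
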