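import Pool.Agent.V1183.PM.Lsol

/-!
Monotone pressure (helper83): bounds of the derivatives before the singular time.
-/

set_option autoImplicit false

open MeasureTheory Set Metric Filter Topology
open scoped ContDiff

namespace Pool.Agent.V1183.PM

open H459R3.NS W221.NS Pool.Agent.TH305.DR
open Pool.Agent.W583.MD (sm_pd cs_pd pd_mul' Z Z.add Z.sub Z.smul Z.sum int_cs Z_pd Z_main)
open Pool.Agent.TH305.LW (tf tf_smooth tf_nonneg tf_le tf_zero tf_one tf_pd tf_lap tf_cs tf_int_le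
  lap_tf_zero rr_pos' two_rr Pth ms pth_exists moll3 pth_speed B2_ii)
open Pool.Agent.W12.MD (th_nonneg th_int th_mul_int th_smooth)

lemma mol_bd {u : ℝ → V → V} {t B : ℝ} (r : ℝ) (hu : Continuous (u t)) (hB : 0 ≤ B)
    (h : ∀ y, ‖u t y‖ ≤ B) (x : V) : ‖mol r u t x‖ ≤ B := by
  rw [pi_norm_le_iff_of_nonneg hB]
  intro i
  have hci : Continuous fun y => u t (x + r • y) i :=
    (continuous_apply i).comp (hu.comp (by fun_prop))
  have hthi : Integrable th := by simpa using th_mul_int (f := fun _ => (1 : ℝ)) continuous_const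
  have h1 : ‖∫ y, th y * u t (x + r • y) i‖ ≤ ∫ y, ‖th y * u t (x + r • y) i‖ :=
    norm_integral_le_integral_norm _
  have h2 : ∫ y, ‖th y * u t (x + r • y) i‖ ≤ ∫ y, th y * B := by
    apply integral_mono (th_mul_int hci).norm (hthi.mul_const B)
    intro y
    show ‖th y * u t (x + r • y) i‖ ≤ th y * B
    rw [norm_mul, Real.norm_of_nonneg (th_nonneg y)]
    exact mul_le_mul_of_nonneg_left ((norm_le_pi_norm _ i).trans (h _)) (th_nonneg y)
  rw [integral_mul_const, th_int, one_mul] at h2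
  exact h1.trans h2

lemma int_ball_le {F : V → ℝ} {a : V} {ρ B : ℝ} (hF : Continuous F) (hρ : 0 < ρ)
    (h0 : ∀ z ∉ ball a ρ, F z = 0) (hB : ∀ z, F z ≤ B) : ∫ z, F z ≤ B * (2 * ρ) ^ 3 := by
  have e : ∫ z, F z = ∫ z in ball a ρ, F z :=
    (setIntegral_eq_integral_of_forall_compl_eq_zero fun z hz => h0 z hz).symm
  rw [e]
  have h1 : ∫ z in ball a ρ, F z ≤ ∫ _z in ball a ρ, B := by
    apply setIntegral_mono (Pool.Agent.W386.MD.iob hF _ _)
      (Pool.Agent.W386.MD.iob continuous_const _ _)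
    intro z
    exact hB z
  refine h1.trans (le_of_eq ?_)
  rw [setIntegral_const, Measure.real, Real.volume_pi_ball _ hρ, smul_eq_mul,
    ENNReal.toReal_ofReal (by positivity)]
  simp only [Fintype.card_fin]
  ring

lemma pd_tf_zero (k : ℕ) (a : V) (j : Fin 3) {z : V} (hz : z ∉ ball a (rr k)) :
    pd j (tf k a) z = 0 :=
  Pool.Agent.W386.MD.pd_zero (tf_smooth k a) (rr_pos' k) (tf_zero k a) j z hz

/-- The integrals of the derivatives of the test function. -/
lemma tf_ints : ∃ C : ℝ, 0 < C ∧ ∀ (k : ℕ) (a : V), ∫ z, |lap (tf k a) z| ≤ C * 4 ^ k ∧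
    ∫ z, ∑ j, |pd j (tf k a) z| ≤ C * 2 ^ k := by
  obtain ⟨C1, hC1, h1⟩ := tf_pd
  obtain ⟨C2, hC2, h2⟩ := tf_lap
  refine ⟨8 * C2 + 24 * C1, by linarith, fun k a => ?_⟩
  have hr := two_rr k
  have hr0 := rr_pos' k
  have hc1 : Continuous fun z => |lap (tf k a) z| := (lap_cont (tf_smooth k a)).abs
  have hc2 : Continuous fun z => ∑ j, |pd j (tf k a) z| :=
    continuous_finsetSum _ fun j _ => (sm_pd (tf_smooth k a) j).continuous.abs
  have i1 := int_ball_le (a := a) hc1 hr0 (fun z hz => by rw [lap_tf_zero k a hz, abs_zero])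
    (fun z => h2 k a z)
  have i2 := int_ball_le (a := a) (B := 3 * (C1 * 16 ^ k)) hc2 hr0
    (fun z hz => by simp [pd_tf_zero k a _ hz])
    (fun z => by
      rw [Fin.sum_univ_three]
      linarith [h1 k a z 0, h1 k a z 1, h1 k a z 2])
  have e8 : (2 * rr k) ^ 3 * 8 ^ k = 8 := by
    have h8 : (8 : ℝ) ^ k = (2 ^ k) ^ 3 := by
      rw [← pow_mul, mul_comm, pow_mul]; norm_num
    rw [h8]
    have e3 : (2 * rr k) ^ 3 * ((2 : ℝ) ^ k) ^ 3 = 8 * (2 ^ k * rr k) ^ 3 := by ring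
    rw [e3, hr]
    norm_num
  have e32 : (32 : ℝ) ^ k = 8 ^ k * 4 ^ k := by rw [← mul_pow]; norm_num
  have e16 : (16 : ℝ) ^ k = 8 ^ k * 2 ^ k := by rw [← mul_pow]; norm_num
  have p4 : (0 : ℝ) < 4 ^ k := by positivity
  have p2 : (0 : ℝ) < 2 ^ k := by positivity
  constructor
  · calc ∫ z, |lap (tf k a) z| ≤ C2 * 32 ^ k * (2 * rr k) ^ 3 := i1
      _ = C2 * 4 ^ k * ((2 * rr k) ^ 3 * 8 ^ k) := by rw [e32]; ring
      _ = 8 * C2 * 4 ^ k := by rw [e8]; ring
      _ ≤ _ := by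
        have : 0 ≤ C1 * 4 ^ k := by positivity
        nlinarith
  · calc ∫ z, ∑ j, |pd j (tf k a) z| ≤ 3 * (C1 * 16 ^ k) * (2 * rr k) ^ 3 := i2
      _ = 3 * C1 * 2 ^ k * ((2 * rr k) ^ 3 * 8 ^ k) := by rw [e16]; ring
      _ = 24 * C1 * 2 ^ k := by rw [e8]; ring
      _ ≤ _ := by
        have : 0 ≤ C2 * 2 ^ k := by positivity
        nlinarith

section
variable {M T L R N : ℝ} {u : ℝ → V → V} {p : ℝ → V → ℝ} {χ : V → ℝ} {t : ℝ} {x : V}

lemma TG.u_bd (h : TG M T L u p) (ht : t ∈ Ioo 0 T) (hx : x ∈ ball (0 : V) L) {q : ℝ} (hq : 0 < q)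
    (htq : t ≤ T - q ^ 2) : ‖u t x‖ ≤ M / q ∧ nsq (u t) x ≤ 3 * (M / q) ^ 2 ∧
      |p t x| ≤ (M / q) ^ 2 := by
  have h1 : q ≤ √(T - t) := Real.le_sqrt_of_sq_le (by linarith)
  have h2 := h.bu t ht x hx
  have h3 := h.bp t ht x hx
  have h4 : ‖u t x‖ * q ≤ M := by
    refine le_trans ?_ h2
    apply mul_le_mul_of_nonneg_left _ (norm_nonneg _)
    linarith [norm_nonneg x]
  have h5 : |p t x| * q ^ 2 ≤ M ^ 2 := by
    refine le_trans ?_ h3
    apply mul_le_mul_of_nonneg_left _ (abs_nonneg _)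
    apply pow_le_pow_left₀ hq.le
    linarith [norm_nonneg x]
  have h6 : ‖u t x‖ ≤ M / q := by rwa [le_div_iff₀ hq]
  refine ⟨h6, ?_, ?_⟩
  · have := nsq_le (u t) x
    have h7 : ‖u t x‖ ^ 2 ≤ (M / q) ^ 2 := pow_le_pow_left₀ (norm_nonneg _) h6 2
    linarith
  · rw [div_pow, le_div_iff₀ (by positivity)]
    exact h5

/-- The dissipation near a point. -/
lemma TG.B2_le (h : TG M T L u p) (hc : Cut R (R + 1) N χ) (hRL : R + 1 < L) (ht : t ∈ Ioo 0 T) (k : ℕ)
    {y x : V} {ρ : ℝ} (h1 : ball y ρ ⊆ ball (0 : V) R) (h2 : ball y ρ ⊆ ball x (rr (k + 1))) :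
    B2 y ρ (cu χ u t) ≤ (8 ^ k)⁻¹ * ∫ z, gsq (u t) z * tf k x z := by
  have hg := gsq_cont (h.sl ht)
  have i1 : Integrable fun z => gsq (u t) z * tf k x z :=
    int_cs (hg.mul (tf_smooth k x).continuous) (tf_cs k x).mul_left
  have e1 : B2 y ρ (cu χ u t) = ∫ z in ball y ρ, (8 ^ k)⁻¹ * (gsq (u t) z * tf k x z) := by
    unfold B2
    apply setIntegral_congr_fun measurableSet_ball
    intro z hz
    show gsq (cu χ u t) z = (8 ^ k)⁻¹ * (gsq (u t) z * tf k x z)
    rw [cu_gsq hc (h1 hz), tf_one k x z (h2 hz)]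
    field_simp
  rw [e1, integral_const_mul]
  apply mul_le_mul_of_nonneg_left _ (by positivity)
  apply setIntegral_le_integral i1
  filter_upwards with z
  exact mul_nonneg (Finset.sum_nonneg fun _ _ => Finset.sum_nonneg fun _ _ => sq_nonneg _)
    (tf_nonneg k x z)

end

/-- Bounds of the derivatives. -/
theorem der0 {M q K : ℝ} (hM : 0 < M) (hq : 0 < q) (hq1 : q ≤ 1 / 2) (hK : 0 < K) :
    ∃ D : ℝ, 0 < D ∧ ∀ (T L : ℝ) (u : ℝ → V → V) (p : ℝ → V → ℝ), TG M T L u p → 2 ≤ T →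
      K + 3 < L → ∀ s ∈ Icc (T - 1) (T - q ^ 2), ∀ x ∈ ball (0 : V) (K + 1),
        ST 0 (u s) x ≤ D ∧ ST 1 (u s) x ≤ D ∧ ST 2 (u s) x ≤ D ∧ SV 1 (u s) x ≤ D := by
  obtain ⟨ε, hε, C, CA, hC, hCA, hfix⟩ := fixP
  obtain ⟨CM, hCM, hmol⟩ := moll3
  obtain ⟨CT, hCT, htf⟩ := tf_ints
  obtain ⟨N, χ, hN, hcut⟩ := exists_cut (show 0 < K + 2 by linarith)
    (show K + 2 < K + 2 + 1 by linarith)
  obtain ⟨U, hUd⟩ : ∃ U, U = 3 * (M / q) ^ 2 := ⟨_, rfl⟩
  obtain ⟨P, hPd⟩ : ∃ P, P = (M / q) ^ 2 := ⟨_, rfl⟩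
  have hU : 0 < U := by rw [hUd]; positivity
  have hP : 0 < P := by rw [hPd]; positivity
  obtain ⟨W, hWd⟩ : ∃ W, W = U * 8 + (U * CT + (U + 2 * P) * √U * CT) := ⟨_, rfl⟩
  have hW : 0 < W := by rw [hWd]; positivity
  obtain ⟨k, hk⟩ : ∃ k : ℕ, 16 * W / ε + M / q < 2 ^ k := pow_unbounded_of_one_lt _ one_lt_two
  have k1 : 16 * W / ε ≤ 2 ^ k := by
    have : 0 < M / q := by positivity
    linarith
  have k2 : M / q ≤ 2 ^ k := by
    have : 0 < 16 * W / ε := by positivity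
    linarith
  have hrr := two_rr k
  have hrr0 := rr_pos' k
  have p2 : (0 : ℝ) < 2 ^ k := by positivity
  have p21 : (1 : ℝ) ≤ 2 ^ k := one_le_pow₀ (by norm_num)
  have e4 : (4 : ℝ) ^ k = 2 ^ k * 2 ^ k := by rw [← mul_pow]; norm_num
  have e8 : (8 : ℝ) ^ k = 2 ^ k * 2 ^ k * 2 ^ k := by rw [← mul_pow, ← mul_pow]; norm_num
  have hrr1 : rr k ≤ 1 := by
    have := mul_le_mul_of_nonneg_right p21 hrr0.le
    linarith
  obtain ⟨r, hr⟩ : ∃ r, r = rr k / 32 := ⟨_, rfl⟩
  have hr0 : 0 < r := by rw [hr]; positivity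
  have hr1 : r ≤ 1 / 32 := by rw [hr]; linarith
  have hr2 : 0 < r ^ 2 := by positivity
  have hrM : M / q * r ≤ 1 / 2 := by
    have : M / q * rr k ≤ 2 ^ k * rr k := mul_le_mul_of_nonneg_right k2 hrr0.le
    rw [hr]
    linarith
  have hr1' : r ^ 2 < 1 := by nlinarith
  refine ⟨C 0 / r ^ 4 + C 1 / r ^ 6 + C 2 / r ^ 8
    + C 1 * (1 + CA * r⁻¹ * (U * (2 * (5 * r)) ^ 3)) / r ^ 4, ?_, ?_⟩
  · have := hC 0
    have := hC 1
    have := hC 2
    positivity
  intro T L u p h hT hL s hs x hx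
  have hLs := h.lsol (R := K + 2) hcut hN (by linarith) (by linarith)
  have hs0 : 0 < s - r ^ 2 := by
    have := hs.1
    nlinarith
  have hsT : s < T := by
    have := hs.2
    have : 0 < q ^ 2 := by positivity
    linarith
  have hab : s - r ^ 2 < s := by linarith
  obtain ⟨Z, hZ, hZs⟩ := pth_exists hmol (Real.sqrt_nonneg _) (Real.sqrt_nonneg _) (lsol_three hLs) hr0
    hs0 hab hsT x
  have hxn : ‖x‖ < K + 1 := by simpa using hx
  -- the displacement
  have hsub : ∀ t ∈ Icc (s - r ^ 2) s, t ∈ Ioo 0 T := fun t ht => ⟨hs0.trans_le ht.1, ht.2.trans_lt hsT⟩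
  have hcb : ∀ t ∈ Icc (s - r ^ 2) s, ∀ y, ‖cu χ u t y‖ ≤ M / q := by
    intro t ht y
    rw [pi_norm_le_iff_of_nonneg (by positivity)]
    intro i
    unfold cu
    rw [norm_mul, Real.norm_of_nonneg (hcut.nn y)]
    by_cases hy : χ y = 0
    · rw [hy, zero_mul]; positivity
    · have hyL : y ∈ ball (0 : V) L := ball_subset_ball (by linarith) (cut_ball hcut hy)
      have h1 := (h.u_bd (hsub t ht) hyL hq (ht.2.trans hs.2)).1
      have h2 := norm_le_pi_norm (u t y) i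
      have h3 := hcut.le y
      have h4 := hcut.nn y
      have h5 := norm_nonneg (u t y i)
      nlinarith
  have hcc : ∀ t ∈ Icc (s - r ^ 2) s, Continuous (cu χ u t) := by
    intro t ht
    apply continuous_pi
    intro i
    exact hcut.sm.continuous.mul (h.sl (hsub t ht) i).continuous
  have hdis : ∀ t ∈ Icc (s - r ^ 2) s, ‖Z t - x‖ ≤ r / 2 := by
    have h1 : ∀ t ∈ Ioo (s - r ^ 2) s, ‖Z t - x‖ ≤ r / 2 := by
      intro t ht
      have h2 := pth_speed hZ (M := M / q) (fun τ hτ y =>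
        mol_bd r (hcc τ (Ioo_subset_Icc_self hτ)) (by positivity) (hcb τ (Ioo_subset_Icc_self hτ)) y)
        (a := t) (b := s) ht.1 ht.2.le le_rfl
      rw [hZs, ← norm_neg, neg_sub] at h2
      refine h2.trans ?_
      have h3 : s - t ≤ r ^ 2 := by linarith [ht.1]
      calc M / q * (s - t) ≤ M / q * r ^ 2 := mul_le_mul_of_nonneg_left h3 (by positivity)
        _ = (M / q * r) * r := by ring
        _ ≤ 1 / 2 * r := mul_le_mul_of_nonneg_right hrM hr0.le
        _ = r / 2 := by ring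
    have hcl : Icc (s - r ^ 2) s = closure (Ioo (s - r ^ 2) s) := (closure_Ioo hab.ne).symm
    intro t ht
    have hcont : ContinuousOn (fun t => ‖Z t - x‖) (closure (Ioo (s - r ^ 2) s)) := by
      rw [← hcl]
      exact (hZ.cont.sub continuousOn_const).norm
    exact le_on_closure (f := fun t => ‖Z t - x‖) (g := fun _ => r / 2) h1 hcont
      continuousOn_const (hcl ▸ ht)
  have hb1 : ∀ t ∈ Icc (s - r ^ 2) s, ball (Z t) (8 * r) ⊆ ball (0 : V) (K + 2) := by
    intro t ht y hy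
    rw [mem_ball, dist_zero_right]
    rw [mem_ball, dist_eq_norm] at hy
    have h1 := hdis t ht
    calc ‖y‖ = ‖(y - Z t) + (Z t - x) + x‖ := by congr 1; abel
      _ ≤ ‖y - Z t‖ + ‖Z t - x‖ + ‖x‖ := norm_add₃_le
      _ < K + 2 := by linarith
  have hb2 : ∀ t ∈ Icc (s - r ^ 2) s, ball (Z t) (8 * r) ⊆ ball x (rr (k + 1)) := by
    intro t ht y hy
    rw [mem_ball, dist_eq_norm] at hy ⊢
    have h1 := hdis t ht
    have e : rr (k + 1) = 16 * r := by
      rw [hr]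
      unfold rr
      rw [pow_succ]
      ring
    calc ‖y - x‖ = ‖(y - Z t) + (Z t - x)‖ := by congr 1; abel
      _ ≤ ‖y - Z t‖ + ‖Z t - x‖ := norm_add_le _ _
      _ < _ := by rw [e]; linarith
  -- the dissipation
  have hsupp : ∀ z, tf k x z ≠ 0 → z ∈ ball (0 : V) L := by
    intro z hz
    have h1 : z ∈ ball x (rr k) := by
      by_contra hcon
      exact hz (tf_zero k x z hcon)
    rw [mem_ball, dist_eq_norm] at h1
    rw [mem_ball, dist_zero_right]
    calc ‖z‖ = ‖(z - x) + x‖ := by congr 1; abel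
      _ ≤ ‖z - x‖ + ‖x‖ := norm_add_le _ _
      _ < L := by linarith
  have hcac := h.cac (tf_smooth k x) hsupp (tf_nonneg k x) (a := s - r ^ 2) (b := s) (U := U) (P := P)
    hs0 hab.le hsT hU.le hP.le
    (fun z hz => by
      have := (h.u_bd (hsub (s - r ^ 2) ⟨le_rfl, hab.le⟩) (hsupp z hz) hq (by linarith [hs.2])).2.1
      rw [hUd]; exact this)
    (fun t ht z hz => by
      have hzb : z ∈ ball (0 : V) L := by
        have h1 : z ∈ ball x (rr k) := by
          by_contra hcon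
          rcases hz with hz | ⟨j, hz⟩
          · exact hz (lap_tf_zero k x hcon)
          · exact hz (pd_tf_zero k x j hcon)
        rw [mem_ball, dist_eq_norm] at h1
        rw [mem_ball, dist_zero_right]
        calc ‖z‖ = ‖(z - x) + x‖ := by congr 1; abel
          _ ≤ ‖z - x‖ + ‖x‖ := norm_add_le _ _
          _ < L := by linarith
      have := (h.u_bd (hsub t ht) hzb hq (ht.2.trans hs.2)).2
      rw [hUd, hPd]; exact this)
    (tf_int_le k x) (htf k x).1 (htf k x).2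
  have hcac2 : ∫ t in (s - r ^ 2)..s, ∫ z, gsq (u t) z * tf k x z ≤ W / 2 := by
    have h0 : s - (s - r ^ 2) = r ^ 2 := by ring
    rw [h0] at hcac
    have h1 : r ^ 2 * 4 ^ k ≤ 1 := by
      rw [e4, hr]
      have : (rr k / 32) ^ 2 * (2 ^ k * 2 ^ k) = (2 ^ k * rr k) ^ 2 / 1024 := by ring
      rw [this, hrr]
      norm_num
    have h2 : r ^ 2 * 2 ^ k ≤ 1 := by
      refine le_trans ?_ h1
      apply mul_le_mul_of_nonneg_left _ hr2.le
      rw [e4]
      nlinarith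
    have h3 : r ^ 2 * (U * (CT * 4 ^ k) + (U + 2 * P) * √U * (CT * 2 ^ k))
        ≤ U * CT + (U + 2 * P) * √U * CT := by
      have a1 : 0 ≤ U * CT := by positivity
      have a2 : 0 ≤ (U + 2 * P) * √U * CT := by positivity
      calc r ^ 2 * (U * (CT * 4 ^ k) + (U + 2 * P) * √U * (CT * 2 ^ k))
          = (U * CT) * (r ^ 2 * 4 ^ k) + ((U + 2 * P) * √U * CT) * (r ^ 2 * 2 ^ k) := by ring
        _ ≤ (U * CT) * 1 + ((U + 2 * P) * √U * CT) * 1 :=
            add_le_add (mul_le_mul_of_nonneg_left h1 a1) (mul_le_mul_of_nonneg_left h2 a2)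
        _ = _ := by ring
    rw [hWd]
    linarith
  have hms : ms (cu χ u) r Z (s - r ^ 2) s ≤ ε := by
    unfold ms
    have jg : ContinuousOn (fun t => ∫ z, gsq (u t) z * tf k x z) (Ioo 0 T) := by
      refine ct_int (R := L) (F := fun t z => gsq (u t) z * tf k x z) ?_ ?_
      · have jg : J T (fun s z => gsq (u s) z) := by
          unfold gsq
          exact ContDiffOn.sum fun i _ => ContDiffOn.sum fun j _ => ContDiffOn.pow ((h.ju i).pd j) 2
        exact jg.mul (J.space (tf_smooth k x))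
      · intro t _ z hz
        have : tf k x z = 0 := by
          by_contra hcon
          exact hz (ball_subset_closedBall (hsupp z hcon))
        rw [this, mul_zero]
    have i1 : IntervalIntegrable (fun t => (8 ^ k)⁻¹ * ∫ z, gsq (u t) z * tf k x z) volume
        (s - r ^ 2) s := by
      apply ContinuousOn.intervalIntegrable
      rw [uIcc_of_le hab.le]
      exact continuousOn_const.mul (jg.mono hsub)
    have h1 : ∫ τ in (s - r ^ 2)..s, B2 (Z τ) (8 * r) (cu χ u τ)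
        ≤ ∫ τ in (s - r ^ 2)..s, (8 ^ k)⁻¹ * ∫ z, gsq (u τ) z * tf k x z := by
      apply intervalIntegral.integral_mono_on hab.le
        (B2_ii hLs.smooth_u hs0 hsT hZ.cont _ le_rfl hab.le le_rfl) i1
      intro t ht
      exact h.B2_le hcut (by linarith) (hsub t ht) k (hb1 t ht) (hb2 t ht)
    rw [intervalIntegral.integral_const_mul] at h1
    have h2 : r⁻¹ * ∫ τ in (s - r ^ 2)..s, B2 (Z τ) (8 * r) (cu χ u τ)
        ≤ r⁻¹ * ((8 ^ k)⁻¹ * (W / 2)) := by
      apply mul_le_mul_of_nonneg_left _ (by positivity)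
      exact h1.trans (mul_le_mul_of_nonneg_left hcac2 (by positivity))
    refine h2.trans ?_
    have h3 : r⁻¹ = 32 * 2 ^ k := by
      apply inv_eq_of_mul_eq_one_left
      rw [hr]
      linarith
    rw [h3, e8]
    have h4 : 32 * (2 : ℝ) ^ k * ((2 ^ k * 2 ^ k * 2 ^ k)⁻¹ * (W / 2)) = 16 * W / (2 ^ k * 2 ^ k) := by
      field_simp
      ring
    rw [h4, div_le_iff₀ (by positivity)]
    rw [div_le_iff₀ hε] at k1
    have : 2 ^ k * ε ≤ ε * (2 ^ k * 2 ^ k) := by nlinarith [mul_pos p2 hε]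
    linarith
  have hfx := hfix T _ _ (ball (0 : V) (K + 2)) (cu χ u) (cp χ p) hLs r s hr0 (by linarith) hsT Z hZ
    (fun t ht => hb1 t (Ioo_subset_Icc_self ht)) hms 0 (by simp)
  rw [hZs, smul_zero, add_zero] at hfx
  have hxO : x ∈ ball (0 : V) (K + 2) := ball_subset_ball (by linarith) hx
  have eST : ∀ n, ST n (cu χ u s) x = ST n (u s) x := by
    intro n
    unfold TH305.DR.ST
    refine Finset.sum_congr rfl fun pp _ => ?_
    refine SS_congr_open n isOpen_ball (fun y hy => ?_) hxO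
    unfold Om
    rw [cu_pd hcut hy, cu_pd hcut hy]
  have eSV : SV 1 (cu χ u s) x = SV 1 (u s) x := by
    unfold SV
    refine Finset.sum_congr rfl fun i _ => ?_
    exact SS_congr_open 1 isOpen_ball (fun y hy => cu_eq hcut hy s i) hxO
  have hA2 : A2 x (5 * r) (cu χ u s) ≤ U * (2 * (5 * r)) ^ 3 := by
    unfold A2
    have h1 : ∫ z in ball x (5 * r), nsq (cu χ u s) z ≤ ∫ _z in ball x (5 * r), U := by
      have hsi : ∀ i, ContDiff ℝ ∞ (fun y => cu χ u s y i) := fun i =>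
        hcut.sm.mul (h.sl (hsub s ⟨hab.le, le_rfl⟩) i)
      apply setIntegral_mono (Pool.Agent.W386.MD.iob (nsq_cont hsi) _ _)
        (Pool.Agent.W386.MD.iob continuous_const _ _)
      intro z
      have h2 := nsq_le (cu χ u s) z
      have h3 := hcb s ⟨hab.le, le_rfl⟩ z
      have h4 : ‖cu χ u s z‖ ^ 2 ≤ (M / q) ^ 2 := pow_le_pow_left₀ (norm_nonneg _) h3 2
      show nsq (cu χ u s) z ≤ U
      rw [hUd]
      linarith
    refine h1.trans (le_of_eq ?_)
    rw [setIntegral_const, Measure.real, Real.volume_pi_ball _ (by positivity), smul_eq_mul,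
      ENNReal.toReal_ofReal (by positivity)]
    simp only [Fintype.card_fin]
    ring
  have f0 := (hfx 0).1
  have f1 := (hfx 1).1
  have f2 := (hfx 2).1
  have f3 := (hfx 0).2
  rw [eST] at f0 f1 f2
  norm_num at f0 f1 f2 f3
  rw [eSV] at f3
  have g0 : ST 0 (u s) x ≤ C 0 / r ^ 4 := by rw [le_div_iff₀ (by positivity)]; linarith
  have g1 : ST 1 (u s) x ≤ C 1 / r ^ 6 := by rw [le_div_iff₀ (by positivity)]; linarith
  have g2 : ST 2 (u s) x ≤ C 2 / r ^ 8 := by rw [le_div_iff₀ (by positivity)]; linarith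
  have g3 : SV 1 (u s) x ≤ C 1 * (1 + CA * r⁻¹ * (U * (2 * (5 * r)) ^ 3)) / r ^ 4 := by
    rw [le_div_iff₀ (by positivity), mul_comm]
    refine f3.trans ?_
    have := hC 1
    apply mul_le_mul_of_nonneg_left _ this.le
    have : CA * r⁻¹ * A2 x (5 * r) (cu χ u s) ≤ CA * r⁻¹ * (U * (2 * (5 * r)) ^ 3) :=
      mul_le_mul_of_nonneg_left hA2 (by positivity)
    linarith
  have n0 : 0 ≤ C 0 / r ^ 4 := by have := hC 0; positivity
  have n1 : 0 ≤ C 1 / r ^ 6 := by have := hC 1; positivity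
  have n2 : 0 ≤ C 2 / r ^ 8 := by have := hC 2; positivity
  have n3 : 0 ≤ C 1 * (1 + CA * r⁻¹ * (U * (2 * (5 * r)) ^ 3)) / r ^ 4 := by
    have := hC 1; positivity
  exact ⟨by linarith, by linarith, by linarith, by linarith⟩

end Pool.Agent.V1183.PM
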