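import Pool.Agent.V1183.PM.Scal

/-!
Monotone pressure (helper83): the iteration.
-/

set_option autoImplicit false

open MeasureTheory Set Metric Filter Topology
open scoped ContDiff ENNReal

namespace Pool.Agent.V1183.PM

open H459R3.NS W221.NS
open Pool.Agent.TH305.DR (Om SS ST_nonneg)

/-- The hypotheses on a time window. -/
structure Win (ε M M' c σ τ T L : ℝ) (f : ℝ → ℝ) (u : ℝ → V → V) (p Φ : ℝ → V → ℝ) : Prop where
  tg : TG M T L u p
  σ0 : 0 < σ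
  στ : σ ≤ ε * τ
  τT : 2 * τ ≤ T
  L0 : 0 < L
  τL : τ ≤ ε * L ^ 2
  cΦ : C12 T Φ
  Φb : ∀ t ∈ Icc (T - τ) (T - σ), ∀ x ∈ ball (0 : V) L, q2 x ≤ (T - t) / ε ^ 2 → |Φ t x| ≤ M'
  cf : Continuous f
  f0 : ∀ t ∈ Icc (T - τ) (T - σ), 0 ≤ f t
  LLb : ∀ t ∈ Icc (T - τ) (T - σ), ∀ x ∈ ball (0 : V) L, q2 x ≤ (T - t) / ε ^ 2 →
    LL u (fun t x => HH T u t x + Φ t x) t x
      ≤ f t - c * ((T - t) * Pool.Agent.TH305.DR.ST 0 (u t) x)
  fi : ∫ t in (T - τ)..(T - σ), f t ≤ ε * Real.log (τ / σ)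

lemma q2_smul (μ : ℝ) (x : V) : q2 (μ • x) = μ ^ 2 * q2 x := by
  unfold q2
  rw [Finset.mul_sum]
  refine Finset.sum_congr rfl fun i _ => ?_
  rw [Pi.smul_apply, smul_eq_mul]
  ring

/-- The number of steps. -/
lemma exists_N {Q σ τ : ℝ} (hQ1 : Q < 1) (hσ : 0 < σ) (hστ : σ ≤ τ) :
    ∃ N : ℕ, σ ≤ τ * Q ^ N ∧ τ * Q ^ (N + 1) < σ := by
  have hτ : 0 < τ := hσ.trans_le hστ
  have hex : ∃ n : ℕ, τ * Q ^ n < σ := by
    obtain ⟨n, hn⟩ := exists_pow_lt_of_lt_one (show 0 < σ / τ by positivity) hQ1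
    refine ⟨n, ?_⟩
    rw [lt_div_iff₀ hτ] at hn
    linarith
  classical
  have h1 := Nat.find_spec hex
  have h2 : Nat.find hex ≠ 0 := by
    intro h0
    rw [h0] at h1
    simp at h1
    linarith
  obtain ⟨N, hN⟩ := Nat.exists_eq_succ_of_ne_zero h2
  refine ⟨N, ?_, ?_⟩
  · have := Nat.find_min hex (show N < Nat.find hex by omega)
    exact not_lt.1 this
  · rw [hN] at h1
    exact h1

section
variable {ε M M' c σ τ T L : ℝ} {f : ℝ → ℝ} {u : ℝ → V → V} {p Φ : ℝ → V → ℝ}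

/-- The hypotheses of a block. -/
lemma Win.hy (h : Win ε M M' c σ τ T L f u p Φ) (hc : 0 < c) {q R θ : ℝ} (hq : 0 < q)
    (hq1 : q ≤ 1 / 2) (hR : 0 < R) (hε : 0 < ε) (hεR : ε * R ≤ q) (hR2 : ε * R ^ 2 < 1) (hθ : 0 < θ)
    (hθτ : θ ≤ τ) (hσθ : σ ≤ q ^ 2 * θ) :
    Hy M M' c q (T / √θ ^ 2) (L / √θ) R (fun t => √θ ^ 2 * f (√θ ^ 2 * t)) (scu √θ u)
      (scf (√θ ^ 2) √θ p) (scf 1 √θ Φ) := by
  have hμ : 0 < √θ := Real.sqrt_pos.2 hθ
  have hs : √θ ^ 2 = θ := Real.sq_sqrt hθ.le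
  have hτ : 0 < τ := hθ.trans_le hθτ
  have hRθ : R * √θ < L := by
    have h1 : (R * √θ) ^ 2 < L ^ 2 := by
      rw [mul_pow, hs]
      have h2 := h.τL
      have h3 : 0 < L ^ 2 := by have := h.L0; positivity
      calc R ^ 2 * θ ≤ R ^ 2 * (ε * L ^ 2) := by
            apply mul_le_mul_of_nonneg_left _ (by positivity)
            linarith
        _ = (ε * R ^ 2) * L ^ 2 := by ring
        _ < 1 * L ^ 2 := mul_lt_mul_of_pos_right hR2 h3
        _ = L ^ 2 := one_mul _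
    exact lt_of_pow_lt_pow_left₀ 2 h.L0.le h1
  have hwin : ∀ t ∈ Icc (T / √θ ^ 2 - 1) (T / √θ ^ 2 - q ^ 2), ∀ x, q2 x ≤ R ^ 2 →
      √θ ^ 2 * t ∈ Icc (T - τ) (T - σ) ∧ q2 (√θ • x) ≤ (T - √θ ^ 2 * t) / ε ^ 2 ∧
        t ∈ Ioo 0 (T / √θ ^ 2) ∧ √θ • x ∈ ball (0 : V) L := by
    intro t ht x hx
    have hxL : √θ • x ∈ ball (0 : V) L := by
      refine mem_of_q2 (R := R * √θ) (by positivity) ?_ hRθ
      rw [q2_smul, mul_pow]
      nlinarith [sq_nonneg (√θ)]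
    rw [hs] at ht
    rw [hs]
    have e1 : θ * t ≤ T - q ^ 2 * θ := by
      have := mul_le_mul_of_nonneg_left ht.2 hθ.le
      rw [mul_sub, mul_div_cancel₀ _ hθ.ne'] at this
      linarith
    have e2 : T - θ ≤ θ * t := by
      have := mul_le_mul_of_nonneg_left ht.1 hθ.le
      rw [mul_sub, mul_div_cancel₀ _ hθ.ne'] at this
      linarith
    have hq2 : 0 < q ^ 2 := by positivity
    refine ⟨⟨by linarith, by linarith⟩, ?_, ⟨?_, ?_⟩, hxL⟩
    · rw [q2_smul, hs, le_div_iff₀ (by positivity)]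
      have h1 : ε ^ 2 * R ^ 2 ≤ q ^ 2 := by
        rw [← mul_pow]
        exact pow_le_pow_left₀ (by positivity) hεR 2
      calc θ * q2 x * ε ^ 2 ≤ θ * R ^ 2 * ε ^ 2 := by gcongr
        _ = θ * (ε ^ 2 * R ^ 2) := by ring
        _ ≤ θ * q ^ 2 := mul_le_mul_of_nonneg_left h1 hθ.le
        _ ≤ T - θ * t := by linarith
    · have h1 : 0 < θ * t := by
        have := h.τT
        linarith
      exact (mul_pos_iff_of_pos_left hθ).1 h1
    · linarith [ht.2]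
  have hT2 : 2 ≤ T / √θ ^ 2 := by
    rw [hs, le_div_iff₀ hθ]
    have := h.τT
    linarith
  refine ⟨TG.sc hμ h.tg, hT2, hq, hq1, hc, hR, ?_, h.cΦ.sc 1 hμ, ?_, ?_, ?_, ?_⟩
  · rw [lt_div_iff₀ hμ]
    exact hRθ
  · intro t ht x hx
    obtain ⟨h1, h2, -, h4⟩ := hwin t ht x hx
    have := h.Φb _ h1 _ h4 h2
    unfold scf
    rw [one_mul]
    exact this
  · exact continuous_const.mul (h.cf.comp (by fun_prop))
  · intro t ht x hx
    obtain ⟨h1, h2, h3, h5⟩ := hwin t ht x hx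
    have h4 := h.LLb _ h1 _ h5 h2
    have e1 : (fun t x => HH (T / √θ ^ 2) (scu √θ u) t x + scf 1 √θ Φ t x)
        = scf 1 √θ (fun t x => HH T u t x + Φ t x) := by
      funext t x
      rw [HH_sc hμ]
      unfold scf
      ring
    have hC : C12 T (fun t x => HH T u t x + Φ t x) := h.tg.jHH.c12.add h.cΦ
    rw [e1, LL_sc hC 1 hμ h3, st_sc hμ h.tg h3]
    have e2 : √θ ^ 2 * f (√θ ^ 2 * t) - c * ((T / √θ ^ 2 - t) * (√θ ^ 4 *
        Pool.Agent.TH305.DR.ST 0 (u (√θ ^ 2 * t)) (√θ • x)))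
        = 1 * √θ ^ 2 * (f (√θ ^ 2 * t) - c * ((T - √θ ^ 2 * t) *
        Pool.Agent.TH305.DR.ST 0 (u (√θ ^ 2 * t)) (√θ • x))) := by
      field_simp
    rw [e2]
    exact mul_le_mul_of_nonneg_left h4 (by positivity)
  · intro t ht
    obtain ⟨h1, -, -, -⟩ := hwin t ht 0 (by rw [q2_zero]; positivity)
    have := h.f0 _ h1
    positivity

/-- One block in the original coordinates. -/
def Stp (ε₁ R : ℝ) (T : ℝ) (u : ℝ → V → V) (Φ : ℝ → V → ℝ) (θ m : ℝ) : Prop :=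
  ∀ x, q2 x ≤ R ^ 2 * θ → HH T u (T - θ) x + Φ (T - θ) x ≤ m + ε₁ * (q2 x / θ)

end

theorem core {M M' c : ℝ} (hM : 0 < M) (hM' : 0 ≤ M') (hc : 0 < c) :
    ∃ ε : ℝ, 0 < ε ∧ ∀ (σ τ T L : ℝ) (f : ℝ → ℝ) (u : ℝ → V → V) (p Φ : ℝ → V → ℝ),
      Win ε M M' c σ τ T L f u p Φ → ¬ Sing T u 0 := by
  obtain ⟨q, K, z, hq, hq1, hK, hz, hreg⟩ := reg hM
  have hK0 : 0 < K := by linarith
  obtain ⟨η, hη, hη1, hpers⟩ := pers (z := z / 2) hM hq hq1 hK0 (by positivity)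
  obtain ⟨ε₁, δ, R, hε₁, hδ, hR, hblock⟩ := block (z := z / 2) hM hM' hc hq hq1 hK hη hη1
    (by positivity)
  have hR0 : 0 < R := by linarith
  obtain ⟨k1, k2, k3⟩ := q_sq hq hq1
  have hq21 : q ^ 2 < 1 := by linarith
  obtain ⟨Λ, hΛ⟩ : ∃ Λ, Λ = Real.log (1 / q ^ 2) := ⟨_, rfl⟩
  have hΛ0 : 0 < Λ := by
    rw [hΛ]
    apply Real.log_pos
    rw [lt_div_iff₀ k1]
    linarith
  obtain ⟨A, hA⟩ : ∃ A, A = 3 * M ^ 2 + 3 * M + M' + M' := ⟨_, rfl⟩
  have hA0 : 0 < A := by rw [hA]; positivity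
  obtain ⟨ε, hε, e1, e2, e3, e4⟩ : ∃ ε : ℝ, 0 < ε ∧ ε * (R + K + 3) ^ 2 < 1 ∧ ε * R ≤ q ∧
      ε * Λ ≤ δ / 2 ∧ ε ≤ Real.exp (-((2 * A / δ + 3) * Λ)) := by
    refine ⟨min (min (1 / (2 * (R + K + 3) ^ 2)) (q / R)) (min (δ / 2 / Λ)
      (Real.exp (-((2 * A / δ + 3) * Λ)))), by positivity, ?_, ?_, ?_, ?_⟩
    · have h1 : min (min (1 / (2 * (R + K + 3) ^ 2)) (q / R)) (min (δ / 2 / Λ)
        (Real.exp (-((2 * A / δ + 3) * Λ)))) ≤ 1 / (2 * (R + K + 3) ^ 2) :=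
        (min_le_left _ _).trans (min_le_left _ _)
      have h2 : 0 < (R + K + 3) ^ 2 := by positivity
      calc _ ≤ 1 / (2 * (R + K + 3) ^ 2) * (R + K + 3) ^ 2 := mul_le_mul_of_nonneg_right h1 h2.le
        _ = 1 / 2 := by field_simp
        _ < 1 := by norm_num
    · rw [← le_div_iff₀ hR0]
      exact (min_le_left _ _).trans (min_le_right _ _)
    · rw [← le_div_iff₀ hΛ0]
      exact (min_le_right _ _).trans (min_le_left _ _)
    · exact (min_le_right _ _).trans (min_le_right _ _)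
  have hε1 : ε < 1 := by
    have : (1 : ℝ) ≤ (R + K + 3) ^ 2 := by nlinarith
    nlinarith
  refine ⟨ε, hε, ?_⟩
  intro σ τ T L f u p Φ h hsing
  have hσ := h.σ0
  have hτ : 0 < τ := by
    by_contra hcon
    have : ε * τ ≤ 0 := mul_nonpos_of_nonneg_of_nonpos hε.le (not_lt.1 hcon)
    linarith [h.στ]
  have hστ : σ ≤ τ := by
    have := h.στ
    nlinarith
  have hT : 0 < T := by linarith [h.τT]
  have hR2 : ε * R ^ 2 < 1 := by
    refine lt_of_le_of_lt ?_ e1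
    apply mul_le_mul_of_nonneg_left _ hε.le
    apply pow_le_pow_left₀ hR0.le
    linarith
  -- one step
  have hstep : ∀ θ m : ℝ, 0 < θ → θ ≤ τ → σ ≤ q ^ 2 * θ → Stp ε₁ R T u Φ θ m →
      Stp ε₁ R T u Φ (q ^ 2 * θ) (m - δ + ∫ t in (T - θ)..(T - q ^ 2 * θ), f t) := by
    intro θ m hθ hθτ hσθ hm
    have hμ : 0 < √θ := Real.sqrt_pos.2 hθ
    have hs : √θ ^ 2 = θ := Real.sq_sqrt hθ.le
    have hy := h.hy hc hq hq1 hR0 hε e2 hR2 hθ hθτ hσθ
    have hLK : K + 3 < L / √θ := by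
      rw [lt_div_iff₀ hμ]
      have h1 : ((K + 3) * √θ) ^ 2 < L ^ 2 := by
        rw [mul_pow, hs]
        have h2 := h.τL
        have h3 : 0 < L ^ 2 := by have := h.L0; positivity
        calc (K + 3) ^ 2 * θ ≤ (K + 3) ^ 2 * (ε * L ^ 2) := by
              apply mul_le_mul_of_nonneg_left _ (by positivity)
              linarith
          _ ≤ (R + K + 3) ^ 2 * (ε * L ^ 2) := by
              apply mul_le_mul_of_nonneg_right _ (by positivity)
              apply pow_le_pow_left₀ (by positivity)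
              linarith
          _ = (ε * (R + K + 3) ^ 2) * L ^ 2 := by ring
          _ < 1 * L ^ 2 := mul_lt_mul_of_pos_right e1 h3
          _ = L ^ 2 := one_mul _
      exact lt_of_pow_lt_pow_left₀ 2 h.L0.le h1
    have hsrc : ∃ t₁ ∈ Icc (T / √θ ^ 2 - 1) (T / √θ ^ 2 - q), ∃ x₁ : V, ‖x₁‖ ≤ K ∧
        ∀ t ∈ Icc t₁ (t₁ + η), ∀ x ∈ closedBall x₁ η,
          z / 2 ≤ Pool.Agent.TH305.DR.ST 0 (scu √θ u t) x := by
      by_contra hcon
      apply hreg _ _ _ _ hy.tg hy.T2 hLK _ (sing_sc hμ hsing)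
      intro t ht x hx
      by_contra hcon2
      rw [not_le] at hcon2
      exact hcon ⟨t, ht, x, hx, hpers _ _ _ _ hy.tg hy.T2 hLK t ht x hx (by linarith)⟩
    have hb := hblock _ _ _ _ _ _ hy hsrc m
    have eT1 : √θ ^ 2 * (T / √θ ^ 2 - 1) = T - θ := by
      rw [hs]
      field_simp
    have eT2 : √θ ^ 2 * (T / √θ ^ 2 - q ^ 2) = T - q ^ 2 * θ := by
      rw [hs]
      field_simp
    have hb2 := hb (by
      intro x hx
      rw [HH_sc hμ]
      unfold scf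
      rw [one_mul, eT1]
      have h1 := hm (√θ • x) (by
        rw [q2_smul, hs, mul_comm]
        exact mul_le_mul_of_nonneg_right hx hθ.le)
      rw [q2_smul, hs, mul_div_cancel_left₀ _ hθ.ne'] at h1
      exact h1)
    intro x hx
    have h1 := hb2 ((√θ)⁻¹ • x) (by
      rw [q2_smul, inv_pow, hs]
      rw [inv_mul_le_iff₀ hθ]
      linarith)
    rw [HH_sc hμ] at h1
    unfold scf at h1
    rw [one_mul, eT2, smul_smul, mul_inv_cancel₀ hμ.ne', one_smul, q2_smul, inv_pow] at h1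
    have eI : ∫ t in (T / √θ ^ 2 - 1)..(T / √θ ^ 2 - q ^ 2), √θ ^ 2 * f (√θ ^ 2 * t)
        = ∫ t in (T - θ)..(T - q ^ 2 * θ), f t := by
      rw [intervalIntegral.integral_const_mul, intervalIntegral.mul_integral_comp_mul_left, eT1, eT2]
    rw [eI, hs] at h1
    refine h1.trans (le_of_eq ?_)
    field_simp
  -- the iteration
  have hit : ∀ n : ℕ, σ ≤ τ * (q ^ 2) ^ n → Stp ε₁ R T u Φ (τ * (q ^ 2) ^ n)
      (3 * M ^ 2 + 3 * M + M' - n * δ + ∫ t in (T - τ)..(T - τ * (q ^ 2) ^ n), f t) := by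
    intro n
    induction n with
    | zero =>
      intro _
      rw [pow_zero, mul_one, intervalIntegral.integral_same]
      intro x hx
      have ht : T - τ ∈ Ioo 0 T := ⟨by linarith [h.τT], by linarith⟩
      have hxL : x ∈ ball (0 : V) L := by
        refine mem_of_q2 (R := R * √τ) (by positivity) ?_ ?_
        · rw [mul_pow, Real.sq_sqrt hτ.le]
          exact hx
        · have h1 : (R * √τ) ^ 2 < L ^ 2 := by
            rw [mul_pow, Real.sq_sqrt hτ.le]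
            have h3 : 0 < L ^ 2 := by have := h.L0; positivity
            calc R ^ 2 * τ ≤ R ^ 2 * (ε * L ^ 2) :=
                  mul_le_mul_of_nonneg_left h.τL (by positivity)
              _ = (ε * R ^ 2) * L ^ 2 := by ring
              _ < 1 * L ^ 2 := mul_lt_mul_of_pos_right hR2 h3
              _ = L ^ 2 := one_mul _
          exact lt_of_pow_lt_pow_left₀ 2 h.L0.le h1
      have h1 := h.tg.HH_le ht hxL
      have h2 := h.Φb (T - τ) ⟨le_rfl, by linarith⟩ x hxL (by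
        rw [sub_sub_cancel, le_div_iff₀ (by positivity)]
        have h3 : ε ^ 2 * R ^ 2 ≤ 1 := by
          rw [← mul_pow]
          apply pow_le_one₀ (by positivity)
          linarith
        calc q2 x * ε ^ 2 ≤ R ^ 2 * τ * ε ^ 2 := mul_le_mul_of_nonneg_right hx (by positivity)
          _ = (ε ^ 2 * R ^ 2) * τ := by ring
          _ ≤ 1 * τ := mul_le_mul_of_nonneg_right h3 hτ.le
          _ = τ := one_mul _)
      have h3 : 0 ≤ ε₁ * (q2 x / τ) := by
        have := q2_nonneg x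
        positivity
      have h4 := (abs_le.1 h2).2
      push_cast
      linarith
    | succ n ih =>
      intro hn
      have hQn : 0 < τ * (q ^ 2) ^ n := by positivity
      have e0 : τ * (q ^ 2) ^ (n + 1) = q ^ 2 * (τ * (q ^ 2) ^ n) := by ring
      have hn' : σ ≤ τ * (q ^ 2) ^ n := by
        refine hn.trans ?_
        rw [e0]
        exact mul_le_of_le_one_left hQn.le k3
      have hQτ : τ * (q ^ 2) ^ n ≤ τ := by
        apply mul_le_of_le_one_right hτ.le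
        exact pow_le_one₀ k1.le k3
      have h1 := hstep _ _ hQn hQτ (by rw [← e0]; exact hn) (ih hn')
      rw [e0]
      have e5 : (3 * M ^ 2 + 3 * M + M' - n * δ + ∫ t in (T - τ)..(T - τ * (q ^ 2) ^ n), f t) - δ
          + ∫ t in (T - τ * (q ^ 2) ^ n)..(T - q ^ 2 * (τ * (q ^ 2) ^ n)), f t
          = 3 * M ^ 2 + 3 * M + M' - ((n + 1 : ℕ) : ℝ) * δ
            + ∫ t in (T - τ)..(T - q ^ 2 * (τ * (q ^ 2) ^ n)), f t := by
        rw [← intervalIntegral.integral_add_adjacent_intervals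
          (h.cf.intervalIntegrable (T - τ) (T - τ * (q ^ 2) ^ n))
          (h.cf.intervalIntegrable (T - τ * (q ^ 2) ^ n) (T - q ^ 2 * (τ * (q ^ 2) ^ n)))]
        push_cast
        ring
      rw [← e5]
      exact h1
  obtain ⟨N, hN1, hN2⟩ := exists_N hq21 hσ hστ
  have hend := hit N hN1 0 (by rw [q2_zero]; positivity)
  have hθN : 0 < τ * (q ^ 2) ^ N := by positivity
  rw [q2_zero] at hend
  have h0 : 0 ≤ HH T u (T - τ * (q ^ 2) ^ N) 0 := TG.HH_zero (by linarith)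
  have hQτ : τ * (q ^ 2) ^ N ≤ τ := by
    apply mul_le_of_le_one_right hτ.le
    exact pow_le_one₀ k1.le k3
  have h1 := (abs_le.1 (h.Φb (T - τ * (q ^ 2) ^ N) ⟨by linarith, by linarith⟩ 0
    (by rw [mem_ball, dist_self]; exact h.L0) (by
    rw [q2_zero, sub_sub_cancel]; positivity))).1
  have h2 : ∫ t in (T - τ)..(T - τ * (q ^ 2) ^ N), f t ≤ ∫ t in (T - τ)..(T - σ), f t := by
    apply intervalIntegral.integral_mono_interval le_rfl (by linarith) (by linarith)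
    · filter_upwards [ae_restrict_mem measurableSet_Ioc] with t ht
      exact h.f0 t ⟨ht.1.le, ht.2⟩
    · exact h.cf.intervalIntegrable _ _
  have h3 := h.fi
  have hlog : Real.log (τ / σ) ≤ (N + 1) * Λ := by
    have e5 : τ / σ ≤ (1 / q ^ 2) ^ (N + 1) := by
      rw [div_le_iff₀ hσ, one_div, inv_pow]
      have h4 : 0 < (q ^ 2) ^ (N + 1) := by positivity
      rw [inv_mul_eq_div, le_div_iff₀ h4]
      exact hN2.le
    calc Real.log (τ / σ) ≤ Real.log ((1 / q ^ 2) ^ (N + 1)) :=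
          Real.log_le_log (by positivity) e5
      _ = (N + 1) * Λ := by
          rw [Real.log_pow, hΛ]
          push_cast
          ring
  have hlog2 : (2 * A / δ + 3) * Λ ≤ Real.log (τ / σ) := by
    have h4 : 1 / ε ≤ τ / σ := by
      rw [div_le_div_iff₀ hε hσ]
      linarith [h.στ]
    have h5 : Real.log (1 / ε) ≤ Real.log (τ / σ) := Real.log_le_log (by positivity) h4
    have h6 : (2 * A / δ + 3) * Λ ≤ Real.log (1 / ε) := by
      rw [one_div, Real.log_inv, le_neg]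
      rw [← Real.log_exp (-((2 * A / δ + 3) * Λ))]
      exact Real.log_le_log hε e4
    linarith
  have hN3 : 2 * A / δ + 3 ≤ N + 1 := by
    have := hlog2.trans hlog
    exact le_of_mul_le_mul_right this hΛ0
  have h7 : ε * Real.log (τ / σ) ≤ (N + 1) * (δ / 2) := by
    calc ε * Real.log (τ / σ) ≤ ε * ((N + 1) * Λ) := mul_le_mul_of_nonneg_left hlog hε.le
      _ = (N + 1) * (ε * Λ) := by ring
      _ ≤ _ := mul_le_mul_of_nonneg_left e3 (by positivity)
  have h8 : (N : ℝ) * δ ≤ A + (N + 1) * (δ / 2) := by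
    rw [hA]
    simp only [zero_div, mul_zero, add_zero] at hend
    linarith
  have h9 : (2 * A / δ + 3) * δ ≤ (N + 1) * δ := mul_le_mul_of_nonneg_right hN3 hδ.le
  have h10 : (2 * A / δ + 3) * δ = 2 * A + 3 * δ := by
    field_simp
  nlinarith

end Pool.Agent.V1183.PM
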