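import Pool.Agent.V1183.PM.Cac
import Pool.Agent.TH305.DR.Fix2
import Pool.Agent.TH305.LW.Count4

/-!
Monotone pressure (helper83): the cut-off fields.
-/

set_option autoImplicit false

open MeasureTheory Set Metric Filter Topology
open scoped ContDiff

namespace Pool.Agent.V1183.PM

open H459R3.NS W221.NS Pool.Agent.TH305.DR
open Pool.Agent.W583.MD (sm_pd cs_pd pd_mul' Z Z.add Z.sub Z.smul Z.sum int_cs Z_pd Z_main)

/-! ### The integral of `‖x‖⁻²` -/

/-- The function `‖x‖⁻²` on the ball of radius `R`. -/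
noncomputable def isq (R : ℝ) (s : ℝ) : ℝ := (Iio R).indicator (fun s => (s ^ 2)⁻¹) s

lemma isq_nonneg (R s : ℝ) : 0 ≤ isq R s := by
  unfold isq
  apply indicator_nonneg
  intro _ _
  positivity

lemma isq_eq {R s : ℝ} (h : s < R) : isq R s = (s ^ 2)⁻¹ := indicator_of_mem (show s ∈ Iio R from h) _

lemma isq_aux (R : ℝ) : ∀ y ∈ Ioi (0 : ℝ), y ^ (Module.finrank ℝ V - 1) • isq R y
    = (Iio R).indicator (fun _ => (1 : ℝ)) y := by
  intro y hy
  have hd : Module.finrank ℝ V = 3 := by simp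
  rw [hd]
  unfold isq
  by_cases h : y ∈ Iio R
  · rw [indicator_of_mem h, indicator_of_mem h, smul_eq_mul]
    have : y ≠ 0 := ne_of_gt hy
    field_simp
  · rw [indicator_of_notMem h, indicator_of_notMem h, smul_zero]

lemma isq_aux2 (R : ℝ) : IntegrableOn ((Iio R).indicator (fun _ => (1 : ℝ))) (Ioi 0) := by
  rw [← integrable_indicator_iff measurableSet_Ioi, indicator_indicator,
    integrable_indicator_iff (measurableSet_Ioi.inter measurableSet_Iio)]
  rw [Ioi_inter_Iio]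
  exact integrableOn_const (by simp) (by simp)

lemma isq_int (R : ℝ) : Integrable (fun x : V => isq R ‖x‖) := by
  rw [integrable_fun_norm_addHaar (μ := (volume : Measure V)) (f := isq R)]
  exact (integrableOn_congr_fun (isq_aux R) measurableSet_Ioi).2 (isq_aux2 R)

lemma isq_val {R : ℝ} (hR : 0 ≤ R) : ∫ x : V, isq R ‖x‖ = 24 * R := by
  rw [integral_fun_norm_addHaar (μ := (volume : Measure V)) (isq R)]
  rw [setIntegral_congr_fun measurableSet_Ioi (isq_aux R)]
  rw [setIntegral_indicator measurableSet_Iio, Ioi_inter_Iio]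
  have hd : Module.finrank ℝ V = 3 := by simp
  have hv : (volume : Measure V).real (ball 0 1) = 8 := by
    rw [Pool.Agent.W12.MD.vol_ball one_pos]
    norm_num
  rw [hd, hv]
  simp only [setIntegral_const, smul_eq_mul, mul_one, nsmul_eq_mul]
  rw [Real.volume_real_Ioo_of_le hR]
  push_cast
  ring

/-! ### The cut-off fields -/

section
variable {M T L R N : ℝ} {u : ℝ → V → V} {p : ℝ → V → ℝ} {χ : V → ℝ} {t : ℝ} {x : V}

/-- The velocity, cut off. -/
noncomputable def cu (χ : V → ℝ) (u : ℝ → V → V) (t : ℝ) (x : V) : V := fun i => χ x * u t x i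

/-- The pressure, cut off. -/
noncomputable def cp (χ : V → ℝ) (p : ℝ → V → ℝ) (t : ℝ) (x : V) : ℝ := χ x * p t x

lemma TG.nsq_bd (h : TG M T L u p) (ht : t ∈ Ioo 0 T) (hx : x ∈ ball (0 : V) L) :
    nsq (u t) x ≤ 3 * M ^ 2 * (‖x‖ ^ 2)⁻¹ ∨ x = 0 := by
  by_cases h0 : x = 0
  · right; exact h0
  left
  have h1 := h.bu t ht x hx
  have h2 : 0 < ‖x‖ := norm_pos_iff.2 h0
  have h3 : ‖u t x‖ * ‖x‖ ≤ M := by
    refine le_trans ?_ h1
    apply mul_le_mul_of_nonneg_left _ (norm_nonneg _)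
    linarith [Real.sqrt_nonneg (T - t)]
  have h4 : (‖u t x‖ * ‖x‖) ^ 2 ≤ M ^ 2 := pow_le_pow_left₀ (by positivity) h3 2
  rw [← div_eq_mul_inv, le_div_iff₀ (by positivity)]
  have h5 := nsq_le (u t) x
  calc nsq (u t) x * ‖x‖ ^ 2 ≤ (3 * ‖u t x‖ ^ 2) * ‖x‖ ^ 2 :=
        mul_le_mul_of_nonneg_right h5 (by positivity)
    _ = 3 * (‖u t x‖ * ‖x‖) ^ 2 := by ring
    _ ≤ 3 * M ^ 2 := by linarith

lemma cu_ae (h : TG M T L u p) (hRL : R < L) (ht : t ∈ Ioo 0 T) :
    ∀ᵐ x : V, x ∈ ball (0 : V) R → nsq (u t) x ≤ 3 * M ^ 2 * isq R ‖x‖ := by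
  have h0 : ∀ᵐ x : V, x ≠ 0 := by
    have := measure_singleton (μ := (volume : Measure V)) 0
    rw [ae_iff]
    simpa using this
  filter_upwards [h0] with x hx0 hx
  have hxR : ‖x‖ < R := by simpa using hx
  rcases h.nsq_bd ht (x := x) (by simpa using hxR.trans hRL) with h1 | h1
  · rw [isq_eq hxR]
    exact h1
  · exact absurd h1 hx0

lemma cut_ball (hc : Cut R (R + 1) N χ) {x : V} (hx : χ x ≠ 0) : x ∈ ball (0 : V) (R + 1) := by
  by_contra hcon
  exact hx (hc.out x hcon)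

lemma cut_pd (hc : Cut R (R + 1) N χ) {x : V} {j : Fin 3} (hx : pd j χ x ≠ 0) :
    x ∈ ball (0 : V) (R + 1) := by
  by_contra hcon
  have h1 := hc.gout x hcon
  rw [SS_one] at h1
  have h2 := (Finset.sum_eq_zero_iff_of_nonneg (fun i _ => sq_nonneg (pd i χ x))).1 h1 j
    (Finset.mem_univ j)
  exact hx (by simpa using h2)

lemma cu_nsq (hc : Cut R (R + 1) N χ) : nsq (cu χ u t) x ≤ nsq (u t) x := by
  unfold nsq cu
  apply Finset.sum_le_sum
  intro i _
  rw [mul_pow]
  have h1 := hc.nn x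
  have h2 := hc.le x
  have h3 : χ x ^ 2 ≤ 1 := by nlinarith
  nlinarith [sq_nonneg (u t x i)]

lemma cu_out (hc : Cut R (R + 1) N χ) (hx : x ∉ ball (0 : V) (R + 1)) : nsq (cu χ u t) x = 0 := by
  unfold nsq cu
  simp [hc.out x hx]

lemma cu_sm (h : TG M T L u p) (hc : Cut R (R + 1) N χ) :
    ContDiffOn ℝ ∞ (fun z : ℝ × V => cu χ u z.1 z.2) (Ioo 0 T ×ˢ univ) := by
  rw [contDiffOn_pi]
  intro i
  exact (J.space hc.sm).mul (h.ju i)

lemma cp_sm (h : TG M T L u p) (hc : Cut R (R + 1) N χ) :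
    ContDiffOn ℝ ∞ (fun z : ℝ × V => cp χ p z.1 z.2) (Ioo 0 T ×ˢ univ) :=
  (J.space hc.sm).mul h.jp

lemma cu_eq (hc : Cut R (R + 1) N χ) (hx : x ∈ ball (0 : V) R) (t : ℝ) (i : Fin 3) :
    cu χ u t x i = u t x i := by
  unfold cu
  rw [hc.one x hx, one_mul]

lemma cp_eq (hc : Cut R (R + 1) N χ) (hx : x ∈ ball (0 : V) R) (t : ℝ) :
    cp χ p t x = p t x := by
  unfold cp
  rw [hc.one x hx, one_mul]

lemma cu_pd (hc : Cut R (R + 1) N χ) (hx : x ∈ ball (0 : V) R) (t : ℝ) (i j : Fin 3) :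
    pd j (fun y => cu χ u t y i) x = pd j (fun y => u t y i) x :=
  pd_congr_open isOpen_ball (fun _ hy => cu_eq hc hy t i) j hx

lemma cu_lap (hc : Cut R (R + 1) N χ) (hx : x ∈ ball (0 : V) R) (t : ℝ) (i : Fin 3) :
    lap (fun y => cu χ u t y i) x = lap (fun y => u t y i) x := by
  unfold lap
  refine Finset.sum_congr rfl fun j _ => ?_
  exact pd_congr_open isOpen_ball (fun _ hy => cu_pd hc hy t i j) j hx

lemma cp_pd (hc : Cut R (R + 1) N χ) (hx : x ∈ ball (0 : V) R) (t : ℝ) (i : Fin 3) :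
    pd i (cp χ p t) x = pd i (p t) x :=
  pd_congr_open isOpen_ball (fun _ hy => cp_eq hc hy t) i hx

lemma cu_dv (h : TG M T L u p) (hc : Cut R (R + 1) N χ) (hRL : R + 1 < L) (ht : t ∈ Ioo 0 T) :
    dv (cu χ u t) x ^ 2 ≤ N * nsq (u t) x ∧ (x ∉ ball (0 : V) (R + 1) → dv (cu χ u t) x = 0) := by
  have h1 : ∀ i, pd i (fun y => cu χ u t y i) x = pd i χ x * u t x i
      + χ x * pd i (fun y => u t y i) x := by
    intro i
    have := pd_mul' (f := χ) (g := fun y => u t y i) hc.sm (h.sl ht i) i x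
    rw [add_comm]
    exact this
  have h2 : dv (cu χ u t) x = (∑ i, pd i χ x * u t x i) + χ x * dv (u t) x := by
    unfold dv
    simp_rw [h1]
    rw [Finset.sum_add_distrib, Finset.mul_sum]
  have h3 : χ x * dv (u t) x = 0 := by
    by_cases hx : χ x = 0
    · rw [hx, zero_mul]
    · rw [h.dv t ht x (ball_subset_ball hRL.le (cut_ball hc hx)), mul_zero]
  rw [h3, add_zero] at h2
  constructor
  · rw [h2]
    have h4 := hc.grad x
    rw [SS_one] at h4
    have h5 := Finset.sum_mul_sq_le_sq_mul_sq Finset.univ (fun i => pd i χ x) (fun i => u t x i)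
    refine h5.trans ?_
    unfold nsq
    exact mul_le_mul_of_nonneg_right h4 (Finset.sum_nonneg fun _ _ => sq_nonneg _)
  · intro hx
    rw [h2]
    apply Finset.sum_eq_zero
    intro i _
    have : pd i χ x = 0 := by
      by_contra hcon
      exact hx (cut_pd hc hcon)
    rw [this, zero_mul]

lemma cu_cs (F : V → ℝ) (hF : ∀ x ∉ ball (0 : V) (R + 1), F x = 0) :
    HasCompactSupport F :=
  csR (R := R + 1) F fun z hz => hF z fun hcon => hz (ball_subset_closedBall hcon)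

lemma cu_bd (h : TG M T L u p) (hRL : R + 1 < L) (hR : 0 < R) (ht : t ∈ Ioo 0 T)
    {F : V → ℝ} {N' : ℝ} (hN : 0 ≤ N') (hF0 : Integrable F)
    (hF1 : ∀ x ∉ ball (0 : V) (R + 1), F x = 0) (hF : ∀ x, F x ≤ N' * nsq (u t) x) :
    ∫ x, F x ≤ N' * (72 * M ^ 2 * (R + 1)) := by
  have h1 : ∫ x, F x ≤ ∫ x : V, N' * (3 * M ^ 2 * isq (R + 1) ‖x‖) := by
    apply integral_mono_ae hF0 (((isq_int (R + 1)).const_mul (3 * M ^ 2)).const_mul N')
    filter_upwards [cu_ae h (R := R + 1) hRL ht] with x hx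
    by_cases hxb : x ∈ ball (0 : V) (R + 1)
    · exact (hF x).trans (mul_le_mul_of_nonneg_left (hx hxb) hN)
    · rw [hF1 x hxb]
      have := isq_nonneg (R + 1) ‖x‖
      positivity
  refine h1.trans (le_of_eq ?_)
  rw [integral_const_mul, integral_const_mul, isq_val (by linarith)]
  ring

theorem TG.lsol (h : TG M T L u p) (hc : Cut R (R + 1) N χ) (hN : 0 ≤ N) (hR : 0 < R)
    (hRL : R + 1 < L) :
    LSol T √(N * (72 * M ^ 2 * (R + 1))) √(72 * M ^ 2 * (R + 1)) (ball 0 R) (cu χ u) (cp χ p) := by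
  have hsi : ∀ t ∈ Ioo 0 T, ∀ i, ContDiff ℝ ∞ (fun y => cu χ u t y i) := fun t ht i =>
    hc.sm.mul (h.sl ht i)
  have hn : ∀ t ∈ Ioo 0 T, Integrable (nsq (cu χ u t)) := fun t ht =>
    int_cs (nsq_cont (hsi t ht)) (cu_cs (R := R) _ fun x hx => cu_out hc hx)
  have hd : ∀ t ∈ Ioo 0 T, Integrable (fun x => W221.NS.dv (cu χ u t) x ^ 2) := by
    intro t ht
    refine int_cs ?_ (cu_cs (R := R) _ fun x hx => ?_)
    · unfold W221.NS.dv
      exact (continuous_finsetSum _ fun i _ => (sm_pd (hsi t ht i) i).continuous).pow 2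
    · rw [(cu_dv h hc hRL ht).2 hx]
      norm_num
  refine ⟨isOpen_ball, cu_sm h hc, cp_sm h hc, ?_, ?_, hn, ?_, hd, ?_⟩
  · intro t ht x hx
    have h1 : W221.NS.dv (cu χ u t) x = W221.NS.dv (u t) x := by
      unfold W221.NS.dv
      exact Finset.sum_congr rfl fun i _ => cu_pd hc hx t i i
    rw [h1]
    exact h.dv t ht x (ball_subset_ball (by linarith) hx)
  · intro t ht x hx i
    have h1 : (fun s => cu χ u s x i) = fun s => u s x i := by
      funext s
      exact cu_eq hc hx s i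
    have h2 : adv (cu χ u t) (fun y => cu χ u t y i) x = adv (u t) (fun y => u t y i) x := by
      unfold adv
      exact Finset.sum_congr rfl fun j _ => by rw [cu_pd hc hx t i j, cu_eq hc hx t j]
    rw [h1, h2, cu_lap hc hx t i, cp_pd hc hx t i]
    exact h.mom t ht x (ball_subset_ball (by linarith) hx) i
  · intro t ht
    rw [Real.sq_sqrt (by positivity)]
    have := cu_bd h hRL hR ht (N' := 1) zero_le_one (hn t ht) (fun x hx => cu_out hc hx)
      (fun x => by rw [one_mul]; exact cu_nsq hc)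
    linarith
  · intro t ht
    rw [Real.sq_sqrt (by positivity)]
    exact cu_bd h hRL hR ht hN (hd t ht) (fun x hx => by rw [(cu_dv h hc hRL ht).2 hx]; norm_num)
      (fun x => (cu_dv h hc hRL ht).1)

/-- The version with a (vanishing) force. -/
theorem lsol_three {T κ E : ℝ} {O : Set V} {u : ℝ → V → V} {p : ℝ → V → ℝ}
    (h : LSol T κ E O u p) : LSol3 T κ E 0 O u p := by
  refine ⟨h.openO, h.smooth_u, h.smooth_p, h.divfree, ?_, h.en_int, h.en, h.dv_int, h.dvb⟩
  intro t ht x hx i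
  have h0 : ∀ y ∈ O, (fun y => res u p t y i) y = (fun _ => (0 : ℝ)) y := by
    intro y hy
    simp only [res]
    rw [h.momentum t ht y hy i]
    ring
  have h1 : ∀ j, ∀ y ∈ O, pd j (fun y => res u p t y i) y = (fun _ => (0 : ℝ)) y := by
    intro j y hy
    rw [pd_congr_open h.openO h0 j hy, pd_const']
  have h2 : ∀ j k, ∀ y ∈ O, pd j (pd k (fun y => res u p t y i)) y = (fun _ => (0 : ℝ)) y := by
    intro j k y hy
    rw [pd_congr_open h.openO (h1 k) j hy, pd_const']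
  have h3 : ∀ j k l, ∀ y ∈ O, pd j (pd k (pd l (fun y => res u p t y i))) y
      = (fun _ => (0 : ℝ)) y := by
    intro j k l y hy
    rw [pd_congr_open h.openO (h2 k l) j hy, pd_const']
  refine ⟨?_, ?_, ?_, ?_⟩
  · have := h0 x hx
    simp only at this
    rw [this, abs_zero]
  · intro j
    rw [h1 j x hx, abs_zero]
  · intro j k
    rw [h2 j k x hx, abs_zero]
  · intro j k l
    rw [h3 j k l x hx, abs_zero]

lemma cu_gsq (hc : Cut R (R + 1) N χ) (hx : x ∈ ball (0 : V) R) (t : ℝ) :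
    gsq (cu χ u t) x = gsq (u t) x := by
  unfold gsq
  exact Finset.sum_congr rfl fun i _ => Finset.sum_congr rfl fun j _ => by
    rw [cu_pd hc hx t i j]

end

end Pool.Agent.V1183.PM
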