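import Pool.Agent.V1183.PM.Calc
import Pool.Agent.TH305.DR.Loc

/-!
Monotone pressure (helper83): the equation for `(T - t) |u|² + x · u`, the equation for the pressure
and the equation for the vorticity.
-/

set_option autoImplicit false

open MeasureTheory Set Metric Filter Topology
open scoped ContDiff

namespace Pool.Agent.V1183.PM

open H459R3.NS W221.NS Pool.Agent.TH305.DR
open Pool.Agent.W583.MD (sm_pd cs_pd pd_mul' Z Z.add Z.sub Z.smul Z.sum int_cs Z_pd hcs)
open Pool.Agent.W22.ME.TD (pd_comm)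

/-- Type I solutions on `(0, T) × ball 0 L`, viscosity one; the fields are extended smoothly. -/
structure TG (M T L : ℝ) (u : ℝ → V → V) (p : ℝ → V → ℝ) : Prop where
  su : ContDiffOn ℝ ∞ (fun z : ℝ × V => u z.1 z.2) (Ioo 0 T ×ˢ univ)
  sp : ContDiffOn ℝ ∞ (fun z : ℝ × V => p z.1 z.2) (Ioo 0 T ×ˢ univ)
  dv : ∀ t ∈ Ioo 0 T, ∀ x ∈ ball (0 : V) L, dv (u t) x = 0
  mom : ∀ t ∈ Ioo 0 T, ∀ x ∈ ball (0 : V) L, ∀ i,
    deriv (fun s => u s x i) t + adv (u t) (fun y => u t y i) x
      = lap (fun y => u t y i) x - pd i (p t) x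
  bu : ∀ t ∈ Ioo 0 T, ∀ x ∈ ball (0 : V) L, ‖u t x‖ * (‖x‖ + √(T - t)) ≤ M
  bp : ∀ t ∈ Ioo 0 T, ∀ x ∈ ball (0 : V) L, |p t x| * (‖x‖ + √(T - t)) ^ 2 ≤ M ^ 2

section
variable {M T L : ℝ} {u : ℝ → V → V} {p : ℝ → V → ℝ} {t : ℝ} {x : V}

lemma TG.ju (h : TG M T L u p) (i : Fin 3) : J T (fun t y => u t y i) := contDiffOn_pi.1 h.su i

lemma TG.jp (h : TG M T L u p) : J T p := h.sp

lemma TG.sl (h : TG M T L u p) (ht : t ∈ Ioo 0 T) (i : Fin 3) : ContDiff ℝ ∞ (fun y => u t y i) :=
  (h.ju i).slice ht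

lemma TG.slu (h : TG M T L u p) (ht : t ∈ Ioo 0 T) : ContDiff ℝ ∞ (u t) :=
  contDiff_pi.2 (h.sl ht)

lemma TG.LLu (h : TG M T L u p) (ht : t ∈ Ioo 0 T) (hx : x ∈ ball (0 : V) L) (i : Fin 3) :
    LL u (fun t y => u t y i) t x = - pd i (p t) x := by
  unfold LL
  linarith [h.mom t ht x hx i]

lemma pd_coord (i j : Fin 3) (x : V) : pd j (fun y : V => y i) x = (Pi.single j 1 : V) i := by
  unfold pd
  have : HasFDerivAt (fun y : V => y i) (ContinuousLinearMap.proj (R := ℝ) i) x :=
    (ContinuousLinearMap.proj (R := ℝ) (φ := fun _ : Fin 3 => ℝ) i).hasFDerivAt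
  rw [this.fderiv]
  rfl

lemma cd_coord (i : Fin 3) : ContDiff ℝ ∞ (fun y : V => y i) := contDiff_apply ℝ ℝ i

lemma pd_const2 (c : ℝ) (j : Fin 3) (x : V) : pd j (fun _ : V => c) x = 0 := by
  rw [pd_const']

lemma LL_coord (i : Fin 3) : LL u (fun _ y => y i) t x = u t x i := by
  unfold LL adv lap
  have e1 : ∀ j, pd j (fun y : V => y i) = fun _ => (Pi.single j 1 : V) i := by
    intro j
    funext y
    exact pd_coord i j y
  simp only [e1, pd_const2, Finset.sum_const_zero, deriv_const, sub_zero, zero_add]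
  rw [Finset.sum_eq_single i]
  · simp
  · intro j _ hj
    simp [Pi.single_eq_of_ne (Ne.symm hj)]
  · simp

lemma LL_time {f : ℝ → ℝ} : LL u (fun t _ => f t) t x = deriv f t := by
  unfold LL adv lap
  simp only [pd_const', mul_zero, Finset.sum_const_zero, sub_zero, add_zero]

/-- `(T - t) |u|² + x · u`. -/
noncomputable def HH (T : ℝ) (u : ℝ → V → V) (t : ℝ) (x : V) : ℝ :=
  (T - t) * nsq (u t) x + ∑ i, x i * u t x i

lemma TG.jHH (h : TG M T L u p) : J T (HH T u) := by
  have e : HH T u = fun t x => (T - t) * (∑ i, u t x i * u t x i) + ∑ i, x i * u t x i := by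
    funext t x
    unfold HH nsq
    simp only [pow_two]
  rw [e]
  refine ((J.time (f := fun t => T - t) (by fun_prop)).mul (J.sum fun i => (h.ju i).mul (h.ju i))).add
    (J.sum fun i => (J.space (cd_coord i)).mul (h.ju i))

theorem TG.LLHH (h : TG M T L u p) (ht : t ∈ Ioo 0 T) (hx : x ∈ ball (0 : V) L) :
    LL u (HH T u) t x
      = -(∑ i, (2 * (T - t) * u t x i + x i) * pd i (p t) x) - 2 * (T - t) * gsq (u t) x := by
  have jT : J T (fun t (_ : V) => T - t) := J.time (f := fun t => T - t) (by fun_prop)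
  have e : HH T u = fun t x => ((T - t) * (u t x 0 * u t x 0) + x 0 * u t x 0)
      + ((T - t) * (u t x 1 * u t x 1) + x 1 * u t x 1)
      + ((T - t) * (u t x 2 * u t x 2) + x 2 * u t x 2) := by
    funext t x
    unfold HH nsq
    rw [Fin.sum_univ_three, Fin.sum_univ_three]
    ring
  have jK : ∀ i, J T (fun t x => (T - t) * (u t x i * u t x i) + x i * u t x i) := fun i =>
    (jT.mul ((h.ju i).mul (h.ju i))).add ((J.space (cd_coord i)).mul (h.ju i))
  have hK : ∀ i, LL u (fun t x => (T - t) * (u t x i * u t x i) + x i * u t x i) t x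
      = -(2 * (T - t) * u t x i + x i) * pd i (p t) x
        - 2 * (T - t) * (∑ j, pd j (fun y => u t y i) x ^ 2) - 2 * pd i (fun y => u t y i) x := by
    intro i
    rw [LL_add (jT.mul ((h.ju i).mul (h.ju i))).c12 ((J.space (cd_coord i)).mul (h.ju i)).c12 ht,
      LL_mul jT ((h.ju i).mul (h.ju i)) ht, LL_mul (h.ju i) (h.ju i) ht,
      LL_mul (J.space (cd_coord i)) (h.ju i) ht, h.LLu ht hx i, LL_coord,
      LL_time (f := fun t => T - t)]
    have e1 : deriv (fun t => T - t) t = -1 := by
      simp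
    have e2 : ∑ j, pd j (fun y : V => y i) x * pd j (fun y => u t y i) x
        = pd i (fun y => u t y i) x := by
      rw [Finset.sum_eq_single i]
      · rw [pd_coord]; simp
      · intro j _ hj
        rw [pd_coord]
        simp [Pi.single_eq_of_ne (Ne.symm hj)]
      · simp
    rw [e1, e2]
    simp only [pd_const2, zero_mul, Finset.sum_const_zero, ← pow_two]
    ring
  have hd := h.dv t ht x hx
  unfold W221.NS.dv at hd
  rw [e, LL_add ((jK 0).add (jK 1)).c12 (jK 2).c12 ht, LL_add (jK 0).c12 (jK 1).c12 ht, hK, hK, hK]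
  unfold gsq
  simp only [Fin.sum_univ_three] at hd ⊢
  linear_combination (-2 : ℝ) * hd

/-- The equation for the pressure. -/
theorem TG.lapP (h : TG M T L u p) (ht : t ∈ Ioo 0 T) (hx : x ∈ ball (0 : V) L) :
    lap (p t) x = -∑ i, ∑ j, pd i (fun y => u t y j) x * pd j (fun y => u t y i) x := by
  have hv := h.sl ht
  have hp : ContDiff ℝ ∞ (p t) := h.jp.slice ht
  -- the divergence vanishes near `x`
  have d0 : ∀ j, ∀ y ∈ ball (0 : V) L, pd j (W221.NS.dv (u t)) y = 0 := by
    intro j y hy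
    have := pd_congr_open isOpen_ball (f := W221.NS.dv (u t)) (g := fun _ => (0 : ℝ))
      (h.dv t ht) j hy
    rw [this, pd_const']
  have d1 : ∀ j, pd j (pd j (W221.NS.dv (u t))) x = 0 := by
    intro j
    have := pd_congr_open isOpen_ball (f := pd j (W221.NS.dv (u t))) (g := fun _ => (0 : ℝ))
      (d0 j) j hx
    rw [this, pd_const']
  have e1 : W221.NS.dv (u t) = fun y => ∑ i, pd i (fun w => u t w i) y := rfl
  have e2 : ∀ j, pd j (W221.NS.dv (u t)) = fun y => ∑ i, pd j (pd i (fun w => u t w i)) y := by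
    intro j
    rw [e1, pd_sum' _ (fun i => sm_pd (hv i) i)]
  have d0' : ∀ j, ∑ i, pd i (pd j (fun w => u t w i)) x = 0 := by
    intro j
    have := d0 j x hx
    rw [e2 j] at this
    rw [← this]
    exact Finset.sum_congr rfl fun i _ => by rw [pd_comm (hv i) i j]
  have d1' : ∑ i, lap (pd i (fun w => u t w i)) x = 0 := by
    have h1 : ∑ j, pd j (pd j (W221.NS.dv (u t))) x = 0 := Finset.sum_eq_zero fun j _ => d1 j
    simp only [e2] at h1
    have h2 : ∀ j, pd j (fun y => ∑ i, pd j (pd i (fun w => u t w i)) y) x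
        = ∑ i, pd j (pd j (pd i (fun w => u t w i))) x := by
      intro j
      rw [pd_sum' _ (fun i => sm_pd (sm_pd (hv i) i) j)]
    simp only [h2] at h1
    rw [Finset.sum_comm] at h1
    exact h1
  -- the time derivative
  have d2 : ∑ i, pd i (fun y => deriv (fun s => u s y i) t) x = 0 := by
    have h1 : ∀ i, pd i (fun y => deriv (fun s => u s y i) t) x
        = deriv (fun s => pd i (fun y => u s y i) x) t := fun i => ((h.ju i).comm ht x i).symm
    simp only [h1]
    have h2 : HasDerivAt (fun s => ∑ i, pd i (fun y => u s y i) x)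
        (∑ i, deriv (fun s => pd i (fun y => u s y i) x) t) t :=
      HasDerivAt.fun_sum fun i _ => (((h.ju i).pd i).dfT ht x).hasDerivAt
    have h3 : (fun s => ∑ i, pd i (fun y => u s y i) x) =ᶠ[𝓝 t] fun _ => 0 := by
      filter_upwards [Ioo_mem_nhds ht.1 ht.2] with s hs
      exact h.dv s hs x hx
    rw [← h2.deriv, h3.deriv_eq]
    simp
  have hadv : ∀ i, ContDiff ℝ ∞ (adv (u t) (fun y => u t y i)) := by
    intro i
    unfold adv
    exact ContDiff.sum fun j _ => (hv j).mul (sm_pd (hv i) j)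
  have hlapsm : ∀ i, ContDiff ℝ ∞ (lap (fun w => u t w i)) := by
    intro i
    unfold lap
    exact ContDiff.sum fun j _ => sm_pd (sm_pd (hv i) j) j
  have d3 : ∀ i, pd i (fun y => deriv (fun s => u s y i) t) x
      = lap (pd i (fun w => u t w i)) x - pd i (adv (u t) (fun y => u t y i)) x
        - pd i (pd i (p t)) x := by
    intro i
    have h1 : pd i (fun y => deriv (fun s => u s y i) t) x
        = pd i (fun y => lap (fun w => u t w i) y - adv (u t) (fun w => u t w i) y
          - pd i (p t) y) x := by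
      refine pd_congr_open isOpen_ball (fun y hy => ?_) i hx
      linarith [h.mom t ht y hy i]
    rw [h1, pd_sub' ((hlapsm i).sub (hadv i)) (sm_pd hp i), pd_sub' (hlapsm i) (hadv i),
      lap_pd_comm (hv i)]
  have d4 : ∀ i, pd i (adv (u t) (fun y => u t y i)) x
      = ∑ j, (u t x j * pd i (pd j (fun y => u t y i)) x
        + pd i (fun y => u t y j) x * pd j (fun y => u t y i) x) := by
    intro i
    have e3 : adv (u t) (fun y => u t y i) = fun y => ∑ j, u t y j * pd j (fun w => u t w i) y := rfl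
    rw [e3, pd_sum' _ (fun j => (hv j).mul (sm_pd (hv i) j))]
    refine Finset.sum_congr rfl fun j _ => ?_
    rw [pd_mul' (hv j) (sm_pd (hv i) j)]
  have d5 : ∑ i, pd i (adv (u t) (fun y => u t y i)) x
      = ∑ i, ∑ j, pd i (fun y => u t y j) x * pd j (fun y => u t y i) x := by
    simp only [d4, Finset.sum_add_distrib]
    have : ∑ i, ∑ j, u t x j * pd i (pd j (fun y => u t y i)) x = 0 := by
      rw [Finset.sum_comm]
      refine Finset.sum_eq_zero fun j _ => ?_
      rw [← Finset.mul_sum, d0' j, mul_zero]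
    rw [this, zero_add]
  have h6 : ∑ i, pd i (fun y => deriv (fun s => u s y i) t) x
      = (∑ i, lap (pd i (fun w => u t w i)) x) - (∑ i, pd i (adv (u t) (fun y => u t y i)) x)
        - lap (p t) x := by
    unfold lap
    rw [← Finset.sum_sub_distrib, ← Finset.sum_sub_distrib]
    exact Finset.sum_congr rfl fun i _ => d3 i
  rw [d2, d1', d5] at h6
  linarith

/-- The vorticity equation. -/
theorem TG.vort (h : TG M T L u p) (ht : t ∈ Ioo 0 T) (hx : x ∈ ball (0 : V) L) (i j : Fin 3) :
    deriv (fun s => Om i j (u s) x) t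
      = lap (Om i j (u t)) x - pd i (bb (u t) j) x + pd j (bb (u t) i) x := by
  have hsv := h.ju
  have hv := h.sl ht
  have hqt : ContDiff ℝ ∞ (p t) := h.jp.slice ht
  set e : V → ℝ := fun y => ∑ m, u t y m * u t y m / 2 with he
  have hes : ContDiff ℝ ∞ e := ContDiff.sum fun m _ => ((hv m).mul (hv m)).div_const 2
  have hlapsm : ∀ i, ContDiff ℝ ∞ (lap (fun w => u t w i)) := by
    intro i
    unfold lap
    exact ContDiff.sum fun j _ => sm_pd (sm_pd (hv i) j) j
  have hmom : ∀ j, ∀ y ∈ ball (0 : V) L, deriv (fun s => u s y j) t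
      = lap (fun w => u t w j) y - (bb (u t) j y + pd j e y) - pd j (p t) y := by
    intro j y hy
    have h2 := h.mom t ht y hy j
    rw [adv_eq hv j] at h2
    linarith
  have hD : ∀ i j, pd i (fun y => deriv (fun s => u s y j) t) x
      = lap (pd i (fun w => u t w j)) x - (pd i (bb (u t) j) x + pd i (pd j e) x)
        - pd i (pd j (p t)) x := by
    intro i j
    have h1 : pd i (fun y => deriv (fun s => u s y j) t) x
        = pd i (fun y => lap (fun w => u t w j) y - (bb (u t) j y + pd j e y) - pd j (p t) y) x :=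
      pd_congr_open isOpen_ball (hmom j) i hx
    rw [h1, pd_sub' ((hlapsm j).sub ((bb_sm hv j).add (sm_pd hes j))) (sm_pd hqt j),
      pd_sub' (hlapsm j) ((bb_sm hv j).add (sm_pd hes j)),
      pd_add' (bb_sm hv j) (sm_pd hes j), lap_pd_comm (hv j)]
  have hlap : lap (Om i j (u t)) x
      = lap (pd i (fun w => u t w j)) x - lap (pd j (fun w => u t w i)) x := by
    unfold lap
    rw [← Finset.sum_sub_distrib]
    refine Finset.sum_congr rfl fun k _ => ?_
    have e1 : Om i j (u t) = fun y => pd i (fun w => u t w j) y - pd j (fun w => u t w i) y := rfl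
    rw [e1, pd_sub' (sm_pd (hv j) i) (sm_pd (hv i) j),
      pd_sub' (sm_pd (sm_pd (hv j) i) k) (sm_pd (sm_pd (hv i) j) k)]
  have h3 : deriv (fun s => Om i j (u s) x) t
      = pd i (fun y => deriv (fun s => u s y j) t) x
        - pd j (fun y => deriv (fun s => u s y i) t) x := by
    have a1 : HasDerivAt (fun s => pd i (fun y => u s y j) x)
        (deriv (fun s => pd i (fun y => u s y j) x) t) t :=
      (((hsv j).pd i).dfT ht x).hasDerivAt
    have a2 : HasDerivAt (fun s => pd j (fun y => u s y i) x)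
        (deriv (fun s => pd j (fun y => u s y i) x) t) t :=
      (((hsv i).pd j).dfT ht x).hasDerivAt
    have a3 := (a1.sub a2).deriv
    have b1 := (hsv j).comm ht x i
    have b2 := (hsv i).comm ht x j
    rw [b1, b2] at a3
    exact a3
  rw [h3, hD, hD, hlap, pd_comm hes i j, pd_comm hqt i j]
  ring

end

end Pool.Agent.V1183.PM
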