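import Pool.Agent.V1183.PM.Der
import Pool.Agent.V1183.PM.Blk3

/-!
Monotone pressure (helper83): persistence of the vorticity.
-/

set_option autoImplicit false

open MeasureTheory Set Metric Filter Topology
open scoped ContDiff

namespace Pool.Agent.V1183.PM

open H459R3.NS W221.NS
open Pool.Agent.TH305.DR (Om bb SS SS_zero SS_succ SS_one SS_nonneg SV om_sm bb_sm)
open Pool.Agent.W583.MD (sm_pd cs_pd pd_mul')

lemma norm_fd_le (f : V → ℝ) (x : V) : ‖fderiv ℝ f x‖ ≤ ∑ j, |pd j f x| := by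
  apply ContinuousLinearMap.opNorm_le_bound _ (Finset.sum_nonneg fun _ _ => abs_nonneg _)
  intro v
  have hv : v = ∑ j, v j • (Pi.single j (1 : ℝ) : V) := by
    funext i
    simp [Finset.sum_apply, Pi.single_apply]
  have h1 : fderiv ℝ f x v = ∑ j, v j * pd j f x := by
    conv_lhs => rw [hv]
    rw [map_sum]
    refine Finset.sum_congr rfl fun j _ => ?_
    rw [map_smul, smul_eq_mul]
    rfl
  rw [h1, Finset.sum_mul]
  refine (norm_sum_le _ _).trans (Finset.sum_le_sum fun j _ => ?_)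
  rw [norm_mul, mul_comm, Real.norm_eq_abs]
  exact mul_le_mul_of_nonneg_left (norm_le_pi_norm v j) (abs_nonneg _)

lemma lip_sp {f : V → ℝ} (hf : ContDiff ℝ ∞ f) {S : Set V} (hS : Convex ℝ S) {B : ℝ}
    (hB : ∀ x ∈ S, ∀ j, |pd j f x| ≤ B) {x y : V} (hx : x ∈ S) (hy : y ∈ S) :
    |f y - f x| ≤ 3 * B * ‖y - x‖ := by
  refine hS.norm_image_sub_le_of_norm_fderiv_le (𝕜 := ℝ)
    (fun z _ => (hf.differentiable (by simp)) z) (fun z hz => ?_) hx hy
  refine (norm_fd_le f z).trans ?_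
  rw [Fin.sum_univ_three]
  linarith [hB z hz 0, hB z hz 1, hB z hz 2]

lemma lip_t {g g' : ℝ → ℝ} {a b B : ℝ} (hab : a ≤ b) (hg : ∀ t ∈ Icc a b, HasDerivAt g (g' t) t)
    (hB : ∀ t ∈ Icc a b, |g' t| ≤ B) : |g b - g a| ≤ B * (b - a) := by
  have h1 := (convex_Icc a b).norm_image_sub_le_of_norm_hasDerivWithin_le (𝕜 := ℝ) (f := g)
    (f' := g') (C := B) (fun t ht => (hg t ht).hasDerivWithinAt) (fun t ht => hB t ht)
    (left_mem_Icc.2 hab) (right_mem_Icc.2 hab)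
  rw [Real.norm_eq_abs, Real.norm_eq_abs, abs_of_nonneg (by linarith : 0 ≤ b - a)] at h1
  exact h1

section
variable {M T L : ℝ} {u : ℝ → V → V} {p : ℝ → V → ℝ} {t : ℝ} {x : V}

lemma TG.jOm (h : TG M T L u p) (i j : Fin 3) : J T (fun t => Om i j (u t)) :=
  ((h.ju j).pd i).sub ((h.ju i).pd j)

lemma st0_eq (v : V → V) (x : V) :
    Pool.Agent.TH305.DR.ST 0 v x = ∑ pp : Fin 3 × Fin 3, Om pp.1 pp.2 v x ^ 2 := rfl

lemma TG.jST (h : TG M T L u p) : J T (fun t => Pool.Agent.TH305.DR.ST 0 (u t)) := by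
  show J T (fun t x => ∑ pp : Fin 3 × Fin 3, Om pp.1 pp.2 (u t) x ^ 2)
  exact ContDiffOn.sum fun pp _ => ContDiffOn.pow (h.jOm pp.1 pp.2) 2

lemma Om_le {v : V → V} {D : ℝ} (h : Pool.Agent.TH305.DR.ST 0 v x ≤ D) (i j : Fin 3) :
    |Om i j v x| ≤ √D := by
  apply Real.abs_le_sqrt
  refine le_trans ?_ h
  rw [st0_eq]
  exact Finset.single_le_sum (f := fun pp : Fin 3 × Fin 3 => Om pp.1 pp.2 v x ^ 2)
    (fun _ _ => sq_nonneg _) (Finset.mem_univ (i, j))

lemma SS_le_ST (n : ℕ) (v : V → V) (x : V) (i j : Fin 3) :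
    SS n (Om i j v) x ≤ Pool.Agent.TH305.DR.ST n v x := by
  unfold Pool.Agent.TH305.DR.ST
  exact Finset.single_le_sum (f := fun pp : Fin 3 × Fin 3 => SS n (Om pp.1 pp.2 v) x)
      (fun _ _ => SS_nonneg _ _ _) (Finset.mem_univ (i, j))

lemma pOm_le {v : V → V} {D : ℝ} (h : Pool.Agent.TH305.DR.ST 1 v x ≤ D) (i j k : Fin 3) :
    |pd k (Om i j v) x| ≤ √D := by
  apply Real.abs_le_sqrt
  refine le_trans ?_ h
  have h1 := SS_le_ST 1 v x i j
  refine le_trans ?_ h1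
  rw [SS_one]
  exact Finset.single_le_sum (f := fun k => pd k (Om i j v) x ^ 2)
    (fun _ _ => sq_nonneg _) (Finset.mem_univ k)

lemma ppOm_le {v : V → V} {D : ℝ} (h : Pool.Agent.TH305.DR.ST 2 v x ≤ D) (i j k : Fin 3) :
    |pd k (pd k (Om i j v)) x| ≤ √D := by
  apply Real.abs_le_sqrt
  refine le_trans ?_ h
  have h1 := SS_le_ST 2 v x i j
  refine le_trans ?_ h1
  have h2 : SS 1 (pd k (Om i j v)) x ≤ SS 2 (Om i j v) x :=
    Pool.Agent.TH305.DR.SS_le_succ 1 (Om i j v) x k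
  refine le_trans ?_ h2
  rw [SS_one]
  exact Finset.single_le_sum (f := fun l => pd l (pd k (Om i j v)) x ^ 2)
    (fun _ _ => sq_nonneg _) (Finset.mem_univ k)

lemma pu_le {v : V → V} {D : ℝ} (h : SV 1 v x ≤ D) (i k : Fin 3) :
    |pd k (fun y => v y i) x| ≤ √D := by
  apply Real.abs_le_sqrt
  refine le_trans ?_ h
  have h1 : SS 1 (fun y => v y i) x ≤ SV 1 v x :=
    Finset.single_le_sum (f := fun i => SS 1 (fun y => v y i) x)
      (fun _ _ => SS_nonneg _ _ _) (Finset.mem_univ i)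
  refine le_trans ?_ h1
  rw [SS_one]
  exact Finset.single_le_sum (f := fun k => pd k (fun y => v y i) x ^ 2)
    (fun _ _ => sq_nonneg _) (Finset.mem_univ k)

lemma pbb_le {v : V → V} {B E : ℝ} (hv : ∀ i, ContDiff ℝ ∞ (fun y => v y i)) (hB : 0 ≤ B) (hE : 0 ≤ E)
    (h0 : ∀ i j, |Om i j v x| ≤ B) (h1 : ∀ i j k, |pd k (Om i j v) x| ≤ B)
    (h2 : ∀ i k, |pd k (fun y => v y i) x| ≤ B) (h3 : ∀ i, |v x i| ≤ E) (i j : Fin 3) :
    |pd i (bb v j) x| ≤ 3 * (B * B + E * B) := by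
  have e : pd i (bb v j) x = ∑ m, (v x m * pd i (Om m j v) x + pd i (fun y => v y m) x * Om m j v x) := by
    have e1 := congrFun (Pool.Agent.TH305.DR.pd_sum' Finset.univ (f := fun m y => v y m * Om m j v y)
      (fun m => (hv m).mul (om_sm hv m j)) i) x
    have e2 : bb v j = fun y => ∑ m, v y m * Om m j v y := rfl
    rw [e2, e1]
    refine Finset.sum_congr rfl fun m _ => ?_
    exact pd_mul' (hv m) (om_sm hv m j) i x
  rw [e]
  refine (Finset.abs_sum_le_sum_abs _ _).trans ?_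
  have h4 : ∀ m, |v x m * pd i (Om m j v) x + pd i (fun y => v y m) x * Om m j v x|
      ≤ B * B + E * B := by
    intro m
    refine (abs_add_le _ _).trans ?_
    rw [abs_mul, abs_mul]
    have a1 : |v x m| * |pd i (Om m j v) x| ≤ E * B :=
      mul_le_mul (h3 m) (h1 m j i) (abs_nonneg _) hE
    have a2 : |pd i (fun y => v y m) x| * |Om m j v x| ≤ B * B :=
      mul_le_mul (h2 m i) (h0 m j) (abs_nonneg _) hB
    linarith
  rw [Fin.sum_univ_three]
  linarith [h4 0, h4 1, h4 2]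

/-- The derivatives of the square of the vorticity. -/
lemma TG.dST (h : TG M T L u p) (ht : t ∈ Ioo 0 T) (hx : x ∈ ball (0 : V) L) {D E : ℝ} (hD : 0 ≤ D)
    (hE : 0 ≤ E) (h0 : Pool.Agent.TH305.DR.ST 0 (u t) x ≤ D)
    (h1 : Pool.Agent.TH305.DR.ST 1 (u t) x ≤ D)
    (h2 : Pool.Agent.TH305.DR.ST 2 (u t) x ≤ D) (h3 : SV 1 (u t) x ≤ D) (h4 : ‖u t x‖ ≤ E) :
    |deriv (fun s => Pool.Agent.TH305.DR.ST 0 (u s) x) t|
        ≤ 18 * (√D * (3 * √D + 6 * (D + E * √D))) ∧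
      ∀ k, |pd k (Pool.Agent.TH305.DR.ST 0 (u t)) x| ≤ 18 * D := by
  have hs0 : √D * √D = D := Real.mul_self_sqrt hD
  have a0 := fun i j => Om_le h0 i j
  have a1 := fun i j k => pOm_le h1 i j k
  have a2 := fun i j k => ppOm_le h2 i j k
  have a3 := fun i k => pu_le h3 i k
  have a4 : ∀ i, |u t x i| ≤ E := fun i => (norm_le_pi_norm (u t x) i).trans h4
  have hv := h.sl ht
  have hbb := fun i j => pbb_le hv (Real.sqrt_nonneg D) hE a0 a1 a3 a4 i j
  have hs : 0 ≤ √D := Real.sqrt_nonneg D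
  constructor
  · have e1 : deriv (fun s => Pool.Agent.TH305.DR.ST 0 (u s) x) t
        = ∑ pp : Fin 3 × Fin 3, 2 * Om pp.1 pp.2 (u t) x * deriv (fun s => Om pp.1 pp.2 (u s) x) t := by
      have hd : ∀ pp : Fin 3 × Fin 3, HasDerivAt (fun s => Om pp.1 pp.2 (u s) x ^ 2)
          (2 * Om pp.1 pp.2 (u t) x * deriv (fun s => Om pp.1 pp.2 (u s) x) t) t := by
        intro pp
        have := ((h.jOm pp.1 pp.2).dfT ht x).hasDerivAt.fun_pow 2
        refine this.congr_deriv ?_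
        simp
      have hsum : HasDerivAt (fun s => ∑ pp : Fin 3 × Fin 3, Om pp.1 pp.2 (u s) x ^ 2)
          (∑ pp : Fin 3 × Fin 3, 2 * Om pp.1 pp.2 (u t) x
            * deriv (fun s => Om pp.1 pp.2 (u s) x) t) t :=
        HasDerivAt.fun_sum fun pp _ => hd pp
      exact hsum.deriv
    rw [e1]
    refine (Finset.abs_sum_le_sum_abs _ _).trans ?_
    have hb : ∀ pp : Fin 3 × Fin 3, |2 * Om pp.1 pp.2 (u t) x
        * deriv (fun s => Om pp.1 pp.2 (u s) x) t| ≤ 2 * (√D * (3 * √D + 6 * (D + E * √D))) := by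
      intro pp
      obtain ⟨i, j⟩ := pp
      rw [h.vort ht hx i j]
      show |2 * Om i j (u t) x * (lap (Om i j (u t)) x - pd i (bb (u t) j) x + pd j (bb (u t) i) x)| ≤ _
      rw [mul_assoc, abs_mul, abs_mul, abs_two]
      apply mul_le_mul_of_nonneg_left _ (by norm_num)
      have hl : |lap (Om i j (u t)) x| ≤ 3 * √D := by
        unfold lap
        refine (Finset.abs_sum_le_sum_abs _ _).trans ?_
        rw [Fin.sum_univ_three]
        linarith [a2 i j 0, a2 i j 1, a2 i j 2]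
      have hr : |lap (Om i j (u t)) x - pd i (bb (u t) j) x + pd j (bb (u t) i) x|
          ≤ 3 * √D + 6 * (D + E * √D) := by
        have b1 := hbb i j
        have b2 := hbb j i
        rw [hs0] at b1 b2
        rw [abs_le] at *
        constructor <;> linarith [hl.1, hl.2, b1.1, b1.2, b2.1, b2.2]
      exact mul_le_mul (a0 i j) hr (abs_nonneg _) hs
    refine (Finset.sum_le_card_nsmul _ _ _ fun pp _ => hb pp).trans (le_of_eq ?_)
    simp
    ring
  · intro k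
    have e1 : pd k (Pool.Agent.TH305.DR.ST 0 (u t)) x
        = ∑ pp : Fin 3 × Fin 3, 2 * Om pp.1 pp.2 (u t) x * pd k (Om pp.1 pp.2 (u t)) x := by
      have e2 : Pool.Agent.TH305.DR.ST 0 (u t)
          = fun y => ∑ pp : Fin 3 × Fin 3, Om pp.1 pp.2 (u t) y ^ 2 := rfl
      rw [e2]
      have e3 := congrFun (Pool.Agent.TH305.DR.pd_sum' Finset.univ
        (f := fun (pp : Fin 3 × Fin 3) y => Om pp.1 pp.2 (u t) y ^ 2)
        (fun pp => (om_sm hv pp.1 pp.2).pow 2) k) x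
      rw [e3]
      refine Finset.sum_congr rfl fun pp _ => ?_
      have e4 : (fun y => Om pp.1 pp.2 (u t) y ^ 2)
          = fun y => Om pp.1 pp.2 (u t) y * Om pp.1 pp.2 (u t) y := by
        funext y
        ring
      rw [e4, pd_mul' (om_sm hv pp.1 pp.2) (om_sm hv pp.1 pp.2) k x]
      ring
    rw [e1]
    refine (Finset.abs_sum_le_sum_abs _ _).trans ?_
    have hb : ∀ pp : Fin 3 × Fin 3, |2 * Om pp.1 pp.2 (u t) x * pd k (Om pp.1 pp.2 (u t)) x|
        ≤ 2 * D := by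
      intro pp
      rw [mul_assoc, abs_mul, abs_mul, abs_two]
      apply mul_le_mul_of_nonneg_left _ (by norm_num)
      calc |Om pp.1 pp.2 (u t) x| * |pd k (Om pp.1 pp.2 (u t)) x| ≤ √D * √D :=
            mul_le_mul (a0 _ _) (a1 _ _ _) (abs_nonneg _) hs
        _ = D := hs0
    refine (Finset.sum_le_card_nsmul _ _ _ fun pp _ => hb pp).trans (le_of_eq ?_)
    simp
    ring

end

/-- Persistence of the vorticity. -/
theorem pers {M q K z : ℝ} (hM : 0 < M) (hq : 0 < q) (hq1 : q ≤ 1 / 2) (hK : 0 < K) (hz : 0 < z) :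
    ∃ η : ℝ, 0 < η ∧ η ≤ (q - q ^ 2) / 2 ∧ ∀ (T L : ℝ) (u : ℝ → V → V) (p : ℝ → V → ℝ),
      TG M T L u p → 2 ≤ T → K + 3 < L → ∀ t₁ ∈ Icc (T - 1) (T - q), ∀ x₁ : V, ‖x₁‖ ≤ K →
        2 * z ≤ Pool.Agent.TH305.DR.ST 0 (u t₁) x₁ →
          ∀ t ∈ Icc t₁ (t₁ + η), ∀ x ∈ closedBall x₁ η,
            z ≤ Pool.Agent.TH305.DR.ST 0 (u t) x := by
  obtain ⟨D, hD, hder⟩ := der0 hM hq hq1 hK
  have hE : 0 < M / q := by positivity
  obtain ⟨B, hBd⟩ : ∃ B, B = 18 * (√D * (3 * √D + 6 * (D + M / q * √D))) := ⟨_, rfl⟩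
  have hB : 0 < B := by rw [hBd]; positivity
  have hqq := q_sq hq hq1
  obtain ⟨η, hη⟩ : ∃ η, η = min ((q - q ^ 2) / 2) (z / (B + 54 * D)) := ⟨_, rfl⟩
  have hη0 : 0 < η := by
    rw [hη]
    exact lt_min (by linarith) (by positivity)
  have hη1 : η ≤ (q - q ^ 2) / 2 := by rw [hη]; exact min_le_left _ _
  have hη2 : η ≤ z / (B + 54 * D) := by rw [hη]; exact min_le_right _ _
  refine ⟨η, hη0, hη1, ?_⟩
  intro T L u p h hT hL t₁ ht₁ x₁ hx₁ hz₁ t ht x hx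
  have hsub : ∀ s ∈ Icc t₁ (t₁ + η), s ∈ Icc (T - 1) (T - q ^ 2) := fun s hs =>
    ⟨by linarith [hs.1, ht₁.1], by linarith [hs.2, ht₁.2]⟩
  have hsub2 : ∀ s ∈ Icc (T - 1) (T - q ^ 2), s ∈ Ioo 0 T := fun s hs =>
    ⟨by linarith [hs.1], by linarith [hs.2]⟩
  have hx₁' : x₁ ∈ ball (0 : V) (K + 1) := by
    rw [mem_ball, dist_zero_right]; linarith
  have hη3 : η < 1 := by nlinarith
  have hx' : x ∈ ball (0 : V) (K + 1) := by
    rw [mem_closedBall, dist_eq_norm] at hx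
    rw [mem_ball, dist_zero_right]
    calc ‖x‖ = ‖(x - x₁) + x₁‖ := by congr 1; abel
      _ ≤ ‖x - x₁‖ + ‖x₁‖ := norm_add_le _ _
      _ < K + 1 := by linarith
  have key : ∀ s ∈ Icc (T - 1) (T - q ^ 2), ∀ y ∈ ball (0 : V) (K + 1),
      |deriv (fun s => Pool.Agent.TH305.DR.ST 0 (u s) y) s| ≤ B ∧
      ∀ k, |pd k (Pool.Agent.TH305.DR.ST 0 (u s)) y| ≤ 18 * D := by
    intro s hs y hy
    obtain ⟨g0, g1, g2, g3⟩ := hder T L u p h hT hL s hs y hy
    have hyL : y ∈ ball (0 : V) L := ball_subset_ball (by linarith) hy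
    have g4 := (h.u_bd (hsub2 s hs) hyL hq hs.2).1
    rw [hBd]
    exact h.dST (hsub2 s hs) hyL hD.le hE.le g0 g1 g2 g3 g4
  have c1 : |Pool.Agent.TH305.DR.ST 0 (u t) x - Pool.Agent.TH305.DR.ST 0 (u t₁) x|
      ≤ B * (t - t₁) := by
    apply lip_t (g := fun s => Pool.Agent.TH305.DR.ST 0 (u s) x)
      (g' := fun s => deriv (fun s => Pool.Agent.TH305.DR.ST 0 (u s) x) s) ht.1
    · intro s hs
      exact (h.jST.dfT (hsub2 s (hsub s ⟨hs.1, hs.2.trans ht.2⟩)) x).hasDerivAt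
    · intro s hs
      exact (key s (hsub s ⟨hs.1, hs.2.trans ht.2⟩) x hx').1
  have c2 : |Pool.Agent.TH305.DR.ST 0 (u t₁) x - Pool.Agent.TH305.DR.ST 0 (u t₁) x₁|
      ≤ 3 * (18 * D) * ‖x - x₁‖ := by
    have ht1 := hsub t₁ ⟨le_rfl, by linarith⟩
    exact lip_sp (h.jST.slice (hsub2 t₁ ht1)) (convex_ball 0 (K + 1))
      (fun y hy k => (key t₁ ht1 y hy).2 k) hx₁' hx'
  rw [mem_closedBall, dist_eq_norm] at hx
  have c3 : B * (t - t₁) ≤ B * η := mul_le_mul_of_nonneg_left (by linarith [ht.2]) hB.le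
  have c4 : 3 * (18 * D) * ‖x - x₁‖ ≤ 3 * (18 * D) * η :=
    mul_le_mul_of_nonneg_left hx (by positivity)
  have c5 : B * η + 3 * (18 * D) * η ≤ z := by
    rw [le_div_iff₀ (by positivity)] at hη2
    linarith
  rw [abs_le] at c1 c2
  linarith [c1.1, c2.1]

end Pool.Agent.V1183.PM
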