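import Pool.Agent.V1183.PM.Iter

/-!
Monotone pressure (helper83): the comparison function given by the pressure.
-/

set_option autoImplicit false

open MeasureTheory Set Metric Filter Topology
open scoped ContDiff ENNReal

namespace Pool.Agent.V1183.PM

open H459R3.NS W221.NS
open Pool.Agent.TH305.DR (Om SS ST_nonneg)

/-- The scaling derivative of the pressure. -/
noncomputable def DP (lam T : ℝ) (u : ℝ → V → V) (p : ℝ → V → ℝ) (t : ℝ) (x : V) : ℝ :=
  lam * (2 * (T - t) * deriv (fun s => p s x) t - 2 * p t x - ∑ j, x j * pd j (p t) x)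
    - (1 - lam) * ∑ j, (2 * (T - t) * u t x j + x j) * pd j (p t) x

/-- The comparison function. -/
noncomputable def PhP (lam T : ℝ) (p : ℝ → V → ℝ) (t : ℝ) (x : V) : ℝ :=
  2 * lam * ((T - t) * p t x)

section
variable {M T L lam : ℝ} {u : ℝ → V → V} {p : ℝ → V → ℝ} {t : ℝ} {x : V}

lemma TG.jPh (h : TG M T L u p) (lam : ℝ) : J T (PhP lam T p) := by
  have jT : J T (fun t (_ : V) => T - t) := J.time (f := fun t => T - t) (by fun_prop)
  exact (J.space (contDiff_const (c := 2 * lam))).mul (jT.mul h.jp)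

theorem TG.LLP (h : TG M T L u p) (ht : t ∈ Ioo 0 T) (hx : x ∈ ball (0 : V) L) (hlam : lam ≤ 1) :
    LL u (fun t x => HH T u t x + PhP lam T p t x) t x
      ≤ DP lam T u p t x - (1 + lam) / 2 * ((T - t) * Pool.Agent.TH305.DR.ST 0 (u t) x) := by
  have jT : J T (fun t (_ : V) => T - t) := J.time (f := fun t => T - t) (by fun_prop)
  have jc : J T (fun (_ : ℝ) (_ : V) => 2 * lam) := J.space (contDiff_const (c := 2 * lam))
  have e1 : LL u (PhP lam T p) t x = 2 * lam * ((T - t) * LL u p t x - p t x) := by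
    have e2 : LL u (PhP lam T p) t x = LL u (fun t x => (2 * lam) * ((T - t) * p t x)) t x := rfl
    rw [e2, LL_mul jc (jT.mul h.jp) ht, LL_mul jT h.jp ht,
      LL_time (f := fun t => T - t), LL_time (f := fun _ => 2 * lam)]
    have e3 : deriv (fun t => T - t) t = -1 := by simp
    rw [e3]
    simp only [pd_const2, zero_mul, Finset.sum_const_zero, deriv_const]
    ring
  have e4 : LL u p t x = deriv (fun s => p s x) t + adv (u t) (p t) x - lap (p t) x := rfl
  rw [h.lapP ht hx] at e4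
  rw [LL_add h.jHH.c12 (h.jPh lam).c12 ht, h.LLHH ht hx, e1, e4]
  have hst := st_split (u t) x
  have hst0 := ST_nonneg 0 (u t) x
  obtain ⟨S, hS⟩ : ∃ S, S = ∑ i, ∑ j, pd i (fun y => u t y j) x * pd j (fun y => u t y i) x := ⟨_, rfl⟩
  rw [← hS] at hst ⊢
  have hg : Pool.Agent.TH305.DR.ST 0 (u t) x ≤ 4 * gsq (u t) x := by
    have h1 : 0 ≤ gsq (u t) x + S := by
      have e5 : 2 * (gsq (u t) x + S) = ∑ i, ∑ j, (pd i (fun y => u t y j) x
          + pd j (fun y => u t y i) x) ^ 2 := by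
        rw [hS]
        unfold gsq
        simp only [Fin.sum_univ_three]
        ring
      have h2 : 0 ≤ ∑ i, ∑ j, (pd i (fun y => u t y j) x
          + pd j (fun y => u t y i) x) ^ 2 :=
        Finset.sum_nonneg fun _ _ => Finset.sum_nonneg fun _ _ => sq_nonneg _
      linarith
    linarith
  have hθ : 0 < T - t := by linarith [ht.2]
  unfold DP adv
  have e6 : (T - t) * (gsq (u t) x - lam * S) ≥ (T - t) * ((1 + lam) / 4 *
      Pool.Agent.TH305.DR.ST 0 (u t) x) := by
    apply mul_le_mul_of_nonneg_left _ hθ.le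
    have e7 : S = gsq (u t) x - Pool.Agent.TH305.DR.ST 0 (u t) x / 2 := by linarith
    rw [e7]
    nlinarith
  simp only [Fin.sum_univ_three] at *
  nlinarith

lemma TG.PhB (h : TG M T L u p) (hlam1 : -1 < lam) (hlam : lam ≤ 1) (ht : t ∈ Ioo 0 T)
    (hx : x ∈ ball (0 : V) L) : |PhP lam T p t x| ≤ 2 * M ^ 2 := by
  have h1 := h.bp t ht x hx
  have hθ : 0 < T - t := by linarith [ht.2]
  have h2 : T - t ≤ (‖x‖ + √(T - t)) ^ 2 := by
    have h3 : √(T - t) ^ 2 = T - t := Real.sq_sqrt hθ.le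
    nlinarith [norm_nonneg x, Real.sqrt_nonneg (T - t)]
  have h4 : |p t x| * (T - t) ≤ M ^ 2 := by
    refine le_trans ?_ h1
    exact mul_le_mul_of_nonneg_left h2 (abs_nonneg _)
  unfold PhP
  rw [abs_mul, abs_mul, abs_mul, abs_two, abs_of_pos hθ]
  have h5 : |lam| ≤ 1 := abs_le.2 ⟨by linarith, hlam⟩
  have h6 : 0 ≤ (T - t) * |p t x| := by positivity
  nlinarith [abs_nonneg lam]

end

end Pool.Agent.V1183.PM
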