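import Pool.Agent.V1183.PM.Pers

/-!
Monotone pressure (helper83): the gradient is controlled by the vorticity.
-/

set_option autoImplicit false

open MeasureTheory Set Metric Filter Topology
open scoped ContDiff

namespace Pool.Agent.V1183.PM

open H459R3.NS W221.NS
open Pool.Agent.TH305.DR (Om bb SS SS_zero SS_succ SS_one SS_nonneg SV om_sm bb_sm pd_congr_open
  pd_const' pd_sum' Cut exists_cut)
open Pool.Agent.W583.MD (sm_pd cs_pd pd_mul' Z Z.add Z.sub Z.smul Z.sum int_cs Z_pd Z_main)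
open Pool.Agent.W22.ME.TD (pd_comm)

lemma st_split (v : V → V) (x : V) : Pool.Agent.TH305.DR.ST 0 v x
    = 2 * gsq v x - 2 * ∑ i, ∑ j, pd i (fun y => v y j) x * pd j (fun y => v y i) x := by
  rw [st0_eq, Fintype.sum_prod_type]
  unfold gsq Om
  simp only [Fin.sum_univ_three]
  ring

/-- The identity at a point. -/
lemma point3 {w : Fin 3 → V → ℝ} {φ : V → ℝ} (hw : ∀ i, ContDiff ℝ ∞ (w i))
    (hφ : ContDiff ℝ ∞ φ) (x : V) (hdiv : φ x * φ x * ∑ j, w j x * ∑ i, pd j (pd i (w i)) x = 0) :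
    ∑ i, pd i (fun y => φ y * φ y * ∑ j, w j y * pd j (w i) y) x =
      2 * φ x * (∑ i, ∑ j, pd i φ x * w j x * pd j (w i) x)
        + φ x * φ x * ∑ i, ∑ j, pd i (w j) x * pd j (w i) x := by
  have e1 : ∀ i, pd i (fun y => φ y * φ y * ∑ j, w j y * pd j (w i) y) x
      = φ x * φ x * (∑ j, (w j x * pd i (pd j (w i)) x + pd i (w j) x * pd j (w i) x))
        + (φ x * pd i φ x + pd i φ x * φ x) * ∑ j, w j x * pd j (w i) x := by
    intro i
    rw [pd_mul' (hφ.mul hφ) (ContDiff.sum fun j _ => (hw j).mul (sm_pd (hw i) j)),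
      pd_mul' hφ hφ]
    congr 2
    rw [congrFun (pd_sum' Finset.univ (f := fun j y => w j y * pd j (w i) y)
      (fun j => (hw j).mul (sm_pd (hw i) j)) i) x]
    refine Finset.sum_congr rfl fun j _ => ?_
    rw [pd_mul' (hw j) (sm_pd (hw i) j)]
  have e2 : ∀ i j, pd i (pd j (w i)) x = pd j (pd i (w i)) x := fun i j =>
    congrFun (pd_comm (hw i) i j) x
  simp only [e1]
  simp only [Fin.sum_univ_three] at hdiv ⊢
  linear_combination hdiv + φ x ^ 2 * (w 1 x * e2 0 1 + w 2 x * e2 0 2 + w 0 x * e2 1 0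
    + w 2 x * e2 1 2 + w 0 x * e2 2 0 + w 1 x * e2 2 1)

/-- The gradient is controlled by the vorticity. -/
theorem gsq_le {v : V → V} {φ : V → ℝ} {L : ℝ} (hv : ∀ i, ContDiff ℝ ∞ (fun y => v y i))
    (hφ : ContDiff ℝ ∞ φ) (hc : HasCompactSupport φ) (hs : ∀ z, φ z ≠ 0 → z ∈ ball (0 : V) L)
    (hd : ∀ x ∈ ball (0 : V) L, dv v x = 0) :
    ∫ x, φ x ^ 2 * gsq v x ≤ (∫ x, φ x ^ 2 * Pool.Agent.TH305.DR.ST 0 v x)
      + 4 * ∫ x, (∑ j, pd j φ x ^ 2) * nsq v x := by
  have hc2 : HasCompactSupport fun x => φ x * φ x := hc.mul_right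
  have hc3 : HasCompactSupport fun x => φ x ^ 2 := by
    have : (fun x => φ x ^ 2) = fun x => φ x * φ x := by funext x; ring
    rw [this]
    exact hc2
  have hQ : Continuous fun x => ∑ i, ∑ j, pd i (fun y => v y j) x * pd j (fun y => v y i) x :=
    continuous_finsetSum _ fun i _ => continuous_finsetSum _ fun j _ =>
      (sm_pd (hv j) i).continuous.mul (sm_pd (hv i) j).continuous
  have hX : Continuous fun x => ∑ i, ∑ j, pd i φ x * v x j * pd j (fun y => v y i) x :=
    continuous_finsetSum _ fun i _ => continuous_finsetSum _ fun j _ =>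
      ((sm_pd hφ i).continuous.mul (hv j).continuous).mul (sm_pd (hv i) j).continuous
  have hZ : Z fun x => ∑ i, pd i (fun y => φ y * φ y * ∑ j, v y j * pd j (fun y => v y i) y) x :=
    Z.sum fun i => Z_pd ((hφ.mul hφ).mul (ContDiff.sum fun j _ => (hv j).mul (sm_pd (hv i) j)))
      hc2.mul_right i
  have hpt : ∀ x, ∑ i, pd i (fun y => φ y * φ y * ∑ j, v y j * pd j (fun y => v y i) y) x
      = 2 * φ x * (∑ i, ∑ j, pd i φ x * v x j * pd j (fun y => v y i) x)
        + φ x * φ x * ∑ i, ∑ j, pd i (fun y => v y j) x * pd j (fun y => v y i) x := by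
    intro x
    refine point3 (w := fun i y => v y i) hv hφ x ?_
    by_cases hx : φ x = 0
    · rw [hx]; ring
    · have hxL := hs x hx
      have h1 : ∀ j, ∑ i, pd j (pd i (fun y => v y i)) x = 0 := by
        intro j
        have e1 : pd j (dv v) x = 0 := by
          rw [pd_congr_open isOpen_ball (g := fun _ => (0 : ℝ)) hd j hxL, pd_const']
        have e2 : pd j (dv v) x = ∑ i, pd j (pd i (fun y => v y i)) x :=
          congrFun (pd_sum' Finset.univ (f := fun i => pd i (fun y => v y i))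
            (fun i => sm_pd (hv i) i) j) x
        rw [← e2, e1]
      simp only [h1, mul_zero, Finset.sum_const_zero]
  have hZ2 := hZ.2
  simp only [hpt] at hZ2
  have i1 : Integrable fun x => 2 * φ x * (∑ i, ∑ j, pd i φ x * v x j * pd j (fun y => v y i) x) :=
    int_cs ((continuous_const.mul hφ.continuous).mul hX) (hc.mul_left (f := fun _ => (2 : ℝ))).mul_right
  have i2 : Integrable fun x => φ x * φ x *
      ∑ i, ∑ j, pd i (fun y => v y j) x * pd j (fun y => v y i) x :=
    int_cs ((hφ.continuous.mul hφ.continuous).mul hQ) hc2.mul_right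
  have i3 : Integrable fun x => φ x ^ 2 * gsq v x :=
    int_cs ((hφ.continuous.pow 2).mul (gsq_cont hv)) hc3.mul_right
  have i4 : Integrable fun x => φ x ^ 2 * Pool.Agent.TH305.DR.ST 0 v x := by
    refine int_cs ((hφ.continuous.pow 2).mul ?_) hc3.mul_right
    have : Pool.Agent.TH305.DR.ST 0 v
        = fun x => ∑ pp : Fin 3 × Fin 3, Om pp.1 pp.2 v x ^ 2 := rfl
    rw [this]
    exact continuous_finsetSum _ fun pp _ => (om_sm hv pp.1 pp.2).continuous.pow 2
  have i5 : Integrable fun x => (∑ j, pd j φ x ^ 2) * nsq v x := by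
    have e : (fun x => (∑ j, pd j φ x ^ 2) * nsq v x)
        = fun x => ∑ j, pd j φ x * (pd j φ x * nsq v x) := by
      funext x
      rw [Finset.sum_mul]
      exact Finset.sum_congr rfl fun j _ => by ring
    rw [e]
    exact integrable_finsetSum _ fun j _ => int_cs ((sm_pd hφ j).continuous.mul
      ((sm_pd hφ j).continuous.mul (nsq_cont hv))) (cs_pd hc j).mul_right
  rw [integral_add i1 i2] at hZ2
  have h1 : ∫ x, φ x ^ 2 * gsq v x ≤ ∫ x, ((1 / 2 * (φ x ^ 2 * Pool.Agent.TH305.DR.ST 0 v x)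
      + (2 * φ x * (∑ i, ∑ j, pd i φ x * v x j * pd j (fun y => v y i) x)
      + φ x * φ x * ∑ i, ∑ j, pd i (fun y => v y j) x * pd j (fun y => v y i) x))
      + (1 / 2 * (φ x ^ 2 * gsq v x) + 2 * ((∑ j, pd j φ x ^ 2) * nsq v x))) := by
    apply integral_mono i3 (((i4.const_mul (1 / 2)).add (i1.add i2)).add
      ((i3.const_mul (1 / 2)).add (i5.const_mul 2)))
    intro x
    show φ x ^ 2 * gsq v x ≤ ((1 / 2 * (φ x ^ 2 * Pool.Agent.TH305.DR.ST 0 v x)
      + (2 * φ x * (∑ i, ∑ j, pd i φ x * v x j * pd j (fun y => v y i) x)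
      + φ x * φ x * ∑ i, ∑ j, pd i (fun y => v y j) x * pd j (fun y => v y i) x))
      + (1 / 2 * (φ x ^ 2 * gsq v x) + 2 * ((∑ j, pd j φ x ^ 2) * nsq v x)))
    have hX2 : 0 ≤ 2 * φ x * (∑ i, ∑ j, pd i φ x * v x j * pd j (fun y => v y i) x)
        + (1 / 2 * (φ x ^ 2 * gsq v x) + 2 * ((∑ j, pd j φ x ^ 2) * nsq v x)) := by
      have e : 2 * φ x * (∑ i, ∑ j, pd i φ x * v x j * pd j (fun y => v y i) x)
        + (1 / 2 * (φ x ^ 2 * gsq v x) + 2 * ((∑ j, pd j φ x ^ 2) * nsq v x))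
          = ∑ i, ∑ j, 2 * (pd i φ x * v x j + 1 / 2 * φ x * pd j (fun y => v y i) x) ^ 2 := by
        unfold gsq nsq
        simp only [Fin.sum_univ_three]
        ring
      rw [e]
      exact Finset.sum_nonneg fun _ _ => Finset.sum_nonneg fun _ _ => by positivity
    have hst := st_split v x
    nlinarith
  have j12 : Integrable fun x => 2 * φ x * (∑ i, ∑ j, pd i φ x * v x j * pd j (fun y => v y i) x)
      + φ x * φ x * ∑ i, ∑ j, pd i (fun y => v y j) x * pd j (fun y => v y i) x := i1.add i2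
  have j4 : Integrable fun x => 1 / 2 * (φ x ^ 2 * Pool.Agent.TH305.DR.ST 0 v x) :=
    i4.const_mul (1 / 2)
  have j3 : Integrable fun x => 1 / 2 * (φ x ^ 2 * gsq v x) := i3.const_mul (1 / 2)
  have j5 : Integrable fun x => 2 * ((∑ j, pd j φ x ^ 2) * nsq v x) := i5.const_mul 2
  have j412 : Integrable fun x => 1 / 2 * (φ x ^ 2 * Pool.Agent.TH305.DR.ST 0 v x)
      + (2 * φ x * (∑ i, ∑ j, pd i φ x * v x j * pd j (fun y => v y i) x)
      + φ x * φ x * ∑ i, ∑ j, pd i (fun y => v y j) x * pd j (fun y => v y i) x) := j4.add j12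
  have j35 : Integrable fun x => 1 / 2 * (φ x ^ 2 * gsq v x)
      + 2 * ((∑ j, pd j φ x ^ 2) * nsq v x) := j3.add j5
  rw [integral_add j412 j35, integral_add j4 j12, integral_add i1 i2,
      integral_add j3 j5, integral_const_mul, integral_const_mul,
      integral_const_mul, hZ2] at h1
  linarith

end Pool.Agent.V1183.PM
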