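import Pool.Agent.V1183.PM.Reg1

/-!
Monotone pressure (helper83): the total dissipation and the dissipation at early times.
-/

set_option autoImplicit false

open MeasureTheory Set Metric Filter Topology
open scoped ContDiff ENNReal

namespace Pool.Agent.V1183.PM

open H459R3.NS W221.NS
open Pool.Agent.TH305.DR (Om bb SS SS_zero SS_succ SS_one SS_nonneg SV om_sm bb_sm pd_congr_open
  pd_const' pd_sum' Cut exists_cut ST_nonneg)
open Pool.Agent.W583.MD (sm_pd cs_pd pd_mul' Z Z.add Z.sub Z.smul Z.sum int_cs Z_pd Z_main)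
open Pool.Agent.TH305.LW (pd_scal B2_ii)

section
variable {M T L N : ℝ} {u : ℝ → V → V} {p : ℝ → V → ℝ} {t : ℝ} {x : V} {χ : V → ℝ}

/-- The dissipation at one time. -/
lemma TG.early (h : TG M T L u p) (hc : Cut 1 (1 + 1) N χ) (hN : 0 ≤ N) {K z : ℝ} (hK : 1 ≤ K)
    (hKL : 2 * K < L) (ht : t ∈ Ioo 0 T) (hz : 0 ≤ z)
    (hst : ∀ x ∈ ball (0 : V) (2 * K), Pool.Agent.TH305.DR.ST 0 (u t) x ≤ z) :
    B2 0 1 (u t) ≤ 64 * K ^ 3 * z + 576 * N * M ^ 2 / K := by
  have hK0 : 0 < K := by linarith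
  obtain ⟨φ, hφd⟩ : ∃ φ : V → ℝ, φ = fun z => 1 * χ (K⁻¹ • (z - 0)) := ⟨_, rfl⟩
  have hφe : ∀ x, φ x = χ (K⁻¹ • x) := by
    intro x
    rw [hφd]
    simp
  have hφ : ContDiff ℝ ∞ φ := by
    rw [hφd]
    have h1 : ContDiff ℝ ∞ (fun z : V => K⁻¹ • (z - 0)) := by fun_prop
    exact contDiff_const.mul (hc.sm.comp h1)
  have hnrm : ∀ x : V, ‖K⁻¹ • x‖ = ‖x‖ / K := by
    intro x
    rw [norm_smul, Real.norm_of_nonneg (by positivity)]
    field_simp
  have hin : ∀ x : V, K⁻¹ • x ∈ ball (0 : V) (1 + 1) → x ∈ ball (0 : V) (2 * K) := by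
    intro x hx
    rw [mem_ball, dist_zero_right] at hx ⊢
    rw [hnrm, div_lt_iff₀ hK0] at hx
    linarith
  have hs1 : ∀ x, φ x ≠ 0 → x ∈ ball (0 : V) (2 * K) := by
    intro x hx
    rw [hφe] at hx
    exact hin x (cut_ball hc hx)
  have hpd : ∀ j x, pd j φ x = K⁻¹ * pd j χ (K⁻¹ • x) := by
    intro j x
    rw [hφd, pd_scal hc.sm 1 K⁻¹ 0 j]
    simp
  have hgrad : ∀ x, ∑ j, pd j φ x ^ 2 = K⁻¹ ^ 2 * SS 1 χ (K⁻¹ • x) := by
    intro x
    rw [SS_one, Finset.mul_sum]
    refine Finset.sum_congr rfl fun j _ => ?_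
    rw [hpd]
    ring
  have hcs : HasCompactSupport φ := csR (R := 2 * K) φ fun z hz => by
    by_contra hcon
    exact hz (ball_subset_closedBall (hs1 z hcon))
  have hcs2 : HasCompactSupport fun x => φ x ^ 2 := by
    have : (fun x => φ x ^ 2) = fun x => φ x * φ x := by funext x; ring
    rw [this]
    exact hcs.mul_right
  have hv := h.sl ht
  have hsub : ball (0 : V) (2 * K) ⊆ ball (0 : V) L := ball_subset_ball hKL.le
  have key := gsq_le (v := u t) hv hφ hcs (fun z hz => hsub (hs1 z hz)) (h.dv t ht)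
  have hφ0 : ∀ x, 0 ≤ φ x := fun x => by rw [hφe]; exact hc.nn _
  have hφ1 : ∀ x, φ x ≤ 1 := fun x => by rw [hφe]; exact hc.le _
  have b1 : ∫ x, φ x ^ 2 * Pool.Agent.TH305.DR.ST 0 (u t) x ≤ z * (2 * (2 * K)) ^ 3 := by
    refine int_ball_le (a := 0) (ρ := 2 * K) ?_ (by positivity) ?_ ?_
    · have : Pool.Agent.TH305.DR.ST 0 (u t)
          = fun x => ∑ pp : Fin 3 × Fin 3, Om pp.1 pp.2 (u t) x ^ 2 := rfl
      rw [this]
      exact (hφ.continuous.pow 2).mul
        (continuous_finsetSum _ fun pp _ => (om_sm hv pp.1 pp.2).continuous.pow 2)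
    · intro x hx
      have : φ x = 0 := by
        by_contra hcon
        exact hx (hs1 x hcon)
      rw [this]
      ring
    · intro x
      by_cases hx : φ x = 0
      · rw [hx]
        simpa using hz
      · have h1 := hst x (hs1 x hx)
        have h2 := ST_nonneg 0 (u t) x
        have h3 : φ x ^ 2 ≤ 1 := by nlinarith [hφ0 x, hφ1 x]
        nlinarith
  have i5 : Integrable fun x => (∑ j, pd j φ x ^ 2) * nsq (u t) x := by
    have e : (fun x => (∑ j, pd j φ x ^ 2) * nsq (u t) x)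
        = fun x => ∑ j, pd j φ x * (pd j φ x * nsq (u t) x) := by
      funext x
      rw [Finset.sum_mul]
      exact Finset.sum_congr rfl fun j _ => by ring
    rw [e]
    exact integrable_finsetSum _ fun j _ => int_cs ((sm_pd hφ j).continuous.mul
      ((sm_pd hφ j).continuous.mul (nsq_cont hv))) (cs_pd hcs j).mul_right
  have b2 : ∫ x, (∑ j, pd j φ x ^ 2) * nsq (u t) x
      ≤ (K⁻¹ ^ 2 * N) * (72 * M ^ 2 * ((2 * K - 1) + 1)) := by
    refine cu_bd (R := 2 * K - 1) h (by linarith) (by linarith) ht (by positivity) i5 ?_ ?_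
    · intro x hx
      have h1 : K⁻¹ • x ∉ ball (0 : V) (1 + 1) := by
        intro hcon
        apply hx
        rw [sub_add_cancel]
        exact hin x hcon
      rw [hgrad, hc.gout _ h1]
      ring
    · intro x
      rw [hgrad]
      have h1 := hc.grad (K⁻¹ • x)
      have h2 : 0 ≤ nsq (u t) x := Finset.sum_nonneg fun _ _ => sq_nonneg _
      apply mul_le_mul_of_nonneg_right _ h2
      exact mul_le_mul_of_nonneg_left h1 (by positivity)
  have b3 : B2 0 1 (u t) ≤ ∫ x, φ x ^ 2 * gsq (u t) x := by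
    unfold B2
    have i3 : Integrable fun x => φ x ^ 2 * gsq (u t) x :=
      int_cs ((hφ.continuous.pow 2).mul (gsq_cont hv)) hcs2.mul_right
    have e : ∫ z in ball (0 : V) 1, gsq (u t) z = ∫ z in ball (0 : V) 1, φ z ^ 2 * gsq (u t) z := by
      apply setIntegral_congr_fun measurableSet_ball
      intro z hz'
      have h1 : φ z = 1 := by
        rw [hφe]
        apply hc.one
        rw [mem_ball, dist_zero_right] at hz' ⊢
        rw [hnrm, div_lt_iff₀ hK0]
        linarith
      show gsq (u t) z = φ z ^ 2 * gsq (u t) z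
      rw [h1]
      ring
    rw [e]
    apply setIntegral_le_integral i3
    filter_upwards with z
    exact mul_nonneg (sq_nonneg _) (Finset.sum_nonneg fun _ _ => Finset.sum_nonneg fun _ _ =>
      sq_nonneg _)
  have e1 : (K⁻¹ ^ 2 * N) * (72 * M ^ 2 * ((2 * K - 1) + 1)) = 144 * N * M ^ 2 / K := by
    field_simp
    ring
  rw [e1] at b2
  have e2 : 576 * N * M ^ 2 / K = 4 * (144 * N * M ^ 2 / K) := by ring
  rw [e2]
  nlinarith

/-- The bound of the total dissipation. -/
noncomputable def DD (M : ℝ) (χ : V → ℝ) : ℝ :=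
  (3 * M ^ 2 * (∫ z, χ z) + (3 * M ^ 2 * (∫ z, |lap χ z|)
    + (3 * M ^ 2 + 2 * M ^ 2) * √(3 * M ^ 2) * ∫ z, ∑ j, |pd j χ z|)) / 2

lemma DD_nonneg (hc : Cut 1 (1 + 1) N χ) : 0 ≤ DD M χ := by
  have h1 : 0 ≤ ∫ z, χ z := integral_nonneg hc.nn
  have h2 : 0 ≤ ∫ z, |lap χ z| := integral_nonneg fun _ => abs_nonneg _
  have h3 : 0 ≤ ∫ z, ∑ j, |pd j χ z| := integral_nonneg fun _ =>
    Finset.sum_nonneg fun _ _ => abs_nonneg _
  unfold DD
  positivity

lemma cut_der (hc : Cut 1 (1 + 1) N χ) {z : V} (hz : lap χ z ≠ 0 ∨ ∃ j, pd j χ z ≠ 0) :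
    1 ≤ ‖z‖ ∧ z ∈ closedBall (0 : V) 2 := by
  constructor
  · by_contra hcon
    rw [not_le] at hcon
    have hzb : z ∈ ball (0 : V) 1 := by simpa using hcon
    have h1 : ∀ j, ∀ y ∈ ball (0 : V) 1, pd j χ y = (fun _ => (0 : ℝ)) y := by
      intro j y hy
      rw [pd_congr_open isOpen_ball (g := fun _ => (1 : ℝ)) hc.one j hy, pd_const']
    rcases hz with hz | ⟨j, hz⟩
    · apply hz
      unfold lap
      apply Finset.sum_eq_zero
      intro j _
      rw [pd_congr_open isOpen_ball (h1 j) j hzb, pd_const']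
    · exact hz (h1 j z hzb)
  · by_contra hcon
    have hop : IsOpen ((closedBall (0 : V) 2)ᶜ) := isClosed_closedBall.isOpen_compl
    have h0 : ∀ y ∈ (closedBall (0 : V) 2)ᶜ, χ y = (fun _ => (0 : ℝ)) y := by
      intro y hy
      apply hc.out
      intro hcon2
      apply hy
      have : (1 : ℝ) + 1 = 2 := by norm_num
      rw [this] at hcon2
      exact ball_subset_closedBall hcon2
    have h1 : ∀ j, ∀ y ∈ (closedBall (0 : V) 2)ᶜ, pd j χ y = (fun _ => (0 : ℝ)) y := by
      intro j y hy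
      rw [pd_congr_open hop h0 j hy, pd_const']
    rcases hz with hz | ⟨j, hz⟩
    · apply hz
      unfold lap
      apply Finset.sum_eq_zero
      intro j _
      rw [pd_congr_open hop (h1 j) j hcon, pd_const']
    · exact hz (h1 j z hcon)

lemma TG.total (h : TG M T L u p) (hM : 0 < M) (hc : Cut 1 (1 + 1) N χ) (hT : 2 ≤ T) (hL : 2 < L)
    {b : ℝ} (hb1 : T - 1 ≤ b) (hb : b < T) :
    ∫ t in (T - 1)..b, B2 0 1 (u t) ≤ DD M χ := by
  have ha : 0 < T - 1 := by linarith
  have hsub : ∀ t ∈ Icc (T - 1) b, t ∈ Ioo 0 T := fun t ht => ⟨ha.trans_le ht.1, ht.2.trans_lt hb⟩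
  have hsupp : ∀ z, χ z ≠ 0 → z ∈ ball (0 : V) L := fun z hz =>
    ball_subset_ball (by linarith) (cut_ball hc hz)
  have hcac := h.cac hc.sm hsupp hc.nn (a := T - 1) (b := b) (U := 3 * M ^ 2) (P := M ^ 2)
    ha hb1 hb (by positivity) (by positivity)
    (fun z hz => by
      have hzL := hsupp z hz
      have ht : T - 1 ∈ Ioo 0 T := hsub _ ⟨le_rfl, hb1⟩
      have := (h.u_bd ht hzL (q := 1) one_pos (by norm_num)).2.1
      simpa using this)
    (fun t ht z hz => by
      obtain ⟨h1, h2⟩ := cut_der hc hz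
      have hzL : z ∈ ball (0 : V) L := closedBall_subset_ball hL h2
      have h3 := h.bu t (hsub t ht) z hzL
      have h4 := h.bp t (hsub t ht) z hzL
      have h5 : (1 : ℝ) ≤ ‖z‖ + √(T - t) := by linarith [Real.sqrt_nonneg (T - t)]
      have h6 : ‖u t z‖ ≤ M := by
        refine le_trans ?_ h3
        exact le_mul_of_one_le_right (norm_nonneg _) h5
      have h7 : |p t z| ≤ M ^ 2 := by
        refine le_trans ?_ h4
        exact le_mul_of_one_le_right (abs_nonneg _) (one_le_pow₀ h5)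
      refine ⟨?_, h7⟩
      have := nsq_le (u t) z
      have h8 : ‖u t z‖ ^ 2 ≤ M ^ 2 := pow_le_pow_left₀ (norm_nonneg _) h6 2
      linarith)
    le_rfl le_rfl le_rfl
  have h1 : ∫ t in (T - 1)..b, B2 0 1 (u t) ≤ ∫ t in (T - 1)..b, ∫ z, gsq (u t) z * χ z := by
    have jg : ContinuousOn (fun t => ∫ z, gsq (u t) z * χ z) (Ioo 0 T) := by
      refine ct_int (R := L) (F := fun t z => gsq (u t) z * χ z) ?_ ?_
      · have jg : J T (fun s z => gsq (u s) z) := by
          unfold gsq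
          exact ContDiffOn.sum fun i _ => ContDiffOn.sum fun j _ => ContDiffOn.pow ((h.ju i).pd j) 2
        exact jg.mul (J.space hc.sm)
      · intro t _ z hz
        have : χ z = 0 := by
          by_contra hcon
          exact hz (ball_subset_closedBall (hsupp z hcon))
        rw [this, mul_zero]
    apply intervalIntegral.integral_mono_on hb1
      (B2_ii h.su ha hb (Y := fun _ => 0) continuousOn_const _ le_rfl hb1 le_rfl)
    · apply ContinuousOn.intervalIntegrable
      rw [uIcc_of_le hb1]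
      exact jg.mono hsub
    · intro t ht
      have hv := h.sl (hsub t ht)
      unfold B2
      have e : ∫ z in ball (0 : V) 1, gsq (u t) z = ∫ z in ball (0 : V) 1, gsq (u t) z * χ z := by
        apply setIntegral_congr_fun measurableSet_ball
        intro z hz'
        show gsq (u t) z = gsq (u t) z * χ z
        rw [hc.one z hz']
        ring
      rw [e]
      apply setIntegral_le_integral (int_cs ((gsq_cont hv).mul hc.sm.continuous) hc.cs.mul_left)
      filter_upwards with z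
      exact mul_nonneg (Finset.sum_nonneg fun _ _ => Finset.sum_nonneg fun _ _ => sq_nonneg _)
        (hc.nn z)
  have n1 : 0 ≤ ∫ z, χ z := integral_nonneg hc.nn
  have n2 : 0 ≤ ∫ z, |lap χ z| := integral_nonneg fun _ => abs_nonneg _
  have n3 : 0 ≤ ∫ z, ∑ j, |pd j χ z| := integral_nonneg fun _ =>
    Finset.sum_nonneg fun _ _ => abs_nonneg _
  have h2 : (b - (T - 1)) * (3 * M ^ 2 * (∫ z, |lap χ z|)
    + (3 * M ^ 2 + 2 * M ^ 2) * √(3 * M ^ 2) * ∫ z, ∑ j, |pd j χ z|) ≤
      3 * M ^ 2 * (∫ z, |lap χ z|)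
    + (3 * M ^ 2 + 2 * M ^ 2) * √(3 * M ^ 2) * ∫ z, ∑ j, |pd j χ z| := by
    apply mul_le_of_le_one_left (by positivity)
    linarith
  unfold DD
  linarith

/-- The total dissipation up to the final time. -/
lemma TG.total2 (h : TG M T L u p) (hM : 0 < M) (hc : Cut 1 (1 + 1) N χ) (hT : 2 ≤ T) (hL : 2 < L) :
    ∫⁻ t in Ioo (T - 1) T, ENNReal.ofReal (B2 0 1 (u t)) ≤ ENNReal.ofReal (DD M χ) := by
  have hU : Ioo (T - 1) T = ⋃ n : ℕ, Ioc (T - 1) (T - 1 / (n + 1)) := by
    ext t
    simp only [mem_Ioo, mem_iUnion, mem_Ioc]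
    constructor
    · rintro ⟨h1, h2⟩
      obtain ⟨n, hn⟩ := exists_nat_one_div_lt (show 0 < T - t by linarith)
      exact ⟨n, h1, by linarith⟩
    · rintro ⟨n, h1, h2⟩
      have : (0 : ℝ) < 1 / (n + 1) := by positivity
      exact ⟨h1, by linarith⟩
  rw [hU, setLIntegral_iUnion_of_directed]
  · apply iSup_le
    intro n
    have h0 : (0 : ℝ) < 1 / (n + 1) := by positivity
    have h01 : (1 : ℝ) / (n + 1) ≤ 1 := by
      rw [div_le_one (by positivity)]
      linarith [Nat.cast_nonneg (α := ℝ) n]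
    have hb1 : T - 1 ≤ T - 1 / (n + 1) := by linarith
    have hb : T - 1 / ((n : ℝ) + 1) < T := by linarith
    have ii := B2_ii h.su (show 0 < T - 1 by linarith) hb (Y := fun _ => 0) continuousOn_const 1
      le_rfl hb1 le_rfl
    rw [intervalIntegrable_iff_integrableOn_Ioc_of_le hb1] at ii
    rw [← ofReal_integral_eq_lintegral_ofReal ii]
    · apply ENNReal.ofReal_le_ofReal
      rw [← intervalIntegral.integral_of_le hb1]
      exact h.total hM hc hT hL hb1 hb
    · filter_upwards with t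
      exact W612.MD.B2_nonneg _ _ _
  · apply Monotone.directed_le
    intro m n hmn
    apply Ioc_subset_Ioc_right
    have : (1 : ℝ) / (n + 1) ≤ 1 / (m + 1) := by
      apply one_div_le_one_div_of_le (by positivity)
      have : (m : ℝ) ≤ n := by exact_mod_cast hmn
      linarith
    linarith

end

end Pool.Agent.V1183.PM
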