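import Pool.Agent.V1183.PM.Reg2

/-!
Monotone pressure (helper83): small vorticity before the final time implies regularity.
-/

set_option autoImplicit false

open MeasureTheory Set Metric Filter Topology
open scoped ContDiff ENNReal

namespace Pool.Agent.V1183.PM

open H459R3.NS W221.NS
open Pool.Agent.TH305.DR (Cut exists_cut ST_nonneg)
open Pool.Agent.TH305.LW (count4 B2_ii)

/-- Small vorticity before the final time implies regularity. -/
theorem reg {M : ℝ} (hM : 0 < M) : ∃ q K z : ℝ, 0 < q ∧ q ≤ 1 / 2 ∧ 1 ≤ K ∧ 0 < z ∧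
    ∀ (T L : ℝ) (u : ℝ → V → V) (p : ℝ → V → ℝ), TG M T L u p → 2 ≤ T → K + 3 < L →
      (∀ t ∈ Icc (T - 1) (T - q), ∀ x : V, ‖x‖ ≤ K → Pool.Agent.TH305.DR.ST 0 (u t) x ≤ z) →
        ¬ Sing T u 0 := by
  obtain ⟨C, hC, hcount⟩ := count4
  obtain ⟨N, χ, hN, hc⟩ := exists_cut (show (0 : ℝ) < 1 by norm_num) (show (1 : ℝ) < 1 + 1 by norm_num)
  obtain ⟨κ, hκ⟩ : ∃ κ, κ = √(N * (72 * M ^ 2 * (1 + 1))) := ⟨_, rfl⟩
  obtain ⟨E, hE⟩ : ∃ E, E = √(72 * M ^ 2 * (1 + 1)) := ⟨_, rfl⟩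
  have hκ0 : 0 ≤ κ := by rw [hκ]; exact Real.sqrt_nonneg _
  have hE0 : 0 ≤ E := by rw [hE]; exact Real.sqrt_nonneg _
  -- the scale
  obtain ⟨a, ha⟩ : ∃ a, a = 2 + C * κ + C * (1 + E) := ⟨_, rfl⟩
  have ha2 : 2 ≤ a := by rw [ha]; linarith [mul_nonneg hC.le hκ0, mul_nonneg hC.le hE0]
  obtain ⟨r, hr⟩ : ∃ r, r = 1 / a ^ 2 := ⟨_, rfl⟩
  have hr0 : 0 < r := by rw [hr]; positivity
  have hsr : √r = 1 / a := by
    rw [hr, show 1 / a ^ 2 = (1 / a) ^ 2 by ring]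
    exact Real.sqrt_sq (by positivity)
  have hr4 : 2 * r ≤ 1 := by
    rw [hr]
    rw [mul_one_div, div_le_one (by positivity)]
    nlinarith
  have hr1 : r ≤ 1 := by linarith
  have hrs : r ≤ √r := by
    rw [hsr, hr]
    apply one_div_le_one_div_of_le (by positivity)
    nlinarith
  have h4r : 4 * r ^ 2 ≤ 1 := by nlinarith
  have hCκ : C * κ * √r ≤ 1 := by
    rw [hsr, mul_one_div, div_le_one (by positivity), ha]
    nlinarith [mul_nonneg hC.le hE0]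
  have hCE : C * (r + E * √r) ≤ 1 := by
    have h1 : C * (r + E * √r) ≤ C * (1 + E) * √r := by
      have : C * r ≤ C * √r := mul_le_mul_of_nonneg_left hrs hC.le
      nlinarith
    refine h1.trans ?_
    rw [hsr, mul_one_div, div_le_one (by positivity), ha]
    linarith [mul_nonneg hC.le hκ0]
  have hr2 : 0 < r ^ 2 := by positivity
  -- the parameters
  obtain ⟨D, hD⟩ : ∃ D, D = DD M χ := ⟨_, rfl⟩
  have hD0 : 0 ≤ D := by rw [hD]; exact DD_nonneg hc
  obtain ⟨q, hq0, hq1, hq2, hq3⟩ : ∃ q : ℝ, 0 < q ∧ q ≤ 1 / 2 ∧ q ≤ 4 * r ^ 2 ∧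
      C * ((q / r ^ 2) ^ (1 / 1152 : ℝ) * D) ≤ r / 4 := by
    have hcont : Tendsto (fun q : ℝ => C * ((q / r ^ 2) ^ (1 / 1152 : ℝ) * D)) (𝓝 0) (𝓝 0) := by
      have h1 : Continuous (fun q : ℝ => C * ((q / r ^ 2) ^ (1 / 1152 : ℝ) * D)) := by
        apply continuous_const.mul
        apply Continuous.mul _ continuous_const
        apply Continuous.rpow_const (by fun_prop)
        intro τ
        right
        norm_num
      have h2 := h1.tendsto 0
      simp only [zero_div] at h2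
      rw [Real.zero_rpow (by norm_num), zero_mul, mul_zero] at h2
      exact h2
    have e1 : ∀ᶠ q : ℝ in 𝓝[>] 0, C * ((q / r ^ 2) ^ (1 / 1152 : ℝ) * D) < r / 4 :=
      (hcont.mono_left nhdsWithin_le_nhds).eventually (gt_mem_nhds (by positivity))
    have e2 : ∀ᶠ q : ℝ in 𝓝[>] 0, q < min (1 / 2) (4 * r ^ 2) :=
      nhdsWithin_le_nhds (gt_mem_nhds (lt_min (by norm_num) (by positivity)))
    have e3 : ∀ᶠ q : ℝ in 𝓝[>] 0, 0 < q := self_mem_nhdsWithin
    obtain ⟨q, h1, h2, h3⟩ := (e1.and (e2.and e3)).exists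
    exact ⟨q, h3, (h2.le.trans (min_le_left _ _)), (h2.le.trans (min_le_right _ _)), h1.le⟩
  obtain ⟨K, hK⟩ : ∃ K, K = 1 + 16 * C * (576 * N * M ^ 2) / r := ⟨_, rfl⟩
  have hK1 : 1 ≤ K := by
    rw [hK]
    have : 0 ≤ 16 * C * (576 * N * M ^ 2) / r := by positivity
    linarith
  have hK0 : 0 < K := by linarith
  obtain ⟨z, hz⟩ : ∃ z, z = r / (16 * C * (64 * K ^ 3)) := ⟨_, rfl⟩
  have hz0 : 0 < z := by rw [hz]; positivity
  have hearly : 4 * C * (64 * K ^ 3 * z + 576 * N * M ^ 2 / K) ≤ r / 2 := by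
    have h1 : 4 * C * (64 * K ^ 3 * z) = r / 4 := by
      rw [hz]
      field_simp
      norm_num
    have h2 : 4 * C * (576 * N * M ^ 2 / K) ≤ r / 4 := by
      rw [← mul_div_assoc, div_le_iff₀ hK0, hK]
      have : r / 4 * (1 + 16 * C * (576 * N * M ^ 2) / r) = r / 4 + 4 * C * (576 * N * M ^ 2) := by
        field_simp
        ring
      rw [this]
      linarith
    linarith
  refine ⟨q, 2 * K, z, hq0, hq1, by linarith, hz0, ?_⟩
  intro T L u p h hT hL hst hsing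
  have hT1 : 0 < T - 1 := by linarith
  have hLs := h.lsol (R := 1) hc hN one_pos (by linarith)
  rw [← hκ, ← hE] at hLs
  have hL3 := lsol_three hLs
  -- the dissipation of the cut-off field
  have hgE : ∀ t, ∀ y ∈ ball (0 : V) 1, ENNReal.ofReal (gsq (cu χ u t) y)
      = ENNReal.ofReal (gsq (u t) y) := fun t y hy => by rw [cu_gsq hc hy]
  have hlin : ∀ t, ∫⁻ y in ball (0 : V) 1, ENNReal.ofReal (gsq (cu χ u t) y)
      = ∫⁻ y in ball (0 : V) 1, ENNReal.ofReal (gsq (u t) y) := fun t =>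
    setLIntegral_congr_fun measurableSet_ball (hgE t)
  have hB2 : ∀ t ∈ Ioo 0 T, ∫⁻ y in ball (0 : V) 1, ENNReal.ofReal (gsq (u t) y)
      = ENNReal.ofReal (B2 0 1 (u t)) := by
    intro t ht
    unfold B2
    rw [ofReal_integral_eq_lintegral_ofReal (Pool.Agent.W386.MD.iob (gsq_cont (h.sl ht)) _ _)]
    filter_upwards with y
    exact Finset.sum_nonneg fun _ _ => Finset.sum_nonneg fun _ _ => sq_nonneg _
  have htot := h.total2 hM hc hT (by linarith)
  have hsubI : Ioo (T - 4 * r ^ 2) T ⊆ Ioo (T - 1) T := Ioo_subset_Ioo_left (by linarith)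
  have hfin : ∫⁻ τ in Ioo (T - 4 * r ^ 2) T, ∫⁻ y in ball (0 : V) 1,
      ENNReal.ofReal (gsq (cu χ u τ) y) ≠ ⊤ := by
    have h1 : ∫⁻ τ in Ioo (T - 4 * r ^ 2) T, ∫⁻ y in ball (0 : V) 1,
        ENNReal.ofReal (gsq (cu χ u τ) y) ≤ ENNReal.ofReal (DD M χ) := by
      refine le_trans ?_ htot
      refine (lintegral_mono_set hsubI).trans (le_of_eq ?_)
      apply setLIntegral_congr_fun measurableSet_Ioo
      intro t ht
      show ∫⁻ y in ball (0 : V) 1, ENNReal.ofReal (gsq (cu χ u t) y) = _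
      rw [hlin, hB2 t ⟨hT1.trans ht.1, ht.2⟩]
    exact ne_top_of_le_ne_top ENNReal.ofReal_ne_top h1
  have hsing' : Sing T (cu χ u) 0 := by
    intro δ hδ B
    obtain ⟨t, ht, y, hy, hB⟩ := hsing (min δ 1) (lt_min hδ one_pos) B
    refine ⟨t, ⟨lt_of_le_of_lt (by linarith [min_le_left δ 1]) ht.1, ht.2⟩, y,
      ball_subset_ball (min_le_left _ _) hy, ?_⟩
    have hy1 : y ∈ ball (0 : V) 1 := ball_subset_ball (min_le_right _ _) hy
    have : cu χ u t y = u t y := by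
      funext i
      exact cu_eq hc hy1 t i
    rw [this]
    exact hB
  have key := hcount T κ E 0 (ball 0 1) (cu χ u) (cp χ p) hκ0 hE0 le_rfl hL3 r hr0 hr1
    (by linarith) hCκ (by simp) hfin {0} (by simpa using hsing')
    (by
      intro x hx
      rw [Finset.mem_singleton] at hx
      rw [hx]
      exact ball_subset_ball hCE)
    (by
      intro x hx y hy hxy
      rw [Finset.mem_singleton] at hx hy
      exact absurd (hx.trans hy.symm) hxy)
  rw [Finset.card_singleton, Nat.cast_one, one_mul] at key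
  -- the right hand side
  have hw : ∀ τ ∈ Ioo (T - 4 * r ^ 2) T, ENNReal.ofReal (((T - τ) / r ^ 2) ^ (1 / 1152 : ℝ))
      ≤ ENNReal.ofReal 4 := by
    intro τ hτ
    apply ENNReal.ofReal_le_ofReal
    have h1 : (T - τ) / r ^ 2 ≤ 4 := by
      rw [div_le_iff₀ hr2]
      linarith [hτ.1]
    have h0 : 0 ≤ (T - τ) / r ^ 2 := div_nonneg (by linarith [hτ.2]) hr2.le
    calc ((T - τ) / r ^ 2) ^ (1 / 1152 : ℝ) ≤ 4 ^ (1 / 1152 : ℝ) :=
          Real.rpow_le_rpow h0 h1 (by norm_num)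
      _ ≤ 4 ^ (1 : ℝ) := Real.rpow_le_rpow_of_exponent_le (by norm_num) (by norm_num)
      _ = 4 := by norm_num
  have hw2 : ∀ τ ∈ Ioo (T - q) T, ENNReal.ofReal (((T - τ) / r ^ 2) ^ (1 / 1152 : ℝ))
      ≤ ENNReal.ofReal ((q / r ^ 2) ^ (1 / 1152 : ℝ)) := by
    intro τ hτ
    apply ENNReal.ofReal_le_ofReal
    have h0 : 0 ≤ (T - τ) / r ^ 2 := div_nonneg (by linarith [hτ.2]) hr2.le
    apply Real.rpow_le_rpow h0 _ (by norm_num)
    exact div_le_div_of_nonneg_right (by linarith [hτ.1]) hr2.le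
  obtain ⟨e, he⟩ : ∃ e, e = 64 * K ^ 3 * z + 576 * N * M ^ 2 / K := ⟨_, rfl⟩
  have he0 : 0 ≤ e := by rw [he]; positivity
  have hsplit : Ioo (T - 4 * r ^ 2) T ⊆ (Ioc (T - 4 * r ^ 2) (T - q)) ∪ Ioo (T - q) T := by
    intro t ht
    by_cases h1 : t ≤ T - q
    · left; exact ⟨ht.1, h1⟩
    · right; exact ⟨not_le.1 h1, ht.2⟩
  obtain ⟨F, hF⟩ : ∃ F : ℝ → ℝ≥0∞, F = fun τ => ENNReal.ofReal (((T - τ) / r ^ 2) ^ (1 / 1152 : ℝ)) *
          ∫⁻ y in ball (0 : V) 1, ENNReal.ofReal (gsq (cu χ u τ) y) := ⟨_, rfl⟩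
  have hA : ∫⁻ τ in Ioc (T - 4 * r ^ 2) (T - q), F τ ≤ ENNReal.ofReal (4 * e) := by
    have h1 : ∫⁻ τ in Ioc (T - 4 * r ^ 2) (T - q), F τ
        ≤ ∫⁻ _τ in Ioc (T - 4 * r ^ 2) (T - q), ENNReal.ofReal (4 * e) := by
      apply setLIntegral_mono' measurableSet_Ioc
      intro τ hτ
      have hτ1 : τ ∈ Ioo (T - 4 * r ^ 2) T := ⟨hτ.1, by linarith [hτ.2]⟩
      have hτ2 : τ ∈ Ioo 0 T := ⟨by linarith [hτ.1], by linarith [hτ.2]⟩
      rw [hF]
      show ENNReal.ofReal (((T - τ) / r ^ 2) ^ (1 / 1152 : ℝ)) *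
          ∫⁻ y in ball (0 : V) 1, ENNReal.ofReal (gsq (cu χ u τ) y) ≤ _
      rw [hlin, hB2 τ hτ2, ENNReal.ofReal_mul (by norm_num : (0 : ℝ) ≤ 4)]
      apply mul_le_mul' (hw τ hτ1)
      apply ENNReal.ofReal_le_ofReal
      rw [he]
      refine h.early hc hN hK1 (by linarith) hτ2 hz0.le fun x hx => ?_
      refine hst τ ⟨by linarith [hτ.1], hτ.2⟩ x ?_
      rw [mem_ball, dist_zero_right] at hx
      exact hx.le
    refine h1.trans ?_
    rw [setLIntegral_const, Real.volume_Ioc]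
    have h2 : ENNReal.ofReal (T - q - (T - 4 * r ^ 2)) ≤ 1 := by
      rw [ENNReal.ofReal_le_one]
      linarith
    calc ENNReal.ofReal (4 * e) * ENNReal.ofReal (T - q - (T - 4 * r ^ 2))
        ≤ ENNReal.ofReal (4 * e) * 1 := mul_le_mul_right h2 _
      _ = _ := mul_one _
  have hB : ∫⁻ τ in Ioo (T - q) T, F τ ≤ ENNReal.ofReal ((q / r ^ 2) ^ (1 / 1152 : ℝ) * D) := by
    have h1 : ∫⁻ τ in Ioo (T - q) T, F τ
        ≤ ∫⁻ τ in Ioo (T - q) T, ENNReal.ofReal ((q / r ^ 2) ^ (1 / 1152 : ℝ))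
          * ENNReal.ofReal (B2 0 1 (u τ)) := by
      apply setLIntegral_mono' measurableSet_Ioo
      intro τ hτ
      have hτ2 : τ ∈ Ioo 0 T := ⟨by linarith [hτ.1], hτ.2⟩
      rw [hF]
      show ENNReal.ofReal (((T - τ) / r ^ 2) ^ (1 / 1152 : ℝ)) *
          ∫⁻ y in ball (0 : V) 1, ENNReal.ofReal (gsq (cu χ u τ) y) ≤ _
      rw [hlin, hB2 τ hτ2]
      exact mul_le_mul' (hw2 τ hτ) le_rfl
    refine h1.trans ?_
    rw [lintegral_const_mul' _ _ ENNReal.ofReal_ne_top, ENNReal.ofReal_mul (by positivity), hD]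
    refine mul_le_mul_right ?_ _
    refine (lintegral_mono_set ?_).trans htot
    exact Ioo_subset_Ioo_left (by linarith)
  have hAB : ∫⁻ τ in Ioo (T - 4 * r ^ 2) T, F τ
      ≤ ENNReal.ofReal (4 * e + (q / r ^ 2) ^ (1 / 1152 : ℝ) * D) := by
    refine (lintegral_mono_set hsplit).trans ?_
    refine (lintegral_union_le _ _ _).trans ?_
    rw [ENNReal.ofReal_add (by positivity) (by positivity)]
    exact add_le_add hA hB
  have hfinal : ENNReal.ofReal r ≤ ENNReal.ofReal (C * (4 * e + (q / r ^ 2) ^ (1 / 1152 : ℝ) * D)) := by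
    rw [ENNReal.ofReal_mul hC.le]
    refine key.trans ?_
    rw [hF] at hAB
    exact mul_le_mul_right hAB _
  rw [ENNReal.ofReal_le_ofReal_iff (by positivity)] at hfinal
  rw [← he] at hearly
  nlinarith

end Pool.Agent.V1183.PM
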