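import Pool.Agent.V1183.PM.Reg3

/-!
Monotone pressure (helper83): scaling.
-/

set_option autoImplicit false

open MeasureTheory Set Metric Filter Topology
open scoped ContDiff ENNReal

namespace Pool.Agent.V1183.PM

open H459R3.NS W221.NS
open Pool.Agent.TH305.DR (Om SS ST_nonneg)

/-- The scaled velocity. -/
noncomputable def scu (μ : ℝ) (u : ℝ → V → V) (t : ℝ) (x : V) : V := fun i =>
  μ * u (μ ^ 2 * t) (μ • x) i

/-- A scaled function. -/
noncomputable def scf (a μ : ℝ) (F : ℝ → V → ℝ) (t : ℝ) (x : V) : ℝ := a * F (μ ^ 2 * t) (μ • x)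

lemma pd_sc {f : V → ℝ} (c μ : ℝ) {x : V} (hf : DifferentiableAt ℝ f (μ • x)) (j : Fin 3) :
    pd j (fun z => c * f (μ • z)) x = c * μ * pd j f (μ • x) := by
  have h2 : HasFDerivAt (fun y : V => μ • y) (μ • ContinuousLinearMap.id ℝ V) x :=
    (hasFDerivAt_id x).const_smul μ
  have h3 := (hf.hasFDerivAt.comp x h2).const_mul c
  unfold pd
  have h4 : fderiv ℝ (fun z => c * f (μ • z)) x = _ := h3.fderiv
  rw [h4]
  simp
  ring

lemma lap_sc {f : V → ℝ} (c μ : ℝ) {x : V} (hf : ContDiff ℝ 2 f) :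
    lap (fun z => c * f (μ • z)) x = c * μ ^ 2 * lap f (μ • x) := by
  unfold lap
  rw [Finset.mul_sum]
  refine Finset.sum_congr rfl fun j _ => ?_
  have h1 : pd j (fun z => c * f (μ • z)) = fun z => (c * μ) * pd j f (μ • z) := by
    funext z
    exact pd_sc c μ ((hf.differentiable (by norm_num)) _) j
  rw [h1, pd_sc (c * μ) μ (((pd_cd hf j).differentiable (by norm_num)) _) j]
  ring

section
variable {M T L μ : ℝ} {u : ℝ → V → V} {p F : ℝ → V → ℝ} {t : ℝ} {x : V}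

lemma sc_mem (hμ : 0 < μ) (ht : t ∈ Ioo 0 (T / μ ^ 2)) : μ ^ 2 * t ∈ Ioo 0 T := by
  have h2 : 0 < μ ^ 2 := by positivity
  constructor
  · exact mul_pos h2 ht.1
  · have := ht.2
    rw [lt_div_iff₀ h2] at this
    linarith

lemma sc_memL (hμ : 0 < μ) (hx : x ∈ ball (0 : V) (L / μ)) : μ • x ∈ ball (0 : V) L := by
  rw [mem_ball, dist_zero_right] at hx ⊢
  rw [norm_smul, Real.norm_of_nonneg hμ.le]
  rw [lt_div_iff₀ hμ] at hx
  linarith

lemma dt_sc {g : ℝ → ℝ} (a μ t : ℝ) (hg : DifferentiableAt ℝ g (μ ^ 2 * t)) :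
    HasDerivAt (fun s => a * g (μ ^ 2 * s)) (a * μ ^ 2 * deriv g (μ ^ 2 * t)) t := by
  have h1 : HasDerivAt (fun s : ℝ => μ ^ 2 * s) (μ ^ 2) t := by
    simpa using (hasDerivAt_id t).const_mul (μ ^ 2)
  have h2 := (hg.hasDerivAt.comp t h1).const_mul a
  refine (h2.congr_deriv ?_)
  ring

lemma sc_smooth {n : WithTop ℕ∞} {F : ℝ → V → ℝ} (a : ℝ) (hμ : 0 < μ)
    (hF : ContDiffOn ℝ n (fun z : ℝ × V => F z.1 z.2) (Ioo 0 T ×ˢ univ)) :
    ContDiffOn ℝ n (fun z : ℝ × V => scf a μ F z.1 z.2) (Ioo 0 (T / μ ^ 2) ×ˢ univ) := by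
  unfold scf
  apply contDiffOn_const.mul
  have h1 : ContDiff ℝ n (fun z : ℝ × V => (μ ^ 2 * z.1, μ • z.2)) := by fun_prop
  exact hF.comp h1.contDiffOn fun z hz => ⟨sc_mem hμ hz.1, mem_univ _⟩

lemma C12.sc (hF : C12 T F) (a : ℝ) (hμ : 0 < μ) : C12 (T / μ ^ 2) (scf a μ F) where
  ct := by
    show ContinuousOn (fun z : ℝ × V => a * F (μ ^ 2 * z.1) (μ • z.2)) _
    apply continuousOn_const.mul
    have h1 : Continuous (fun z : ℝ × V => (μ ^ 2 * z.1, μ • z.2)) := by fun_prop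
    exact hF.ct.comp h1.continuousOn fun z hz => ⟨sc_mem hμ hz.1, mem_univ _⟩
  sp := fun t ht => by
    show ContDiff ℝ 2 (fun z => a * F (μ ^ 2 * t) (μ • z))
    have h1 : ContDiff ℝ 2 (fun z : V => μ • z) := by fun_prop
    exact contDiff_const.mul ((hF.sp _ (sc_mem hμ ht)).comp h1)
  tm := fun t ht x => by
    exact (dt_sc (g := fun s => F s (μ • x)) a μ t (hF.tm _ (sc_mem hμ ht) _)).differentiableAt

lemma LL_sc (hF : C12 T F) (a : ℝ) (hμ : 0 < μ) (ht : t ∈ Ioo 0 (T / μ ^ 2)) (x : V) :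
    LL (scu μ u) (scf a μ F) t x = a * μ ^ 2 * LL u F (μ ^ 2 * t) (μ • x) := by
  have hm := sc_mem hμ ht
  have e1 : deriv (fun s => scf a μ F s x) t
      = a * μ ^ 2 * deriv (fun s => F s (μ • x)) (μ ^ 2 * t) :=
    (dt_sc (g := fun s => F s (μ • x)) a μ t (hF.tm _ hm _)).deriv
  have e2 : ∀ j, pd j (scf a μ F t) x = a * μ * pd j (F (μ ^ 2 * t)) (μ • x) := fun j =>
    pd_sc (f := F (μ ^ 2 * t)) a μ (((hF.sp _ hm).differentiable (by norm_num)) _) j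
  have e3 : lap (scf a μ F t) x = a * μ ^ 2 * lap (F (μ ^ 2 * t)) (μ • x) :=
    lap_sc (f := F (μ ^ 2 * t)) a μ (hF.sp _ hm)
  have e4 : adv (scu μ u t) (scf a μ F t) x
      = a * μ ^ 2 * adv (u (μ ^ 2 * t)) (F (μ ^ 2 * t)) (μ • x) := by
    unfold adv
    rw [Finset.mul_sum]
    refine Finset.sum_congr rfl fun j _ => ?_
    rw [e2]
    show μ * u (μ ^ 2 * t) (μ • x) j * _ = _
    ring
  unfold LL
  rw [e1, e3, e4]
  ring

lemma su_coord (μ : ℝ) (u : ℝ → V → V) (i : Fin 3) :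
    (fun t x => scu μ u t x i) = scf μ μ (fun t x => u t x i) := rfl

lemma su_pd (hμ : 0 < μ) (h : TG M T L u p) (ht : t ∈ Ioo 0 (T / μ ^ 2)) (x : V) (i j : Fin 3) :
    pd j (fun y => scu μ u t y i) x = μ ^ 2 * pd j (fun y => u (μ ^ 2 * t) y i) (μ • x) := by
  have := pd_sc (f := fun y => u (μ ^ 2 * t) y i) μ μ
    (((h.sl (sc_mem hμ ht) i).differentiable (by simp)) (μ • x)) j
  have e : μ ^ 2 * pd j (fun y => u (μ ^ 2 * t) y i) (μ • x)
      = μ * μ * pd j (fun y => u (μ ^ 2 * t) y i) (μ • x) := by ring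
  rw [e]
  exact this

theorem TG.sc (hμ : 0 < μ) (h : TG M T L u p) :
    TG M (T / μ ^ 2) (L / μ) (scu μ u) (scf (μ ^ 2) μ p) := by
  have h2 : 0 < μ ^ 2 := by positivity
  have hmem := fun t (ht : t ∈ Ioo 0 (T / μ ^ 2)) => sc_mem (T := T) hμ ht
  have hsq : ∀ t, √(T / μ ^ 2 - t) = √(T - μ ^ 2 * t) / μ := by
    intro t
    rw [show T / μ ^ 2 - t = (T - μ ^ 2 * t) / μ ^ 2 by field_simp, Real.sqrt_div' _ h2.le,
      Real.sqrt_sq hμ.le]
  have hnr : ∀ x : V, ‖μ • x‖ = μ * ‖x‖ := by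
    intro x
    rw [norm_smul, Real.norm_of_nonneg hμ.le]
  refine ⟨?_, sc_smooth _ hμ h.sp, ?_, ?_, ?_, ?_⟩
  · rw [contDiffOn_pi]
    intro i
    exact sc_smooth (F := fun t x => u t x i) μ hμ (h.ju i)
  · intro t ht x hx
    have h3 := h.dv _ (hmem t ht) _ (sc_memL hμ hx)
    unfold W221.NS.dv at h3 ⊢
    have h4 : ∀ i, pd i (fun y => scu μ u t y i) x
        = μ ^ 2 * pd i (fun y => u (μ ^ 2 * t) y i) (μ • x) := fun i => su_pd hμ h ht x i i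
    simp_rw [h4]
    rw [← Finset.mul_sum, h3, mul_zero]
  · intro t ht x hx i
    have h3 := h.mom _ (hmem t ht) _ (sc_memL hμ hx) i
    have h4 := LL_sc (u := u) (F := fun t x => u t x i) (h.ju i).c12 μ hμ ht x
    have h5 : pd i (scf (μ ^ 2) μ p t) x = μ ^ 2 * μ * pd i (p (μ ^ 2 * t)) (μ • x) :=
      pd_sc (f := p (μ ^ 2 * t)) (μ ^ 2) μ (((h.jp.slice (hmem t ht)).differentiable (by simp)) _) i
    rw [h5]
    unfold LL at h4
    have e1 : deriv (fun s => scu μ u s x i) t + adv (scu μ u t) (fun y => scu μ u t y i) x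
        - lap (fun y => scu μ u t y i) x = μ * μ ^ 2 * (deriv (fun s => u s (μ • x) i) (μ ^ 2 * t)
        + adv (u (μ ^ 2 * t)) (fun x => u (μ ^ 2 * t) x i) (μ • x)
        - lap (fun x => u (μ ^ 2 * t) x i) (μ • x)) := h4
    have e2 : deriv (fun s => u s (μ • x) i) (μ ^ 2 * t)
        + adv (u (μ ^ 2 * t)) (fun x => u (μ ^ 2 * t) x i) (μ • x)
        - lap (fun x => u (μ ^ 2 * t) x i) (μ • x) = - pd i (p (μ ^ 2 * t)) (μ • x) := by
      linarith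
    rw [e2] at e1
    linear_combination e1
  · intro t ht x hx
    have h3 := h.bu _ (hmem t ht) _ (sc_memL hμ hx)
    have h4 : scu μ u t x = μ • u (μ ^ 2 * t) (μ • x) := rfl
    rw [h4, norm_smul, Real.norm_of_nonneg hμ.le, hsq]
    rw [hnr] at h3
    have : μ * ‖u (μ ^ 2 * t) (μ • x)‖ * (‖x‖ + √(T - μ ^ 2 * t) / μ)
        = ‖u (μ ^ 2 * t) (μ • x)‖ * (μ * ‖x‖ + √(T - μ ^ 2 * t)) := by
      field_simp
    rw [this]
    exact h3
  · intro t ht x hx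
    have h3 := h.bp _ (hmem t ht) _ (sc_memL hμ hx)
    have h4 : scf (μ ^ 2) μ p t x = μ ^ 2 * p (μ ^ 2 * t) (μ • x) := rfl
    rw [h4, abs_mul, abs_of_pos h2, hsq]
    rw [hnr] at h3
    have : μ ^ 2 * |p (μ ^ 2 * t) (μ • x)| * (‖x‖ + √(T - μ ^ 2 * t) / μ) ^ 2
        = |p (μ ^ 2 * t) (μ • x)| * (μ * ‖x‖ + √(T - μ ^ 2 * t)) ^ 2 := by
      field_simp
    rw [this]
    exact h3

lemma HH_sc (hμ : 0 < μ) : HH (T / μ ^ 2) (scu μ u) t x = HH T u (μ ^ 2 * t) (μ • x) := by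
  unfold HH nsq scu
  simp only [Fin.sum_univ_three, Pi.smul_apply, smul_eq_mul]
  field_simp

lemma st_sc (hμ : 0 < μ) (h : TG M T L u p) (ht : t ∈ Ioo 0 (T / μ ^ 2)) (x : V) :
    Pool.Agent.TH305.DR.ST 0 (scu μ u t) x
      = μ ^ 4 * Pool.Agent.TH305.DR.ST 0 (u (μ ^ 2 * t)) (μ • x) := by
  rw [st0_eq, st0_eq, Finset.mul_sum]
  refine Finset.sum_congr rfl fun pp _ => ?_
  unfold Om
  rw [su_pd hμ h ht, su_pd hμ h ht]
  ring

lemma sing_sc (hμ : 0 < μ) (h : Sing T u 0) : Sing (T / μ ^ 2) (scu μ u) 0 := by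
  have h2 : 0 < μ ^ 2 := by positivity
  intro δ hδ B
  obtain ⟨t, ht, y, hy, hB⟩ := h (min (μ ^ 2 * δ) (μ * δ)) (lt_min (by positivity) (by positivity))
    (B / μ)
  have h3 := min_le_left (μ ^ 2 * δ) (μ * δ)
  have h4 := min_le_right (μ ^ 2 * δ) (μ * δ)
  have e1 : μ ^ 2 * (t / μ ^ 2) = t := by field_simp
  have e2 : μ • (μ⁻¹ • y) = y := by
    rw [smul_smul, mul_inv_cancel₀ hμ.ne', one_smul]
  refine ⟨t / μ ^ 2, ⟨?_, ?_⟩, μ⁻¹ • y, ?_, ?_⟩
  · rw [lt_div_iff₀ h2, sub_mul, div_mul_cancel₀ _ h2.ne']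
    linarith [ht.1]
  · exact div_lt_div_of_pos_right ht.2 h2
  · rw [mem_ball, dist_zero_right] at hy ⊢
    rw [norm_smul, norm_inv, Real.norm_of_nonneg hμ.le, inv_mul_lt_iff₀ hμ]
    linarith
  · have h5 : scu μ u (t / μ ^ 2) (μ⁻¹ • y) = μ • u t y := by
      funext i
      show μ * u (μ ^ 2 * (t / μ ^ 2)) (μ • (μ⁻¹ • y)) i = μ * u t y i
      rw [e1, e2]
    rw [h5, norm_smul, Real.norm_of_nonneg hμ.le]
    rw [div_lt_iff₀ hμ] at hB
    linarith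

end

end Pool.Agent.V1183.PM
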