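import Pool.Agent.V1183.PM.Pres

/-!
Monotone pressure (helper83): translation, viscosity and cut-off.
-/

set_option autoImplicit false

open MeasureTheory Set Metric Filter Topology
open scoped ContDiff ENNReal

namespace Pool.Agent.V1183.PM

open H459R3.NS W221.NS
open Pool.Agent.TH305.DR (Om SS ST_nonneg pd_congr_open Cut exists_cut)

/-- A function transformed and cut off. -/
noncomputable def tr (χ : V → ℝ) (a ν : ℝ) (x₀ : V) (F : ℝ → V → ℝ) (s : ℝ) (y : V) : ℝ :=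
  χ y * (a * F (ν⁻¹ * s) (x₀ + y))

/-- A field transformed and cut off. -/
noncomputable def tru (χ : V → ℝ) (ν : ℝ) (x₀ : V) (u : ℝ → V → V) (s : ℝ) (y : V) : V := fun i =>
  χ y * (ν⁻¹ * u (ν⁻¹ * s) (x₀ + y) i)

lemma pd_tr (a : ℝ) (x₀ : V) (f : V → ℝ) (j : Fin 3) (y : V) :
    pd j (fun y => a * f (x₀ + y)) y = a * pd j f (x₀ + y) := by
  unfold pd
  have h1 : (fun y => a * f (x₀ + y)) = a • fun y => f (x₀ + y) := by
    funext y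
    simp
  rw [h1, fderiv_const_smul_field]
  show (a • fderiv ℝ (fun y => f (x₀ + y)) y) (Pi.single j 1) = _
  rw [fderiv_comp_add_left]
  simp

lemma dt_tr (a ν : ℝ) (g : ℝ → ℝ) (s : ℝ) :
    deriv (fun s => a * g (ν⁻¹ * s)) s = a * (ν⁻¹ * deriv g (ν⁻¹ * s)) := by
  rw [deriv_const_mul_field]
  congr 1
  have := deriv_comp_mul_left ν⁻¹ g s
  simpa using this

section
variable {χ : V → ℝ} {a ν ρ ρ₀ ρ₁ T : ℝ} {x₀ : V} {F : ℝ → V → ℝ} {u : ℝ → V → V} {s : ℝ} {y : V}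

lemma mem_tr (hν : 0 < ν) (hs : s ∈ Ioo 0 (ν * T)) : ν⁻¹ * s ∈ Ioo 0 T := by
  constructor
  · have := hs.1
    positivity
  · rw [inv_mul_lt_iff₀ hν]
    exact hs.2

lemma mem_tr2 (hy : y ∈ ball (0 : V) ρ) : x₀ + y ∈ ball x₀ ρ := by
  rw [mem_ball, dist_eq_norm] at *
  simpa using hy

lemma tr_smooth {n : WithTop ℕ∞} (hn : n ≤ (∞ : WithTop ℕ∞)) (hν : 0 < ν)
    (hF : ContDiffOn ℝ n (fun z : ℝ × V => F z.1 z.2) (Ioo 0 T ×ˢ ball x₀ ρ))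
    (hχ : ContDiff ℝ ∞ χ) (h0 : ∀ x ∉ ball (0 : V) ρ₁, χ x = 0) (hρ : ρ₁ < ρ) (a : ℝ) :
    ContDiffOn ℝ n (fun z : ℝ × V => tr χ a ν x₀ F z.1 z.2) (Ioo 0 (ν * T) ×ˢ univ) := by
  intro z hz
  apply ContDiffAt.contDiffWithinAt
  by_cases hy : z.2 ∈ ball (0 : V) ρ
  · have hop : IsOpen (Ioo 0 T ×ˢ ball x₀ ρ) := isOpen_Ioo.prod isOpen_ball
    have h1 : ContDiffAt ℝ n (fun z : ℝ × V => F z.1 z.2) (ν⁻¹ * z.1, x₀ + z.2) :=
      (hF _ ⟨mem_tr hν hz.1, mem_tr2 hy⟩).contDiffAt (hop.mem_nhds ⟨mem_tr hν hz.1, mem_tr2 hy⟩)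
    have h2 : ContDiffAt ℝ n (fun z : ℝ × V => (ν⁻¹ * z.1, x₀ + z.2)) z := by
      have : ContDiff ℝ n (fun z : ℝ × V => (ν⁻¹ * z.1, x₀ + z.2)) := by fun_prop
      exact this.contDiffAt
    have h3 : ContDiffAt ℝ n (fun z : ℝ × V => F (ν⁻¹ * z.1) (x₀ + z.2)) z :=
      ContDiffAt.comp (g := fun z : ℝ × V => F z.1 z.2)
        (f := fun z : ℝ × V => (ν⁻¹ * z.1, x₀ + z.2)) z h1 h2
    have h4 : ContDiffAt ℝ n (fun z : ℝ × V => χ z.2) z :=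
      ((hχ.of_le hn).comp contDiff_snd).contDiffAt
    exact h4.mul (contDiffAt_const.mul h3)
  · have hc : z.2 ∉ closedBall (0 : V) ρ₁ := by
      rw [mem_ball, not_lt] at hy
      rw [mem_closedBall, not_le]
      linarith
    have hop : IsOpen (Prod.snd ⁻¹' (closedBall (0 : V) ρ₁)ᶜ : Set (ℝ × V)) :=
      isClosed_closedBall.isOpen_compl.preimage continuous_snd
    have h1 : (fun z : ℝ × V => tr χ a ν x₀ F z.1 z.2) =ᶠ[𝓝 z] fun _ => 0 := by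
      filter_upwards [hop.mem_nhds hc] with w hw
      unfold tr
      rw [h0 w.2 (fun hcon => hw (ball_subset_closedBall hcon)), zero_mul]
    exact contDiffAt_const.congr_of_eventuallyEq h1

variable (h1 : ∀ x ∈ ball (0 : V) ρ₀, χ x = 1)
include h1

lemma tr_eq (hy : y ∈ ball (0 : V) ρ₀) : tr χ a ν x₀ F s y = a * F (ν⁻¹ * s) (x₀ + y) := by
  unfold tr
  rw [h1 y hy, one_mul]

lemma tr_pd (hy : y ∈ ball (0 : V) ρ₀) (j : Fin 3) :
    pd j (tr χ a ν x₀ F s) y = a * pd j (F (ν⁻¹ * s)) (x₀ + y) := by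
  rw [pd_congr_open isOpen_ball (g := fun y => a * F (ν⁻¹ * s) (x₀ + y))
    (fun y hy => tr_eq h1 hy) j hy, pd_tr]

lemma tr_lap (hy : y ∈ ball (0 : V) ρ₀) :
    lap (tr χ a ν x₀ F s) y = a * lap (F (ν⁻¹ * s)) (x₀ + y) := by
  unfold lap
  rw [Finset.mul_sum]
  refine Finset.sum_congr rfl fun j _ => ?_
  rw [pd_congr_open isOpen_ball (g := fun y => a * pd j (F (ν⁻¹ * s)) (x₀ + y))
    (fun y hy => tr_pd h1 hy j) j hy, pd_tr]

lemma tr_dt (hy : y ∈ ball (0 : V) ρ₀) :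
    deriv (fun s => tr χ a ν x₀ F s y) s
      = a * (ν⁻¹ * deriv (fun s => F s (x₀ + y)) (ν⁻¹ * s)) := by
  have e : (fun s => tr χ a ν x₀ F s y) = fun s => a * F (ν⁻¹ * s) (x₀ + y) := by
    funext s
    exact tr_eq h1 hy
  rw [e]
  exact dt_tr a ν (fun s => F s (x₀ + y)) s

/-- The operator `∂ₜ + u · ∇ - ν Δ`. -/
noncomputable def Lf (ν : ℝ) (u : ℝ → V → V) (F : ℝ → V → ℝ) (t : ℝ) (x : V) : ℝ :=
  deriv (fun s => F s x) t + ∑ j, u t x j * pd j (F t) x - ν * ∑ j, pd j (pd j (F t)) x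

lemma tr_LL (hν : 0 < ν) (hy : y ∈ ball (0 : V) ρ₀) :
    LL (tru χ ν x₀ u) (tr χ a ν x₀ F) s y = a * ν⁻¹ * Lf ν u F (ν⁻¹ * s) (x₀ + y) := by
  unfold LL Lf
  rw [tr_dt h1 hy, tr_lap h1 hy]
  have e4 : adv (tru χ ν x₀ u s) (tr χ a ν x₀ F s) y
      = a * ν⁻¹ * ∑ j, u (ν⁻¹ * s) (x₀ + y) j * pd j (F (ν⁻¹ * s)) (x₀ + y) := by
    unfold adv
    rw [Finset.mul_sum]
    refine Finset.sum_congr rfl fun j _ => ?_
    rw [tr_pd h1 hy]
    unfold tru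
    rw [h1 y hy]
    ring
  rw [e4]
  unfold lap
  field_simp

end

lemma LL_congr {O : Set V} (hO : IsOpen O) {u : ℝ → V → V} {F G : ℝ → V → ℝ}
    (h : ∀ s, ∀ y ∈ O, F s y = G s y) {t : ℝ} {x : V} (hx : x ∈ O) :
    LL u F t x = LL u G t x := by
  unfold LL adv lap
  have e1 : (fun s => F s x) = fun s => G s x := by
    funext s
    exact h s x hx
  have e2 : ∀ j, ∀ y ∈ O, pd j (F t) y = pd j (G t) y := fun j y hy =>
    pd_congr_open hO (h t) j hy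
  have e3 : ∀ j, pd j (pd j (F t)) x = pd j (pd j (G t)) x := fun j =>
    pd_congr_open hO (e2 j) j hx
  rw [e1]
  simp only [e2 _ x hx, e3]

end Pool.Agent.V1183.PM
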